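import Pool.Agent.J4H65.WA.Est
import Pool.Agent.H622R2.Exp.A5

/-!
# Worst case and average case
-/

namespace Pool.Agent.J4H65.WA

open Pool.Agent.NPC Pool.Agent.H622R2 Pool.Agent.H620R2.Gauge Pool.Agent.H622R2.Exp Filter

/-- the length of block number `n` -/
def BL (c n : ℕ) : ℕ := 2 ^ (c * (n + 2)) - 2 ^ (c * (n + 1))

theorem block_len {c : ℕ} (hc : 1 ≤ c) (n : ℕ) :
    2 ^ (c * (n + 1)) ≤ BL c n ∧ 2 ^ (c * (n + 1)) + BL c n = 2 ^ (c * (n + 2)) ∧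
    (2 ^ c - 1) * 2 ^ (c * (n + 1)) = BL c n := by
  have e : 2 ^ (c * (n + 2)) = 2 ^ c * 2 ^ (c * (n + 1)) := by
    rw [← pow_add]
    congr 1
    ring
  have h2 : 2 ≤ 2 ^ c := by
    calc 2 = 2 ^ 1 := rfl
      _ ≤ 2 ^ c := Nat.pow_le_pow_right (by norm_num) hc
  have h3 : 2 * 2 ^ (c * (n + 1)) ≤ 2 ^ c * 2 ^ (c * (n + 1)) := Nat.mul_le_mul_right _ h2
  unfold BL
  refine ⟨by omega, by omega, ?_⟩
  rw [Nat.sub_mul, one_mul, e]

theorem est {c m : ℕ} (hc : 7 ≤ c) (hm : 2 ≤ m) (L : Set (List Bool)) (n : ℕ) :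
    ((1 / m - (1 / 2) ^ n) * (BL c n : ℝ) ≤ c1 c m L n) ∧
    ((c1 c m L n : ℝ) ≤ (1 / m + 2 * (1 / 2) ^ n) * (BL c n : ℝ)) ∧
    (∀ W : List Bool, W.length = 2 ^ n → W ≠ tab L n →
      (c2 c m L n W : ℝ) ≤ (1 / (m : ℝ) ^ 2 + 5 * (1 / 2) ^ n) * (BL c n : ℝ)) := by
  classical
  have hp : (pr (4 ^ n)).Prime := pr_prime _
  have : Fact (pr (4 ^ n)).Prime := ⟨hp⟩
  have : NeZero (pr (4 ^ n)) := ⟨hp.ne_zero⟩
  obtain ⟨b1, b2, b3⟩ := block_len (by omega : 1 ≤ c) n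
  have h4 : (2 ^ n : ℝ) ≤ (1 / 2) ^ n * (pr (4 ^ n) : ℕ) := by
    have h5 : (4 : ℝ) ^ n ≤ (pr (4 ^ n) : ℕ) := by exact_mod_cast le_pr (4 ^ n)
    have h6 : (2 : ℝ) ^ n = (1 / 2) ^ n * 4 ^ n := by
      rw [← mul_pow]; norm_num
    rw [h6]
    exact mul_le_mul_of_nonneg_left h5 (by positivity)
  have h7 : ((pr (4 ^ n) : ℕ) : ℝ) ≤ 2 * 4 ^ n := by exact_mod_cast pr_le (a := 4 ^ n) (by positivity)
  have h8 : ((pr (4 ^ n) : ℕ) * (pr (4 ^ n) : ℕ) * (pr (4 ^ n) : ℕ) : ℝ) ≤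
      (1 / 2) ^ n * (BL c n : ℕ) := by
    have h9 : (0 : ℝ) ≤ (pr (4 ^ n) : ℕ) := Nat.cast_nonneg _
    have h10 : ((pr (4 ^ n) : ℕ) * (pr (4 ^ n) : ℕ) * (pr (4 ^ n) : ℕ) : ℝ) ≤
        (2 * 4 ^ n) * (2 * 4 ^ n) * (2 * 4 ^ n) := by
      apply mul_le_mul (mul_le_mul h7 h7 h9 (by positivity)) h7 h9 (by positivity)
    refine h10.trans ?_
    have h11 : (2 : ℝ) ^ (7 * (n + 1)) ≤ (BL c n : ℕ) := by
      have : 2 ^ (7 * (n + 1)) ≤ BL c n :=
        (Nat.pow_le_pow_right (by norm_num) (Nat.mul_le_mul_right _ hc)).trans b1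
      exact_mod_cast this
    have h12 : ((2 : ℝ) * 4 ^ n) * (2 * 4 ^ n) * (2 * 4 ^ n) ≤ (1 / 2) ^ n * 2 ^ (7 * (n + 1)) := by
      have e1 : ((2 : ℝ) * 4 ^ n) * (2 * 4 ^ n) * (2 * 4 ^ n) = 8 * 64 ^ n := by
        have : (64 : ℝ) ^ n = 4 ^ n * 4 ^ n * 4 ^ n := by
          rw [← mul_pow, ← mul_pow]; norm_num
        rw [this]; ring
      have e2 : (1 / 2 : ℝ) ^ n * 2 ^ (7 * (n + 1)) = 128 * 64 ^ n := by
        rw [mul_add, pow_add, pow_mul]
        have : (64 : ℝ) ^ n = (1 / 2) ^ n * (2 ^ 7) ^ n := by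
          rw [← mul_pow]; norm_num
        rw [this]; ring
      rw [e1, e2]
      have : (0 : ℝ) < 64 ^ n := by positivity
      linarith
    exact h12.trans (mul_le_mul_of_nonneg_left h11 (by positivity))
  have h9 : (1 / 2 : ℝ) ^ n ≤ 1 := pow_le_one₀ (by norm_num) (by norm_num)
  have key := fun (W : List Bool) (hW : W.length = 2 ^ n) => block_est (q := pr (4 ^ n)) hm
    (X := 2 ^ (c * (n + 1))) (B := BL c n) hW (length_tab L n) h4 h8 h9
  rw [b2] at key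
  unfold c1 c2
  refine ⟨?_, ?_, ?_⟩
  · have := (key (tab L n) (length_tab L n)).1
    convert this
  · have := (key (tab L n) (length_tab L n)).2.1
    convert this
  · intro W hW hne
    have := (key W hW).2.2 hne
    convert this

theorem core {A : Oracle} {L S : Set (List Bool)} {c m : ℕ} (hc : 7 ≤ c) (hm : 2 ≤ m)
    {a b : ℝ} (hb0 : 0 ≤ b) (hab : 1 / (m : ℝ) ^ 2 + b < 1 / m - a) (hS : IsNP A S)
    (h : ∀ᶠ n : ℕ in atTop, (cn (TT c m L \ S) (2 ^ (c * (n + 2))) : ℝ) ≤ a * BL c n ∧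
      (cn (S \ TT c m L) (2 ^ (c * (n + 2))) : ℝ) ≤ b * BL c n) : InNTime Lin A L := by
  obtain ⟨ρ, hρ1, hρ2⟩ := exists_rat_btwn hab
  have hlim : Tendsto (fun n : ℕ => (1 / 2 : ℝ) ^ n) atTop (nhds 0) :=
    tendsto_pow_atTop_nhds_zero_of_lt_one (by norm_num) (by norm_num)
  have e1 : ∀ᶠ n : ℕ in atTop, (1 / 2 : ℝ) ^ n < ((ρ : ℝ) - (1 / (m : ℝ) ^ 2 + b)) / 5 :=
    hlim.eventually (gt_mem_nhds (by linarith))
  have e2 : ∀ᶠ n : ℕ in atTop, (1 / 2 : ℝ) ^ n < (1 / (m : ℝ) - a) - (ρ : ℝ) :=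
    hlim.eventually (gt_mem_nhds (by linarith))
  obtain ⟨n₀, hn₀⟩ := eventually_atTop.1 (h.and (e1.and e2))
  have hρ0 : 0 < (ρ : ℝ) := lt_of_le_of_lt (by positivity) hρ1
  have hρ0' : 0 < ρ := by exact_mod_cast hρ0
  have hnum : 0 < ρ.num := Rat.num_pos.2 hρ0'
  have hden : (0 : ℝ) < ρ.den := by exact_mod_cast ρ.den_pos
  have hρe : (ρ : ℝ) * ρ.den = ρ.num.toNat := by
    have h1 : ((ρ.num.toNat : ℤ)) = ρ.num := Int.toNat_of_nonneg hnum.le
    have h2 : ((ρ.num.toNat : ℕ) : ℝ) = (ρ.num : ℝ) := by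
      rw [← Int.cast_natCast, h1]
    rw [h2]
    have h3 : (ρ : ℝ) = (ρ.num : ℝ) / ρ.den := Rat.cast_def ρ
    rw [h3]
    field_simp
  have hc0 : 0 < c := by omega
  have hBL : ∀ n, (0 : ℝ) < BL c n := by
    intro n
    have := (block_len (by omega : 1 ≤ c) n).1
    have h2 : 0 < 2 ^ (c * (n + 1)) := by positivity
    have h3 : 0 < BL c n := by omega
    exact_mod_cast h3
  refine decode (P := ρ.num.toNat) (R := ρ.den) (n₀ := n₀) hS (m := m) (c := c) (by omega)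
    ρ.den_pos ?_ ?_
  · intro n hn
    obtain ⟨⟨h1, h2⟩, h3, h4⟩ := hn₀ n hn
    have h5 := (est hc hm L n).1
    have h6 : (c1 c m L n : ℝ) ≤ cnt c m S n (tab L n) +
        cn (TT c m L \ S) (2 ^ (c * (n + 2))) := by exact_mod_cast c1_le_cnt hc0 L S n
    have h7 : (ρ : ℝ) * BL c n < cnt c m S n (tab L n) := by
      have h8 : (ρ : ℝ) * BL c n < (1 / (m : ℝ) - a - (1 / 2) ^ n) * BL c n :=
        mul_lt_mul_of_pos_right (by linarith) (hBL n)
      linarith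
    have h8 : (ρ.num.toNat : ℝ) * BL c n < ρ.den * cnt c m S n (tab L n) := by
      rw [← hρe]
      have := mul_lt_mul_of_pos_left h7 hden
      linarith
    show ρ.num.toNat * BL c n < _
    exact_mod_cast h8
  · intro n hn W hW hne
    obtain ⟨⟨h1, h2⟩, h3, h4⟩ := hn₀ n hn
    have h5 := (est hc hm L n).2.2 W hW hne
    have h6 : (cnt c m S n W : ℝ) ≤ c2 c m L n W + cn (S \ TT c m L) (2 ^ (c * (n + 2))) := by
      exact_mod_cast cnt_le_c2 hc0 L S n W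
    have h7 : (cnt c m S n W : ℝ) ≤ (ρ : ℝ) * BL c n := by
      have h8 : (1 / (m : ℝ) ^ 2 + 5 * (1 / 2) ^ n + b) * BL c n ≤ (ρ : ℝ) * BL c n :=
        mul_le_mul_of_nonneg_right (by linarith) (hBL n).le
      linarith
    have h8 : ρ.den * (cnt c m S n W : ℝ) ≤ (ρ.num.toNat : ℝ) * BL c n := by
      rw [← hρe]
      have := mul_le_mul_of_nonneg_left h7 hden.le
      linarith
    show _ ≤ ρ.num.toNat * BL c n
    exact_mod_cast h8

theorem tally_TT (c m : ℕ) (L : Set (List Bool)) : Tally (TT c m L) := by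
  rintro z ⟨n, N, _, _, hz, _⟩
  exact ⟨N, hz⟩

theorem tendsto_end {c : ℕ} (hc : 1 ≤ c) : Tendsto (fun n : ℕ => 2 ^ (c * (n + 2))) atTop atTop := by
  apply tendsto_atTop_mono (f := fun n : ℕ => n)
  · intro n
    calc n ≤ 2 ^ n := Nat.lt_two_pow_self.le
      _ ≤ 2 ^ (c * (n + 2)) := Nat.pow_le_pow_right (by norm_num) (by nlinarith)
  · exact tendsto_id

theorem exists_c (c₀ : ℕ) {τ : ℝ} (hτ : 0 < τ) : ∃ c : ℕ, c₀ ≤ c ∧ 7 ≤ c ∧ 1 ≤ τ * (2 ^ c - 1) := by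
  obtain ⟨k, hk⟩ := exists_nat_gt (1 / τ)
  refine ⟨c₀ + 7 + k, by omega, by omega, ?_⟩
  have h1 : (k : ℝ) ≤ 2 ^ (c₀ + 7 + k) - 1 := by
    have h2 : k + 1 ≤ 2 ^ (c₀ + 7 + k) := by
      calc k + 1 ≤ 2 ^ k := Nat.lt_two_pow_self
        _ ≤ 2 ^ (c₀ + 7 + k) := Nat.pow_le_pow_right (by norm_num) (by omega)
    have h3 : ((k + 1 : ℕ) : ℝ) ≤ 2 ^ (c₀ + 7 + k) := by exact_mod_cast h2
    push_cast at h3
    linarith
  rw [div_lt_iff₀ hτ] at hk
  nlinarith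

theorem BL_real {c : ℕ} (hc : 1 ≤ c) (n : ℕ) :
    (2 ^ (c * (n + 1)) : ℝ) + BL c n = 2 ^ (c * (n + 2)) ∧
    ((2 : ℝ) ^ c - 1) * 2 ^ (c * (n + 1)) = BL c n := by
  obtain ⟨_, b2, b3⟩ := block_len hc n
  constructor
  · exact_mod_cast b2
  · have h : (((2 ^ c - 1 : ℕ) : ℝ)) * 2 ^ (c * (n + 1)) = BL c n := by exact_mod_cast b3
    rw [Nat.cast_sub Nat.one_le_two_pow] at h
    push_cast at h
    exact h

/-- the absolute form -/
theorem of_abs {A : Oracle} {δ : ℝ} (hδ : δ < 1 / 8)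
    (h : ∀ T : Set (List Bool), Tally T → IsPSPACE A T → ∃ S, IsNP A S ∧
      ∀ᶠ N : ℕ in atTop, (cn (T \ S) N + cn (S \ T) N : ℝ) ≤ δ * N) (L : Set (List Bool))
    (hL : InSpace Lin A L) : InNTime Lin A L := by
  obtain ⟨q, ⟨c₀, rfl⟩, hP⟩ := toPad hL
  simp only [Polynomial.eval_mul, Polynomial.eval_C, Polynomial.eval_add, Polynomial.eval_X,
    Polynomial.eval_one] at hP
  -- `δ'`
  have hδ' : max δ 0 < 1 / 8 := max_lt hδ (by norm_num)
  have hδ0 : 0 ≤ max δ 0 := le_max_right _ _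
  obtain ⟨c, hc1, hc2, hc3⟩ := exists_c c₀ (show 0 < 1 / 8 - max δ 0 by linarith)
  obtain ⟨S, hS, hev⟩ := h _ (tally_TT c 2 L) (isPSPACE_TT hP hc1 (by omega) 2)
  have hab : 1 / ((2 : ℕ) : ℝ) ^ 2 + (1 / 8 - (1 / 8 - max δ 0) ^ 2) <
      1 / ((2 : ℕ) : ℝ) - (1 / 8 - (1 / 8 - max δ 0) ^ 2) := by
    have : 0 < (1 / 8 - max δ 0) ^ 2 := by
      apply pow_pos; linarith
    push_cast
    linarith
  have hb0 : 0 ≤ 1 / 8 - (1 / 8 - max δ 0) ^ 2 := by nlinarith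
  refine core hc2 le_rfl hb0 hab hS ?_
  have hev' := (tendsto_end (by omega : 1 ≤ c)).eventually hev
  filter_upwards [hev'] with n hn
  obtain ⟨b2, b3⟩ := BL_real (by omega : 1 ≤ c) n
  have hX : (0 : ℝ) < 2 ^ (c * (n + 1)) := by positivity
  have hY : δ * ((2 ^ (c * (n + 2)) : ℕ) : ℝ) ≤ (1 / 8 - (1 / 8 - max δ 0) ^ 2) * BL c n := by
    push_cast
    rw [← b2]
    have h1 : δ * ((2 : ℝ) ^ (c * (n + 1)) + BL c n) ≤
        max δ 0 * ((2 : ℝ) ^ (c * (n + 1)) + BL c n) := by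
      apply mul_le_mul_of_nonneg_right (le_max_left _ _)
      positivity
    refine h1.trans ?_
    -- `X ≤ η B` with `η = 1/8 - δ'`
    have h2 : (2 : ℝ) ^ (c * (n + 1)) ≤ (1 / 8 - max δ 0) * BL c n := by
      rw [← b3]
      have := mul_le_mul_of_nonneg_right hc3 hX.le
      linarith
    have h3 := mul_le_mul_of_nonneg_left h2 hδ0
    have hB : (0 : ℝ) ≤ BL c n := Nat.cast_nonneg _
    have h4 : max δ 0 * ((1 / 8 - max δ 0) * BL c n) + max δ 0 * BL c n ≤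
        (1 / 8 - (1 / 8 - max δ 0) ^ 2) * BL c n := by
      have h5 : max δ 0 * (1 / 8 - max δ 0) + max δ 0 ≤ 1 / 8 - (1 / 8 - max δ 0) ^ 2 := by
        nlinarith
      have := mul_le_mul_of_nonneg_right h5 hB
      linarith
    linarith
  have h1 : (0 : ℝ) ≤ cn (TT c 2 L \ S) (2 ^ (c * (n + 2))) := Nat.cast_nonneg _
  have h2 : (0 : ℝ) ≤ cn (S \ TT c 2 L) (2 ^ (c * (n + 2))) := Nat.cast_nonneg _
  constructor <;> linarith

/-- the relative form -/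
theorem of_rel {A : Oracle} {α β : ℝ} (hα : 0 ≤ α) (hβ : 0 ≤ β) (hαβ : α + β < 1)
    (h : ∀ T : Set (List Bool), Tally T → IsPSPACE A T → ∃ S, IsNP A S ∧
      ∀ᶠ N : ℕ in atTop, (cn (T \ S) N : ℝ) ≤ α * cn T N ∧ (cn (S \ T) N : ℝ) ≤ β * cn T N)
    (L : Set (List Bool)) (hL : InSpace Lin A L) : InNTime Lin A L := by
  obtain ⟨q, ⟨c₀, rfl⟩, hP⟩ := toPad hL
  simp only [Polynomial.eval_mul, Polynomial.eval_C, Polynomial.eval_add, Polynomial.eval_X,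
    Polynomial.eval_one] at hP
  set σ := α + β with hσ
  obtain ⟨m, hm⟩ := exists_nat_gt (2 / (1 - σ))
  have hσ1 : 0 < 1 - σ := by linarith
  have hσ0 : 0 ≤ σ := by linarith
  have hm2 : 2 < (m : ℝ) := by
    refine lt_of_le_of_lt ?_ hm
    rw [le_div_iff₀ hσ1]
    linarith
  have hm2' : 2 ≤ m := by
    have : 2 < m := by exact_mod_cast hm2
    omega
  have hm0 : (0 : ℝ) < m := by linarith
  have hm3 : 2 < m * (1 - σ) := by
    rw [div_lt_iff₀ hσ1] at hm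
    exact hm
  set τ := (1 - σ) / (4 * m) with hτ
  have hτ0 : 0 < τ := by positivity
  obtain ⟨c, hc1, hc2, hc3⟩ := exists_c c₀ hτ0
  obtain ⟨S, hS, hev⟩ := h _ (tally_TT c m L) (isPSPACE_TT hP hc1 (by omega) m)
  have hab : 1 / (m : ℝ) ^ 2 + β * (1 / m + 2 * τ) < 1 / m - α * (1 / m + 2 * τ) := by
    have h1 : 1 / (m : ℝ) ^ 2 + σ * (1 / m + 2 * τ) < 1 / m := by
      have e : 1 / (m : ℝ) ^ 2 + σ * (1 / m + 2 * τ) =
          (1 / m) * (1 / m + σ + σ * (1 - σ) / 2) := by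
        rw [hτ]
        field_simp
        ring
      rw [e]
      have h2 : 1 / (m : ℝ) < (1 - σ) / 2 := by
        rw [div_lt_div_iff₀ hm0 (by norm_num)]
        linarith
      have h3 : 1 / (m : ℝ) + σ + σ * (1 - σ) / 2 < 1 := by nlinarith
      have h4 : (0 : ℝ) < 1 / m := by positivity
      nlinarith
    rw [hσ] at h1
    linarith
  refine core hc2 hm2' (by positivity) hab hS ?_
  have hev' := (tendsto_end (by omega : 1 ≤ c)).eventually hev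
  have hlim : Tendsto (fun n : ℕ => (1 / 2 : ℝ) ^ n) atTop (nhds 0) :=
    tendsto_pow_atTop_nhds_zero_of_lt_one (by norm_num) (by norm_num)
  have e1 : ∀ᶠ n : ℕ in atTop, (1 / 2 : ℝ) ^ n < τ / 2 :=
    hlim.eventually (gt_mem_nhds (by linarith))
  filter_upwards [hev', e1] with n hn hn2
  obtain ⟨b2, b3⟩ := BL_real (by omega : 1 ≤ c) n
  have hX : (0 : ℝ) < 2 ^ (c * (n + 1)) := by positivity
  have h2 : (2 : ℝ) ^ (c * (n + 1)) ≤ τ * BL c n := by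
    rw [← b3]
    have := mul_le_mul_of_nonneg_right hc3 hX.le
    linarith
  have hB : (0 : ℝ) ≤ BL c n := Nat.cast_nonneg _
  have h3 : (cn (TT c m L) (2 ^ (c * (n + 2))) : ℝ) ≤ 2 ^ (c * (n + 1)) + c1 c m L n := by
    exact_mod_cast cn_TT_le (by omega : 0 < c) L n
  have h4 := (est hc2 hm2' L n).2.1
  have h5 : (cn (TT c m L) (2 ^ (c * (n + 2))) : ℝ) ≤ (1 / m + 2 * τ) * BL c n := by
    have h6 : (1 / (m : ℝ) + 2 * (1 / 2) ^ n) * BL c n ≤ (1 / m + τ) * BL c n :=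
      mul_le_mul_of_nonneg_right (by linarith) hB
    linarith
  constructor
  · have := mul_le_mul_of_nonneg_left h5 hα
    linarith [hn.1]
  · have := mul_le_mul_of_nonneg_left h5 hβ
    linarith [hn.2]

/-- exact decision -/
theorem exact_of {A : Oracle} (h : ∀ L, InSpace Lin A L → InNTime Lin A L)
    {T : Set (List Bool)} (hT : Tally T) (hP : IsPSPACE A T) : IsNP A T := by
  have h1 : Poly (fun z : List Bool => (unpair z).1) := Poly.fst poly_unpair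
  have h2 : Poly (fun z : List Bool => (unpair z).2) := Poly.snd poly_unpair
  have hg : Poly (fun y : List Bool =>
      List.replicate (min (valB (unpair y).1) (unpair y).2.length) true) :=
    poly_replicate (UPoly.of_le (Poly.min (Poly.valBits h1) (Poly.length h2)) (UPoly.length h2)
      (fun a => min_le_right _ _)) true
  have hq : (Polynomial.C 1 * (Polynomial.X + 1) : Polynomial ℕ) ∈ Lin := ⟨1, rfl⟩
  have h3 := h _ (Pool.Agent.H622R2.Exp.IsPSPACE.pad good_Lin (hP.precomp hg) hq)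
  have h4 := unary h3
  convert h4 using 1
  ext z
  simp only [Set.mem_ofPred_eq]
  have hpad : ∀ x : List Bool, padq (Polynomial.C 1 * (Polynomial.X + 1)) x =
      pairBits x (List.replicate (2 ^ (x.length + 1)) true) := by
    intro x
    unfold padq
    simp
  have key : ∀ N : ℕ, List.replicate (min (valB (unpair (padq (Polynomial.C 1 * (Polynomial.X + 1))
      (Nat.bits N))).1) (unpair (padq (Polynomial.C 1 * (Polynomial.X + 1))
      (Nat.bits N))).2.length) true = List.replicate N true := by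
    intro N
    rw [hpad, unpair_pairBits]
    simp only [List.length_replicate]
    rw [valB_bits, min_eq_left]
    have h5 := valB_lt (Nat.bits N)
    rw [valB_bits] at h5
    refine h5.le.trans (Nat.pow_le_pow_right (by norm_num) (Nat.le_succ _))
  rw [key]
  constructor
  · intro hz
    obtain ⟨N, rfl⟩ := hT z hz
    rw [List.length_replicate]
    exact ⟨rfl, hz⟩
  · rintro ⟨h5, h6⟩
    rw [h5]
    exact h6

end Pool.Agent.J4H65.WA
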