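import Pool.Agent.J4H65.WA.Gen
import Pool.Agent.J4H65.WA.Main

/-!
# Average case, with polynomial gaps
-/

namespace Pool.Agent.J4H65.WA

open Pool.Agent.NPC Pool.Agent.H622R2 Pool.Agent.H620R2.Gauge Pool.Agent.H622R2.Exp Filter

/-- the balanced code -/
def G1 (c : ℕ) (hc : 2 ≤ c) : Dig where
  ka N := nn c N
  D W N := bt (pr (4 ^ nn c N)) 2 W N
  Dz T W N := bt (max (prz (2 ^ (2 * nn c N)) T) 1) 2 W N
  mn := 2 ^ c
  upoly := by
    intro α _ N hN
    have e1 : UPoly (fun a => (Nat.bits (N a)).length) := UPoly.length (NPC.Poly.natBits hN)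
    refine UPoly.of_le ?_ e1 (fun z => ?_)
    · unfold nn
      exact Poly.sub (Poly.div (Poly.sub e1.toPoly (NPC.Poly.const 1)) (NPC.Poly.const c))
        (NPC.Poly.const 1)
    · unfold nn
      exact (Nat.sub_le _ _).trans ((Nat.div_le_self _ _).trans (Nat.sub_le _ _))
  eq := by
    intro T W N h1 h2
    have hd : 1 ≤ ((Nat.bits N).length - 1) / c := by
      rw [bits_len, Nat.le_div_iff_mul_le (by omega), one_mul]
      have := Nat.lt_size.2 h1
      omega
    have h3 := (block_of_div (by omega : 0 < c) hd).1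
    have e4 : 2 ^ (2 * nn c N) = 4 ^ nn c N := by rw [pow_mul]; norm_num
    rw [e4, prz_eq ((pr_le_block hc h3).trans h2), max_eq_left (pr_prime _).one_lt.le]
  poly := by
    intro α _ T N W hT hN hW
    have e1 : UPoly (fun a => (Nat.bits (N a)).length) := UPoly.length (NPC.Poly.natBits hN)
    have hnn : UPoly (fun a => nn c (N a)) := by
      refine UPoly.of_le ?_ e1 (fun z => ?_)
      · unfold nn
        exact Poly.sub (Poly.div (Poly.sub e1.toPoly (NPC.Poly.const 1)) (NPC.Poly.const c))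
          (NPC.Poly.const 1)
      · unfold nn
        exact (Nat.sub_le _ _).trans ((Nat.div_le_self _ _).trans (Nat.sub_le _ _))
    exact poly_bt 2 (poly_prz (A4.poly_two_pow (UPoly.mul (UPoly.const 2) hnn)) hT) hN hW

theorem div_ge_one {c N : ℕ} (hc : 0 < c) (h1 : 2 ^ c ≤ N) :
    1 ≤ ((Nat.bits N).length - 1) / c := by
  rw [bits_len, Nat.le_div_iff_mul_le hc, one_mul]
  have := Nat.lt_size.2 h1
  omega

section Real

variable {q m : ℕ} [Fact q.Prime]

/-- the estimates for an interval of length `B` -/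
theorem block_add (hm : 2 ≤ m) [NeZero q] {X B n : ℕ} {W W' : List Bool}
    (hW : W.length = 2 ^ n) (hW' : W'.length = 2 ^ n) {ε : ℝ}
    (h2 : (2 ^ n : ℝ) ≤ ε * q) (hε1 : ε ≤ 1) :
    ((1 / m) * B - q * q * q ≤
      (((Finset.Ico X (X + B)).filter fun N => bt q m W' N = true).card : ℝ)) ∧
    (W ≠ W' → (((Finset.Ico X (X + B)).filter fun N => bt q m W N = true ∧
      bt q m W' N = true).card : ℝ) ≤ (1 / (m : ℝ) ^ 2 + 3 * ε) * B + 2 * (q * q * q)) := by
  have hq0 : 0 < q := (Fact.out : q.Prime).pos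
  have hq : (0 : ℝ) < q := by exact_mod_cast hq0
  have hm0 : 0 < m := by omega
  have hm' : (2 : ℝ) ≤ m := by exact_mod_cast hm
  have hmpos : (0 : ℝ) < m := by linarith
  have hL : 0 < q * q * q := by positivity
  have hΛ : (0 : ℝ) < q * q * q := by positivity
  have hB0 : (0 : ℝ) ≤ B := Nat.cast_nonneg B
  have ht1 := tt_ge (q := q) hm0
  have ht2 := tt_le (q := q) hm0
  have ht3 : (tt q m : ℝ) ≤ q := by exact_mod_cast tt_le_q (q := q) (m := m)
  have ht0 : (0 : ℝ) ≤ tt q m := Nat.cast_nonneg _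
  have hone : (1 : ℝ) ≤ ε * q := le_trans (by exact_mod_cast Nat.one_le_two_pow) h2
  have hε0 : 0 ≤ ε := by
    by_contra hcon
    push Not at hcon
    have := mul_neg_of_neg_of_pos hcon hq
    linarith
  have hper := fun N => bt_periodic (q := q) m W' N
  have hfl : ((B / (q * q * q) : ℕ) : ℝ) ≤ B / (q * q * q) := by
    have := Nat.cast_div_le (α := ℝ) (m := B) (n := q * q * q)
    push_cast at this
    exact this
  have hfl2 : (B : ℝ) / (q * q * q) - 1 ≤ ((B / (q * q * q) : ℕ) : ℝ) := by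
    have h := Nat.lt_div_mul_add (a := B) hL
    rw [sub_le_iff_le_add, div_le_iff₀ hΛ]
    have h' : B ≤ (B / (q * q * q) + 1) * (q * q * q) := by
      have e : (B / (q * q * q) + 1) * (q * q * q) = B / (q * q * q) * (q * q * q) + q * q * q := by
        ring
      omega
    have h'' : (B : ℝ) ≤ ((B / (q * q * q) : ℕ) + 1) * (q * q * q) := by exact_mod_cast h'
    exact h''
  have e40 : (q : ℝ) * q * tt q m ≤ q * q * q := mul_le_mul_of_nonneg_left ht3 (by positivity)
  refine ⟨?_, ?_⟩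
  · have h := card_Ico_ge (fun N => bt q m W' N = true) hper X B
    rw [card_bt1] at h
    have h' : (((B / (q * q * q) : ℕ) : ℝ) * (q * q * tt q m)) ≤
        (((Finset.Ico X (X + B)).filter fun N => bt q m W' N = true).card : ℝ) := by
      exact_mod_cast h
    refine le_trans ?_ h'
    have e1 : ((B : ℝ) / (q * q * q) - 1) * (q * q * tt q m) ≤
        ((B / (q * q * q) : ℕ) : ℝ) * (q * q * tt q m) :=
      mul_le_mul_of_nonneg_right hfl2 (by positivity)
    refine le_trans ?_ e1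
    have e2 : ((B : ℝ) / (q * q * q) - 1) * (q * q * tt q m) =
        B * (tt q m / q) - q * q * tt q m := by
      field_simp
    rw [e2]
    have e3 : (1 : ℝ) / m ≤ tt q m / q := by
      rw [div_le_div_iff₀ hmpos hq, one_mul]
      rw [div_le_iff₀ hmpos] at ht1
      linarith
    have e5 := mul_le_mul_of_nonneg_left e3 hB0
    linarith
  · intro hne
    have hper2 : ∀ N, (bt q m W (N + q * q * q) = true ∧ bt q m W' (N + q * q * q) = true) ↔
        (bt q m W N = true ∧ bt q m W' N = true) := fun N => by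
      rw [bt_periodic, bt_periodic]
    have h := card_Ico_le (fun N => bt q m W N = true ∧ bt q m W' N = true) hL hper2 X B
    have h3 := card_bt2 (q := q) m (hW.trans hW'.symm) hne
    rw [hW] at h3
    have h' : (((Finset.Ico X (X + B)).filter fun N => bt q m W N = true ∧
        bt q m W' N = true).card : ℝ) ≤
        (((B / (q * q * q) : ℕ) : ℝ) + 1) * (2 ^ n * (q * tt q m) + q * (tt q m * tt q m)) := by
      exact_mod_cast h.trans (Nat.mul_le_mul_left _ h3)
    refine h'.trans ?_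
    have e1 : (((B / (q * q * q) : ℕ) : ℝ) + 1) * (2 ^ n * (q * tt q m) + q * (tt q m * tt q m)) ≤
        ((B : ℝ) / (q * q * q) + 1) * (ε * q * (q * tt q m) + q * (tt q m * tt q m)) := by
      apply mul_le_mul
      · linarith
      · have := mul_le_mul_of_nonneg_right h2 (show (0 : ℝ) ≤ q * tt q m by positivity)
        linarith
      · positivity
      · positivity
    refine e1.trans ?_
    have e2 : ((B : ℝ) / (q * q * q) + 1) * (ε * q * (q * tt q m) + q * (tt q m * tt q m)) =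
        B * (ε * (tt q m / q) + (tt q m / q) ^ 2) +
          (ε * q * (q * tt q m) + q * (tt q m * tt q m)) := by
      field_simp
    rw [e2]
    have e3 : (tt q m : ℝ) / q ≤ 1 / m + ε := by
      rw [div_le_iff₀ hq, add_mul, one_div_mul_eq_div]
      linarith
    have e3' : (tt q m : ℝ) / q ≤ 1 := by
      rw [div_le_one hq]; exact ht3
    have e30 : 0 ≤ (tt q m : ℝ) / q := by positivity
    have hm2 : (1 : ℝ) / m ≤ 1 / 2 := one_div_le_one_div_of_le (by norm_num) hm'
    have e4 : ((tt q m : ℝ) / q) ^ 2 ≤ 1 / (m : ℝ) ^ 2 + 2 * ε := by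
      have e5 : ((tt q m : ℝ) / q) ^ 2 ≤ (1 / m + ε) ^ 2 := pow_le_pow_left₀ e30 e3 2
      have e6 : (1 / (m : ℝ) + ε) ^ 2 = 1 / (m : ℝ) ^ 2 + ε * (2 * (1 / m) + ε) := by
        field_simp
        ring
      rw [e6] at e5
      have e7 : ε * (2 * (1 / m) + ε) ≤ ε * 2 := mul_le_mul_of_nonneg_left (by linarith) hε0
      linarith
    have e5 : ε * ((tt q m : ℝ) / q) ≤ ε := by
      have := mul_le_mul_of_nonneg_left e3' hε0
      linarith
    have e6 : ε * q * (q * tt q m) ≤ q * q * q := by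
      have e7 : (q : ℝ) * (q * tt q m) ≤ q * q * q := by linarith
      have e8 : ε * (q * (q * tt q m)) ≤ 1 * (q * q * q) :=
        mul_le_mul hε1 e7 (by positivity) (by norm_num)
      linarith
    have e9 : (q : ℝ) * (tt q m * tt q m) ≤ q * q * q := by
      have e10 : (tt q m : ℝ) * tt q m ≤ q * q := mul_le_mul ht3 ht3 ht0 hq.le
      have := mul_le_mul_of_nonneg_left e10 hq.le
      linarith
    have e10 : (B : ℝ) * (ε * (tt q m / q) + (tt q m / q) ^ 2) ≤
        B * (ε + (1 / (m : ℝ) ^ 2 + 2 * ε)) :=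
      mul_le_mul_of_nonneg_left (by linarith) hB0
    linarith

end Real

open Classical in
/-- the places in `[lo, hi)` which are in the tally language -/
noncomputable def t1 (G : Dig) (L : Set (List Bool)) (lo hi : ℕ) : ℕ :=
  ((Finset.Ico lo hi).filter (fun N => G.mn ≤ N ∧ G.D (tb L (G.ka N)) N = true)).card

open Classical in
/-- the places in `[lo, hi)` which are in the tally language and where the digit for `W` is one -/
noncomputable def t2 (G : Dig) (L : Set (List Bool)) (W : List Bool) (lo hi : ℕ) : ℕ :=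
  ((Finset.Ico lo hi).filter (fun N => G.mn ≤ N ∧ G.D (W.take (2 ^ G.ka N)) N = true ∧
    G.D (tb L (G.ka N)) N = true)).card

theorem card_filter_split (p : ℕ → Prop) [DecidablePred p] {a b c : ℕ} (h1 : a ≤ b) (h2 : b ≤ c) :
    ((Finset.Ico a c).filter p).card =
      ((Finset.Ico a b).filter p).card + ((Finset.Ico b c).filter p).card := by
  rw [← Finset.Ico_union_Ico_eq_Ico h1 h2, Finset.filter_union, Finset.card_union_of_disjoint]
  exact Finset.disjoint_filter_filter (Finset.Ico_disjoint_Ico_consecutive _ _ _)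

/-- the interval inside one block -/
theorem one_block {c : ℕ} (hc : 7 ≤ c) (L : Set (List Bool)) (n : ℕ) {M : ℕ}
    (h1 : 2 ^ (c * (n + 1)) ≤ M) (h2 : M ≤ 2 ^ (c * (n + 2))) :
    ((1 / 2) * ((M : ℝ) - 2 ^ (c * (n + 1))) - 8 * 64 ^ n ≤
      t1 (G1 c (by omega)) L (2 ^ (c * (n + 1))) M) ∧
    (∀ W : List Bool, (W.take (2 ^ n)).length = 2 ^ n → W.take (2 ^ n) ≠ tb L n →
      (t2 (G1 c (by omega)) L W (2 ^ (c * (n + 1))) M : ℝ) ≤
        (1 / 4 + 3 * (1 / 2) ^ n) * ((M : ℝ) - 2 ^ (c * (n + 1))) + 16 * 64 ^ n) := by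
  classical
  have hp : (pr (4 ^ n)).Prime := pr_prime _
  have : Fact (pr (4 ^ n)).Prime := ⟨hp⟩
  have : NeZero (pr (4 ^ n)) := ⟨hp.ne_zero⟩
  have h4 : (2 ^ n : ℝ) ≤ (1 / 2) ^ n * (pr (4 ^ n) : ℕ) := by
    have h5 : (4 : ℝ) ^ n ≤ (pr (4 ^ n) : ℕ) := by exact_mod_cast le_pr (4 ^ n)
    have h6 : (2 : ℝ) ^ n = (1 / 2) ^ n * 4 ^ n := by
      rw [← mul_pow]; norm_num
    rw [h6]
    exact mul_le_mul_of_nonneg_left h5 (by positivity)
  have h7 : ((pr (4 ^ n) : ℕ) : ℝ) ≤ 2 * 4 ^ n := by exact_mod_cast pr_le (a := 4 ^ n) (by positivity)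
  have h8 : ((pr (4 ^ n) : ℕ) * (pr (4 ^ n) : ℕ) * (pr (4 ^ n) : ℕ) : ℝ) ≤ 8 * 64 ^ n := by
    have h9 : (0 : ℝ) ≤ (pr (4 ^ n) : ℕ) := Nat.cast_nonneg _
    have h10 : ((pr (4 ^ n) : ℕ) * (pr (4 ^ n) : ℕ) * (pr (4 ^ n) : ℕ) : ℝ) ≤
        (2 * 4 ^ n) * (2 * 4 ^ n) * (2 * 4 ^ n) := by
      apply mul_le_mul (mul_le_mul h7 h7 h9 (by positivity)) h7 h9 (by positivity)
    refine h10.trans (le_of_eq ?_)
    have : (64 : ℝ) ^ n = 4 ^ n * 4 ^ n * 4 ^ n := by
      rw [← mul_pow, ← mul_pow]; norm_num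
    rw [this]; ring
  have h9 : (1 / 2 : ℝ) ^ n ≤ 1 := pow_le_one₀ (by norm_num) (by norm_num)
  have hB : 2 ^ (c * (n + 1)) + (M - 2 ^ (c * (n + 1))) = M := by omega
  have hBr : ((M - 2 ^ (c * (n + 1)) : ℕ) : ℝ) = (M : ℝ) - 2 ^ (c * (n + 1)) := by
    rw [Nat.cast_sub h1]; push_cast; rfl
  have key := fun (W : List Bool) (hW : W.length = 2 ^ n) => block_add (q := pr (4 ^ n))
    (m := 2) le_rfl (X := 2 ^ (c * (n + 1))) (B := M - 2 ^ (c * (n + 1))) hW (length_tb L n) h4 h9
  rw [hB, hBr] at key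
  -- inside the block
  have hin : ∀ N ∈ Finset.Ico (2 ^ (c * (n + 1))) M, nn c N = n ∧ 2 ^ c ≤ N := by
    intro N hN
    rw [Finset.mem_Ico] at hN
    have hd := div_of_block (by omega : 0 < c) hN.1 (lt_of_lt_of_le hN.2 h2)
    refine ⟨by unfold nn; rw [hd]; rfl, le_trans ?_ hN.1⟩
    exact Nat.pow_le_pow_right (by norm_num) (by nlinarith)
  refine ⟨?_, ?_⟩
  · have h10 := (key (tb L n) (length_tb L n)).1
    have e : t1 (G1 c (by omega)) L (2 ^ (c * (n + 1))) M =
        ((Finset.Ico (2 ^ (c * (n + 1))) M).filter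
          fun N => bt (pr (4 ^ n)) 2 (tb L n) N = true).card := by
      unfold t1
      congr 1
      apply Finset.filter_congr
      intro N hN
      obtain ⟨e1, e2⟩ := hin N hN
      show (2 ^ c ≤ N ∧ bt (pr (4 ^ nn c N)) 2 (tb L (nn c N)) N = true) ↔ _
      rw [e1]
      exact ⟨fun h => h.2, fun h => ⟨e2, h⟩⟩
    rw [e]
    push_cast at h10
    linarith
  · intro W hW hne
    have h10 := (key _ hW).2 hne
    have e : t2 (G1 c (by omega)) L W (2 ^ (c * (n + 1))) M =
        ((Finset.Ico (2 ^ (c * (n + 1))) M).filter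
          fun N => bt (pr (4 ^ n)) 2 (W.take (2 ^ n)) N = true ∧
            bt (pr (4 ^ n)) 2 (tb L n) N = true).card := by
      unfold t2
      congr 1
      apply Finset.filter_congr
      intro N hN
      obtain ⟨e1, e2⟩ := hin N hN
      show (2 ^ c ≤ N ∧ bt (pr (4 ^ nn c N)) 2 (W.take (2 ^ nn c N)) N = true ∧
        bt (pr (4 ^ nn c N)) 2 (tb L (nn c N)) N = true) ↔ _
      rw [e1]
      exact ⟨fun h => h.2, fun h => ⟨e2, h⟩⟩
    rw [e]
    push_cast at h10
    have e2 : (1 : ℝ) / 2 ^ 2 = 1 / 4 := by norm_num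
    rw [e2] at h10
    linarith

/-- several blocks -/
theorem many_blocks {c : ℕ} (hc : 7 ≤ c) (L : Set (List Bool)) (n : ℕ) (k : ℕ) (hk : n ≤ k) :
    (∀ M : ℕ, 2 ^ (c * (n + 1)) ≤ M → M ≤ 2 ^ (c * (k + 2)) →
      ((1 / 2) * ((M : ℝ) - 2 ^ (c * (n + 1))) - 16 * 64 ^ k ≤
        t1 (G1 c (by omega)) L (2 ^ (c * (n + 1))) M)) ∧
    (∀ W : List Bool, (∀ j, n ≤ j → j ≤ k → (W.take (2 ^ j)).length = 2 ^ j ∧
      W.take (2 ^ j) ≠ tb L j) → ∀ M : ℕ, 2 ^ (c * (n + 1)) ≤ M → M ≤ 2 ^ (c * (k + 2)) →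
      (t2 (G1 c (by omega)) L W (2 ^ (c * (n + 1))) M : ℝ) ≤
        (1 / 4 + 3 * (1 / 2) ^ n) * ((M : ℝ) - 2 ^ (c * (n + 1))) + 32 * 64 ^ k) := by
  classical
  induction k, hk using Nat.le_induction with
  | base =>
    refine ⟨fun M h1 h2 => ?_, fun W hW M h1 h2 => ?_⟩
    · have h3 := (one_block hc L n h1 h2).1
      have : (0 : ℝ) < 64 ^ n := by positivity
      linarith
    · have h3 := (one_block hc L n h1 h2).2 W (hW n le_rfl le_rfl).1 (hW n le_rfl le_rfl).2
      have : (0 : ℝ) < 64 ^ n := by positivity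
      linarith
  | succ k hk ih =>
    have h64 : (64 : ℝ) ^ (k + 1) = 64 * 64 ^ k := by rw [pow_succ]; ring
    have h640 : (0 : ℝ) < 64 ^ k := by positivity
    have hmono : 2 ^ (c * (n + 1)) ≤ 2 ^ (c * (k + 2)) :=
      Nat.pow_le_pow_right (by norm_num) (Nat.mul_le_mul_left _ (by omega))
    refine ⟨fun M h1 h2 => ?_, fun W hW M h1 h2 => ?_⟩
    · rcases Nat.le_total M (2 ^ (c * (k + 2))) with h | h
      · have := ih.1 M h1 h
        linarith
      · have i1 := ih.1 _ hmono le_rfl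
        have i2 := (one_block hc L (k + 1) (M := M) h h2).1
        have e : t1 (G1 c (by omega)) L (2 ^ (c * (n + 1))) M =
            t1 (G1 c (by omega)) L (2 ^ (c * (n + 1))) (2 ^ (c * (k + 2))) +
            t1 (G1 c (by omega)) L (2 ^ (c * (k + 2))) M := by
          unfold t1
          exact card_filter_split _ hmono h
        rw [e]
        have e2 : k + 1 + 1 = k + 2 := rfl
        rw [e2] at i2
        push_cast at i1 i2 ⊢
        linarith
    · rcases Nat.le_total M (2 ^ (c * (k + 2))) with h | h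
      · have := ih.2 W (fun j h1 h2 => hW j h1 (by omega)) M h1 h
        linarith
      · have i1 := ih.2 W (fun j h1 h2 => hW j h1 (by omega)) _ hmono le_rfl
        have i2 := (one_block hc L (k + 1) (M := M) h h2).2 W (hW _ (by omega) le_rfl).1
          (hW _ (by omega) le_rfl).2
        have e : t2 (G1 c (by omega)) L W (2 ^ (c * (n + 1))) M =
            t2 (G1 c (by omega)) L W (2 ^ (c * (n + 1))) (2 ^ (c * (k + 2))) +
            t2 (G1 c (by omega)) L W (2 ^ (c * (k + 2))) M := by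
          unfold t2
          exact card_filter_split _ hmono h
        rw [e]
        have e2 : k + 1 + 1 = k + 2 := rfl
        rw [e2] at i2
        have e3 : (1 / 2 : ℝ) ^ (k + 1) ≤ (1 / 2) ^ n :=
          pow_le_pow_of_le_one (by norm_num) (by norm_num) (by omega)
        have e4 : (0 : ℝ) ≤ (M : ℝ) - 2 ^ (c * (k + 2)) := by
          have : ((2 ^ (c * (k + 2)) : ℕ) : ℝ) ≤ M := by exact_mod_cast h
          push_cast at this
          linarith
        have e5 : (1 / 4 + 3 * (1 / 2 : ℝ) ^ (k + 1)) * ((M : ℝ) - 2 ^ (c * (k + 2))) ≤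
            (1 / 4 + 3 * (1 / 2) ^ n) * ((M : ℝ) - 2 ^ (c * (k + 2))) :=
          mul_le_mul_of_nonneg_right (by linarith) e4
        push_cast at i1 i2 ⊢
        linarith

end Pool.Agent.J4H65.WA
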