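import Pool.Agent.J4H65.WA.Avg

/-!
# Average case, with polynomial gaps: conclusion
-/

namespace Pool.Agent.J4H65.WA

open Pool.Agent.NPC Pool.Agent.H622R2 Pool.Agent.H620R2.Gauge Pool.Agent.H622R2.Exp Filter

theorem tally_TL (G : Dig) (L : Set (List Bool)) : Tally (TL G L) := by
  rintro z ⟨N, _, hz, _⟩
  exact ⟨N, hz⟩

theorem t1_le_cg {G : Dig} {L S : Set (List Bool)} {K lo hi : ℕ}
    (hK : ∀ N, N < hi → G.ka N ≤ K) :
    t1 G L lo hi ≤ cg G S (tb L K) lo hi + cn (TL G L \ S) hi := by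
  classical
  rw [cn_eq]
  unfold t1 cg
  refine (Finset.card_le_card ?_).trans (Finset.card_union_le _ _)
  intro N hN
  rw [Finset.mem_filter, Finset.mem_Ico] at hN
  rw [Finset.mem_union, Finset.mem_filter, Finset.mem_filter, Finset.mem_Ico, Finset.mem_range]
  by_cases hS : List.replicate N true ∈ S
  · refine Or.inl ⟨hN.1, ⟨hN.2.1, ?_⟩, hS⟩
    rw [tb_take L (hK N hN.1.2)]
    exact hN.2.2
  · exact Or.inr ⟨hN.1.2, (mem_TL G L N).2 hN.2, hS⟩

theorem cg_le_t2 {G : Dig} {L S : Set (List Bool)} (W : List Bool) (lo hi : ℕ) :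
    cg G S W lo hi ≤ t2 G L W lo hi + cn (S \ TL G L) hi := by
  classical
  rw [cn_eq]
  unfold t2 cg
  refine (Finset.card_le_card ?_).trans (Finset.card_union_le _ _)
  intro N hN
  rw [Finset.mem_filter, Finset.mem_Ico] at hN
  rw [Finset.mem_union, Finset.mem_filter, Finset.mem_filter, Finset.mem_Ico, Finset.mem_range]
  by_cases hb : G.D (tb L (G.ka N)) N = true
  · exact Or.inl ⟨hN.1, hN.2.1.1, hN.2.1.2, hb⟩
  · exact Or.inr ⟨hN.1.2, hN.2.2, fun h => hb ((mem_TL G L N).1 h).2⟩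

theorem G1_space {c c₀ : ℕ} (hc : 2 ≤ c) (h0 : c₀ ≤ c) : ∀ N, (G1 c hc).mn ≤ N →
    2 ^ (G1 c hc).ka N ≤ N ∧ 2 ^ (c₀ * ((G1 c hc).ka N + 1)) ≤ N := by
  intro N hN
  have hd := div_ge_one (by omega : 0 < c) (show 2 ^ c ≤ N from hN)
  have h3 := (block_of_div (by omega : 0 < c) hd).1
  constructor
  · refine le_trans (Nat.pow_le_pow_right (by norm_num) ?_) h3
    show nn c N ≤ c * (nn c N + 1)
    nlinarith
  · exact le_trans (Nat.pow_le_pow_right (by norm_num) (Nat.mul_le_mul_right _ h0)) h3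

/-- a single tally language which is hard on the average -/
theorem avg_core {A : Oracle} {L : Set (List Bool)} (hL : InSpace Lin A L) :
    ∃ T : Set (List Bool), Tally T ∧ IsPSPACE A T ∧
      ((∃ S, IsNP A S ∧ ∃ α β : ℝ, α + β < 1 / 4 ∧ ∃ C : ℕ,
        (∀ᶠ N : ℕ in atTop, (cn (S \ T) N : ℝ) ≤ β * N) ∧
        (∀ᶠ N : ℕ in atTop, ∃ M : ℕ, N ≤ M ∧ M ≤ N ^ C ∧ (cn (T \ S) M : ℝ) ≤ α * M)) →
        InNTime Lin A L) := by
  obtain ⟨q, ⟨c₀, rfl⟩, hP⟩ := toPad hL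
  simp only [Polynomial.eval_mul, Polynomial.eval_C, Polynomial.eval_add, Polynomial.eval_X,
    Polynomial.eval_one] at hP
  set c := c₀ + 7 with hcdef
  have hc7 : 7 ≤ c := by omega
  have hc2 : 2 ≤ c := by omega
  set G := G1 c hc2 with hG
  refine ⟨TL G L, tally_TL G L, isPSPACE_TL hP G (G1_space hc2 (by omega)), ?_⟩
  rintro ⟨S, hS, α, β, hαβ, C, hev1, hev2⟩
  obtain ⟨N₁, hN₁⟩ := eventually_atTop.1 hev1
  obtain ⟨N₀, hN₀⟩ := eventually_atTop.1 hev2
  obtain ⟨ρ, hρ1, hρ2⟩ := exists_rat_btwn (show (1 / 4 + β : ℝ) < 1 / 2 - α by linarith)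
  have hβ0 : 0 ≤ β := by
    have h1 := hN₁ (max N₁ 1) (le_max_left _ _)
    have h2 : (0 : ℝ) ≤ cn (S \ TL G L) (max N₁ 1) := Nat.cast_nonneg _
    have h3 : (0 : ℝ) < ((max N₁ 1 : ℕ) : ℝ) := by
      have : 0 < max N₁ 1 := lt_of_lt_of_le Nat.one_pos (le_max_right _ _)
      exact_mod_cast this
    by_contra hcon
    push Not at hcon
    have := mul_neg_of_neg_of_pos hcon h3
    linarith
  have hρ0 : 0 < (ρ : ℝ) := lt_of_le_of_lt (by linarith) hρ1
  have hρ0' : 0 < ρ := by exact_mod_cast hρ0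
  have hnum : 0 < ρ.num := Rat.num_pos.2 hρ0'
  have hden : (0 : ℝ) < ρ.den := by exact_mod_cast ρ.den_pos
  have hρe : (ρ : ℝ) * ρ.den = ρ.num.toNat := by
    have h1 : ((ρ.num.toNat : ℤ)) = ρ.num := Int.toNat_of_nonneg hnum.le
    have h2 : ((ρ.num.toNat : ℕ) : ℝ) = (ρ.num : ℝ) := by
      rw [← Int.cast_natCast, h1]
    rw [h2]
    have h3 : (ρ : ℝ) = (ρ.num : ℝ) / ρ.den := Rat.cast_def ρ
    rw [h3]
    field_simp
  set δ₁ : ℝ := ρ - (1 / 4 + β) with hδ₁
  set δ₂ : ℝ := (1 / 2 - α) - ρ with hδ₂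
  have hδ₁0 : 0 < δ₁ := by rw [hδ₁]; linarith
  have hδ₂0 : 0 < δ₂ := by rw [hδ₂]; linarith
  have hlim : Tendsto (fun n : ℕ => (1 / 2 : ℝ) ^ n) atTop (nhds 0) :=
    tendsto_pow_atTop_nhds_zero_of_lt_one (by norm_num) (by norm_num)
  obtain ⟨h, hh⟩ := (hlim.eventually (gt_mem_nhds (show (0 : ℝ) < δ₂ / 2 by linarith))).exists
  obtain ⟨n₁, hn₁⟩ := eventually_atTop.1 ((hlim.eventually (gt_mem_nhds
    (show (0 : ℝ) < δ₂ / 2 by linarith))).and (hlim.eventually (gt_mem_nhds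
    (show (0 : ℝ) < δ₁ / 5 by linarith))))
  set C' := C * (2 * c + h) + 1 with hC'
  -- the size of the parts
  have hsz : ∀ n M : ℕ, 2 ^ (c * (n + 2) + h) ≤ M → ∃ k, n + 1 ≤ k ∧ M ≤ 2 ^ (c * (k + 2)) ∧
      2 ^ k ≤ M ∧ (16 : ℝ) * 64 ^ k ≤ (1 / 2) ^ n * M := by
    intro n M hM
    have hcM : 2 ^ c ≤ M := by
      refine le_trans (Nat.pow_le_pow_right (by norm_num) ?_) hM
      nlinarith
    have hd := div_ge_one (by omega : 0 < c) hcM
    obtain ⟨h3, h4⟩ := block_of_div (by omega : 0 < c) hd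
    refine ⟨nn c M, ?_, h4.le, ?_, ?_⟩
    · by_contra hcon
      have h5 : nn c M + 2 ≤ n + 2 := by omega
      have h6 : 2 ^ (c * (nn c M + 2)) ≤ 2 ^ (c * (n + 2) + h) :=
        Nat.pow_le_pow_right (by norm_num) ((Nat.mul_le_mul_left _ h5).trans (Nat.le_add_right _ _))
      omega
    · refine le_trans (Nat.pow_le_pow_right (by norm_num) ?_) h3
      nlinarith
    · have h5 : n ≤ nn c M := by
        by_contra hcon
        have h5 : nn c M + 2 ≤ n + 2 := by omega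
        have h6 : 2 ^ (c * (nn c M + 2)) ≤ 2 ^ (c * (n + 2) + h) :=
          Nat.pow_le_pow_right (by norm_num) ((Nat.mul_le_mul_left _ h5).trans (Nat.le_add_right _ _))
        omega
      have h6 : 2 ^ (7 * (nn c M + 1)) ≤ M :=
        le_trans (Nat.pow_le_pow_right (by norm_num) (Nat.mul_le_mul_right _ hc7)) h3
      have h7 : (2 : ℝ) ^ (7 * (nn c M + 1)) ≤ M := by exact_mod_cast h6
      have h8 : (2 : ℝ) ^ (7 * (nn c M + 1)) = 128 * 64 ^ nn c M * 2 ^ nn c M := by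
        rw [mul_add, pow_add, pow_mul]
        have : (64 : ℝ) ^ nn c M * 2 ^ nn c M = (2 ^ 7) ^ nn c M := by
          rw [← mul_pow]; norm_num
        rw [← this]; ring
      have h9 : (1 / 2 : ℝ) ^ nn c M ≤ (1 / 2) ^ n :=
        pow_le_pow_of_le_one (by norm_num) (by norm_num) h5
      have h10 : (1 / 2 : ℝ) ^ nn c M * 2 ^ nn c M = 1 := by
        rw [← mul_pow]; norm_num
      have h11 : (1 / 2 : ℝ) ^ nn c M * (128 * 64 ^ nn c M * 2 ^ nn c M) ≤ (1 / 2) ^ nn c M * M := by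
        rw [← h8]
        exact mul_le_mul_of_nonneg_left h7 (by positivity)
      have h12 : (1 / 2 : ℝ) ^ nn c M * (128 * 64 ^ nn c M * 2 ^ nn c M) = 128 * 64 ^ nn c M := by
        calc (1 / 2 : ℝ) ^ nn c M * (128 * 64 ^ nn c M * 2 ^ nn c M)
            = 128 * 64 ^ nn c M * ((1 / 2 : ℝ) ^ nn c M * 2 ^ nn c M) := by ring
          _ = _ := by rw [h10, mul_one]
      have h13 : (1 / 2 : ℝ) ^ nn c M * M ≤ (1 / 2) ^ n * M :=
        mul_le_mul_of_nonneg_right h9 (Nat.cast_nonneg _)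
      have h14 : (0 : ℝ) < 64 ^ nn c M := by positivity
      linarith
  have hstart : ∀ n M : ℕ, 2 ^ (c * (n + 2) + h) ≤ M → 2 ^ (c * (n + 2)) ≤ M ∧
      (2 : ℝ) ^ (c * (n + 2)) ≤ (1 / 2) ^ h * M := by
    intro n M hM
    refine ⟨le_trans (Nat.pow_le_pow_right (by norm_num) (Nat.le_add_right _ _)) hM, ?_⟩
    have h1 : (2 : ℝ) ^ (c * (n + 2) + h) ≤ M := by exact_mod_cast hM
    have h2 : (2 : ℝ) ^ (c * (n + 2)) = (1 / 2) ^ h * 2 ^ (c * (n + 2) + h) := by
      rw [pow_add]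
      have : (1 / 2 : ℝ) ^ h * 2 ^ h = 1 := by rw [← mul_pow]; norm_num
      calc (2 : ℝ) ^ (c * (n + 2)) = 2 ^ (c * (n + 2)) * ((1 / 2 : ℝ) ^ h * 2 ^ h) := by
            rw [this, mul_one]
        _ = _ := by ring
    rw [h2]
    exact mul_le_mul_of_nonneg_left h1 (by positivity)
  have hbig : ∀ n : ℕ, n ≤ 2 ^ (c * (n + 2) + h) := by
    intro n
    calc n ≤ 2 ^ n := Nat.lt_two_pow_self.le
      _ ≤ 2 ^ (c * (n + 2) + h) := Nat.pow_le_pow_right (by norm_num) (by nlinarith)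
  refine decodeG (L := L) hS G (C := C') (n₀ := max n₁ (max N₀ N₁)) (by omega)
    (lo := fun n _ => 2 ^ (c * (n + 2))) (hi := fun _ M => M)
    (mi := fun n => 2 ^ (c * (n + 2) + h)) (th := fun _ M => ρ.num.toNat * M / ρ.den + 1)
    ?_ ?_ ?_ ?_ ?_ ?_ ?_
  · intro α _ n M hn hM
    exact A4.poly_two_pow (UPoly.mul (UPoly.const c) (UPoly.add hn (UPoly.const 2)))
  · intro α _ n M hn hM
    exact hM.toPoly
  · intro α _ n hn
    exact A4.poly_two_pow (UPoly.add (UPoly.mul (UPoly.const c) (UPoly.add hn (UPoly.const 2)))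
      (UPoly.const h))
  · intro α _ n M hn hM
    exact Poly.add (Poly.div (Poly.mul (NPC.Poly.const _) hM.toPoly) (NPC.Poly.const _))
      (NPC.Poly.const 1)
  · intro n M
    show M ≤ 2 * M
    omega
  · -- completeness
    intro n hn
    have hn1 : n₁ ≤ n := (le_max_left _ _).trans hn
    have hn2 : N₀ ≤ n := (le_max_left _ _).trans ((le_max_right _ _).trans hn)
    obtain ⟨M, hM1, hM2, hM3⟩ := hN₀ _ (hn2.trans (hbig n))
    have hMC : M ≤ 2 ^ (C' * (n + 1)) := by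
      refine hM2.trans ?_
      rw [← pow_mul]
      apply Nat.pow_le_pow_right (by norm_num)
      rw [hC']
      have e1 : c * (n + 2) + h ≤ (2 * c + h) * (n + 1) := by nlinarith
      calc (c * (n + 2) + h) * C ≤ ((2 * c + h) * (n + 1)) * C := Nat.mul_le_mul_right _ e1
        _ = C * (2 * c + h) * (n + 1) := by ring
        _ ≤ (C * (2 * c + h) + 1) * (n + 1) := Nat.mul_le_mul_right _ (by omega)
    refine ⟨M, hM1, hMC, ?_⟩
    show ρ.num.toNat * M / ρ.den + 1 ≤ cg G S (tb L (C' * (n + 1))) (2 ^ (c * (n + 2))) M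
    obtain ⟨k, hk1, hk2, _, hk3⟩ := hsz n M hM1
    obtain ⟨hs1, hs2⟩ := hstart n M hM1
    have m1 := (many_blocks hc7 L (n + 1) k hk1).1 M hs1 hk2
    have hKa : ∀ N, N < M → G.ka N ≤ C' * (n + 1) := by
      intro N hN
      show nn c N ≤ _
      have e1 : nn c N ≤ (Nat.bits N).length := by
        unfold nn
        exact (Nat.sub_le _ _).trans ((Nat.div_le_self _ _).trans (Nat.sub_le _ _))
      rw [bits_len] at e1
      exact e1.trans (Nat.size_le.2 (lt_of_lt_of_le hN hMC))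
    have m2 : (t1 G L (2 ^ (c * (n + 2))) M : ℝ) ≤
        cg G S (tb L (C' * (n + 1))) (2 ^ (c * (n + 2))) M + cn (TL G L \ S) M := by
      exact_mod_cast t1_le_cg (S := S) hKa
    have hMpos : (0 : ℝ) < M := by
      have : 0 < M := lt_of_lt_of_le (by positivity) hM1
      exact_mod_cast this
    have m5 : (1 / 2 : ℝ) ^ h * M ≤ δ₂ / 2 * M := mul_le_mul_of_nonneg_right hh.le hMpos.le
    have m6 : (1 / 2 : ℝ) ^ n * M ≤ δ₂ / 2 * M :=
      mul_le_mul_of_nonneg_right (hn₁ n hn1).1.le hMpos.le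
    have m7 : δ₂ * M = ((1 / 2 - α) - ρ) * M := by rw [hδ₂]
    have m8 : 0 < δ₂ * M := mul_pos hδ₂0 hMpos
    have e2 : n + 1 + 1 = n + 2 := rfl
    rw [e2] at m1
    have m9 : (ρ : ℝ) * M < cg G S (tb L (C' * (n + 1))) (2 ^ (c * (n + 2))) M := by
      linarith
    have m10 : (ρ.num.toNat : ℝ) * M <
        cg G S (tb L (C' * (n + 1))) (2 ^ (c * (n + 2))) M * ρ.den := by
      rw [← hρe]
      have := mul_lt_mul_of_pos_right m9 hden
      linarith
    have m11 : ρ.num.toNat * M <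
        cg G S (tb L (C' * (n + 1))) (2 ^ (c * (n + 2))) M * ρ.den := by
      exact_mod_cast m10
    exact Nat.succ_le_of_lt ((Nat.div_lt_iff_lt_mul ρ.den_pos).2 m11)
  · -- soundness
    intro n hn M hM1 hM2 W hW hex
    have hn1 : n₁ ≤ n := (le_max_left _ _).trans hn
    have hn2 : N₁ ≤ n := (le_max_right _ _).trans ((le_max_right _ _).trans hn)
    show cg G S W (2 ^ (c * (n + 2))) M < ρ.num.toNat * M / ρ.den + 1
    obtain ⟨k, hk1, hk2, hk4, hk3⟩ := hsz n M hM1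
    obtain ⟨hs1, hs2⟩ := hstart n M hM1
    have m2 : (cg G S W (2 ^ (c * (n + 2))) M : ℝ) ≤
        t2 G L W (2 ^ (c * (n + 2))) M + cn (S \ TL G L) M := by
      exact_mod_cast cg_le_t2 (L := L) W _ _
    have m3 := hN₁ M (hn2.trans ((hbig n).trans hM1))
    have hkC : k ≤ C' * (n + 1) := by
      by_contra hcon
      push Not at hcon
      have := Nat.pow_lt_pow_right (a := 2) (by norm_num) hcon
      omega
    have hWj : ∀ j, n + 1 ≤ j → j ≤ k → (W.take (2 ^ j)).length = 2 ^ j ∧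
        W.take (2 ^ j) ≠ tb L j := by
      intro j hj1 hj2
      have hj3 : 2 ^ j ≤ 2 ^ (C' * (n + 1)) := Nat.pow_le_pow_right (by norm_num) (by omega)
      refine ⟨by rw [List.length_take, hW, min_eq_left hj3], fun he => ?_⟩
      obtain ⟨i, hi, hne⟩ := hex
      have hij : i < 2 ^ j := lt_of_lt_of_le hi (Nat.pow_le_pow_right (by norm_num) hj1)
      apply hne
      have e1 : (W.take (2 ^ j))[i]? = W[i]? := List.getElem?_take_of_lt hij
      rw [← e1, he, ← tb_take L (show j ≤ C' * (n + 1) by omega), List.getElem?_take_of_lt hij]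
    have m1 := (many_blocks hc7 L (n + 1) k hk1).2 W hWj M hs1 hk2
    have e2 : n + 1 + 1 = n + 2 := rfl
    rw [e2] at m1
    have hMpos : (0 : ℝ) < M := by
      have : 0 < M := lt_of_lt_of_le (by positivity) hM1
      exact_mod_cast this
    have h2n : (0 : ℝ) < 2 ^ (c * (n + 2)) := by positivity
    have e3 : (1 / 2 : ℝ) ^ (n + 1) ≤ (1 / 2) ^ n :=
      pow_le_pow_of_le_one (by norm_num) (by norm_num) (by omega)
    have e4 : (1 / 4 + 3 * (1 / 2 : ℝ) ^ (n + 1)) * ((M : ℝ) - 2 ^ (c * (n + 2))) ≤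
        (1 / 4 + 3 * (1 / 2 : ℝ) ^ n) * M := by
      apply mul_le_mul
      · linarith
      · linarith
      · have : ((2 ^ (c * (n + 2)) : ℕ) : ℝ) ≤ M := by exact_mod_cast hs1
        push_cast at this
        linarith
      · positivity
    have e5 : (1 / 2 : ℝ) ^ n * M ≤ δ₁ / 5 * M :=
      mul_le_mul_of_nonneg_right (hn₁ n hn1).2.le hMpos.le
    have e6 : δ₁ * M = (ρ - (1 / 4 + β)) * M := by rw [hδ₁]
    have m9 : (cg G S W (2 ^ (c * (n + 2))) M : ℝ) ≤ ρ * M := by linarith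
    have m10 : (cg G S W (2 ^ (c * (n + 2))) M : ℝ) * ρ.den ≤ (ρ.num.toNat : ℝ) * M := by
      rw [← hρe]
      have := mul_le_mul_of_nonneg_right m9 hden.le
      linarith
    have m11 : cg G S W (2 ^ (c * (n + 2))) M * ρ.den ≤ ρ.num.toNat * M := by
      exact_mod_cast m10
    exact Nat.lt_succ_of_le ((Nat.le_div_iff_mul_le ρ.den_pos).2 m11)

end Pool.Agent.J4H65.WA
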