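import Pool.Agent.H622R2.Exp.A4
import Pool.Agent.H622R2.Exp.A3
import Pool.Agent.J4H95.TV.OMap

/-!
# Closure properties of the classes
-/

namespace Pool.Agent.J4H65.WA

open Pool.Agent.NPC Pool.Agent.H622R2 Pool.Agent.H620R2.Gauge Pool.Agent.H622R2.Exp

/-- change the output -/
def pAct (φ : List Bool → Bool → Bool) (x a : List Bool) : List Bool :=
  if a.head? = some true then
    (true :: (if φ x (decide (a = [true, true])) = true then [true] else []))
  else a

theorem pAct_false {φ : List Bool → Bool → Bool} {x a q : List Bool} :
    pAct φ x a = false :: q ↔ a = false :: q := by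
  unfold pAct
  split_ifs with h1 h2
  · constructor
    · intro h; simp at h
    · intro h; subst h; simp at h1
  · constructor
    · intro h; simp at h
    · intro h; subst h; simp at h1
  · rfl

open Classical in
theorem spPost {A : Oracle} {L : Set (List Bool)} (h : IsPSPACE A L)
    {φ : List Bool → Bool → Bool} (hφ : Poly (fun p : List Bool × Bool => φ p.1 p.2)) :
    IsPSPACE A {x | φ x (decide (x ∈ L)) = true} := by
  obtain ⟨M, p, hM⟩ := h
  have h1 : Poly (fun z : List Bool => (unpair z).1) := Poly.fst poly_unpair
  have hact : Poly (fun z => M.act z) := poly_of_polyTime M.act_poly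
  have hp : Poly (fun z => pAct φ (unpair z).1 (M.act z)) := by
    unfold pAct
    refine Poly.ite (Poly.decide_eq (Poly.head? hact) (NPC.Poly.const _)) ?_ hact
    refine Poly.cons (NPC.Poly.const true) ?_
    refine Poly.ite (Poly.decide_bool ?_) (NPC.Poly.const _) (NPC.Poly.const _)
    exact hφ.comp (Poly.pair h1 (Poly.decide_eq hact (NPC.Poly.const [true, true])))
  let N : SAlg := ⟨_, polyTime_of_poly_list hp, M.next, M.next_poly⟩
  have hN : ∀ x s, N.act (pairBits x s) = pAct φ x (M.act (pairBits x s)) := by
    intro x s
    show pAct φ (unpair (pairBits x s)).1 _ = _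
    rw [unpair_pairBits]
  refine ⟨N, p, fun x => ?_⟩
  have hR : ∀ s, N.Reach A x s ↔ M.Reach A x s := by
    intro s
    constructor
    · intro h
      induction h with
      | start => exact SAlg.Reach.start
      | step _ h ih =>
        rw [hN] at h
        exact SAlg.Reach.step ih (pAct_false.1 h)
    · intro h
      induction h with
      | start => exact SAlg.Reach.start
      | step _ h ih =>
        refine SAlg.Reach.step (M := N) ih ?_
        rw [hN]
        exact pAct_false.2 h
  obtain ⟨h1, s, z, h2, h3, h4⟩ := hM x
  refine ⟨fun s hs => h1 s ((hR s).1 hs), s,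
    (if φ x (decide (z = [true])) = true then [true] else []), (hR s).2 h2, ?_, ?_⟩
  · rw [hN, h3]
    unfold pAct
    simp
  · show φ x (decide (x ∈ L)) = true ↔ _
    have : decide (x ∈ L) = decide (z = [true]) := by
      by_cases hz : z = [true]
      · rw [decide_eq_true hz, decide_eq_true (h4.2 hz)]
      · rw [decide_eq_false hz, decide_eq_false (fun h => hz (h4.1 h))]
    rw [this]
    split_ifs with h5
    · simp [h5]
    · simp [h5]

/-- the padded version of a language in exponential space is in polynomial space -/
theorem toPad {E : Set (Polynomial ℕ)} {A : Oracle} {L : Set (List Bool)} (h : InSpace E A L) :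
    ∃ q ∈ E, IsPSPACE A {y | 2 ^ q.eval (unpair y).1.length ≤ (unpair y).2.length ∧
      (unpair y).1 ∈ L} := by
  obtain ⟨M, q, hq, hM⟩ := h
  refine ⟨q, hq, ?_⟩
  have h1 : Poly (fun z : List Bool => (unpair z).1) := Poly.fst poly_unpair
  have h2 : Poly (fun z : List Bool => (unpair z).2) := Poly.snd poly_unpair
  have h11 : Poly (fun z : List Bool => (unpair (unpair z).1).1) := h1.comp h1
  have h12 : Poly (fun z : List Bool => (unpair (unpair z).1).2) := h2.comp h1
  have hA : Poly (fun z : List Bool =>
      if 2 ^ q.eval (unpair (unpair z).1).1.length ≤ (unpair (unpair z).1).2.length then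
        M.act (pairBits (unpair (unpair z).1).1 (unpair z).2) else [true]) := by
    refine Poly.ite (Poly.decide_le ?_ (Poly.length h12)) ?_ (NPC.Poly.const _)
    · exact A4.poly_two_pow (UPoly.eval (UPoly.length h11) q)
    · exact (poly_of_polyTime M.act_poly).comp (poly_pairBits h11 h2)
  have hN : Poly (fun z : List Bool => M.next (pairBits (unpair (unpair z).1).1 (unpair z).2)) :=
    (poly_of_polyTime M.next_poly).comp (poly_pairBits h11 h2)
  let M' : SAlg := ⟨_, polyTime_of_poly_list hA, _, polyTime_of_poly_list hN⟩
  have hact : ∀ y s, M'.act (pairBits y s) =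
      if 2 ^ q.eval (unpair y).1.length ≤ (unpair y).2.length then
        M.act (pairBits (unpair y).1 s) else [true] := by
    intro y s
    show (if 2 ^ q.eval (unpair (unpair (pairBits y s)).1).1.length ≤
      (unpair (unpair (pairBits y s)).1).2.length then
        M.act (pairBits (unpair (unpair (pairBits y s)).1).1 (unpair (pairBits y s)).2)
        else [true]) = _
    rw [unpair_pairBits]
  have hnext : ∀ y s, M'.next (pairBits y s) = M.next (pairBits (unpair y).1 s) := by
    intro y s
    show M.next (pairBits (unpair (unpair (pairBits y s)).1).1 (unpair (pairBits y s)).2) = _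
    rw [unpair_pairBits]
  refine ⟨M', Polynomial.X, fun y => ?_⟩
  by_cases hc : 2 ^ q.eval (unpair y).1.length ≤ (unpair y).2.length
  · have hr : ∀ s, M'.Reach A y s ↔ M.Reach A (unpair y).1 s := by
      intro s
      constructor
      · intro h
        induction h with
        | start => exact SAlg.Reach.start
        | step _ h1 ih =>
          rw [hnext]
          rw [hact, if_pos hc] at h1
          exact SAlg.Reach.step ih h1
      · intro h
        induction h with
        | start => exact SAlg.Reach.start
        | step _ h1 ih =>
          rw [← hnext]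
          refine SAlg.Reach.step ih ?_
          rw [hact, if_pos hc]
          exact h1
    refine ⟨?_, ?_⟩
    · intro s hs
      have h3 := (hM (unpair y).1).1 s ((hr s).1 hs)
      have h4 := Pool.Agent.H593R3.DST.unpair_len y
      rw [Polynomial.eval_X]
      omega
    · obtain ⟨s, z, h3, h4, h5⟩ := (hM (unpair y).1).2
      refine ⟨s, z, (hr s).2 h3, ?_, ?_⟩
      · rw [hact, if_pos hc]
        exact h4
      · show (_ ∧ _) ↔ _
        rw [← h5]
        exact ⟨fun h => h.2, fun h => ⟨hc, h⟩⟩
  · have hr : ∀ s, M'.Reach A y s → s = [] := by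
      intro s h
      induction h with
      | start => rfl
      | step _ h1 ih =>
        rw [hact, if_neg hc] at h1
        exact absurd h1 (by simp)
    refine ⟨?_, [], [], SAlg.Reach.start, ?_, ?_⟩
    · intro s hs
      rw [hr s hs]
      simp
    · rw [hact, if_neg hc]
    · show (_ ∧ _) ↔ _
      constructor
      · intro h
        exact absurd h.1 hc
      · intro h
        simp at h

theorem upoly_bound {β : List Bool → ℕ} (hβ : UPoly β) :
    ∃ r : Polynomial ℕ, ∀ y, β y ≤ r.eval y.length := by
  obtain ⟨q, hq⟩ := hβ.sz_le
  refine ⟨q.comp (Polynomial.C 4 * Polynomial.X + Polynomial.C 1), fun y => ?_⟩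
  have h1 := length_lt_sz (List.replicate (β y) ())
  have h2 := hq y
  have h3 := sz_listBool_le y
  rw [List.length_replicate] at h1
  rw [Polynomial.eval_comp]
  refine h1.le.trans (h2.trans (eval_mono _ ?_))
  simpa using h3

theorem zip_count {S : Set (List Bool)} [DecidablePred (· ∈ S)] {V : List Bool → List Bool}
    (h : ∀ w q, V (pairBits w q) = [true] → q ∈ S) : ∀ (l cs : List (List Bool)),
    ((((l.zip cs).map fun p => pairBits p.2 p.1).map V).filter fun a => decide (a = [true])).length ≤
      (l.filter fun q => decide (q ∈ S)).length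
  | [], _ => by simp
  | _ :: _, [] => by simp
  | q :: l, w :: cs => by
    have ih := zip_count h l cs
    rw [List.zip_cons_cons, List.map_cons, List.map_cons]
    by_cases h1 : V (pairBits w q) = [true]
    · have h2 := h w q h1
      rw [List.filter_cons_of_pos (by simpa using h1), List.filter_cons_of_pos (by simpa using h2)]
      simpa using ih
    · rw [List.filter_cons_of_neg (by simpa using h1)]
      by_cases h2 : q ∈ S
      · rw [List.filter_cons_of_pos (by simpa using h2)]
        simp only [List.length_cons]
        omega
      · rw [List.filter_cons_of_neg (by simpa using h2)]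
        exact ih

theorem zip_count_eq {S : Set (List Bool)} [DecidablePred (· ∈ S)] {V : List Bool → List Bool}
    (f : List Bool → List Bool) (h : ∀ q, q ∈ S → V (pairBits (f q) q) = [true]) :
    ∀ (l : List (List Bool)), (l.filter fun q => decide (q ∈ S)).length ≤
    ((((l.zip (l.map f)).map fun p => pairBits p.2 p.1).map V).filter
      fun a => decide (a = [true])).length
  | [] => by simp
  | q :: l => by
    have ih := zip_count_eq f h l
    rw [List.map_cons, List.zip_cons_cons, List.map_cons, List.map_cons]
    by_cases h2 : q ∈ S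
    · have h1 := h q h2
      rw [List.filter_cons_of_pos (by simpa using h2), List.filter_cons_of_pos (by simpa using h1)]
      simpa using ih
    · rw [List.filter_cons_of_neg (by simpa using h2)]
      refine ih.trans ?_
      by_cases h1 : V (pairBits (f q) q) = [true]
      · rw [List.filter_cons_of_pos (by simpa using h1)]
        simp only [List.length_cons]
        omega
      · rw [List.filter_cons_of_neg (by simpa using h1)]

/-- the certificate: a string and a list of strings -/
def dc (c : List Bool) : List Bool × List (List Bool) :=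
  (unbits (List Bool × List (List Bool)) c).getD ([], [])

theorem poly_dc : Poly dc := Poly.optGetD poly_unbits (NPC.Poly.const _)

theorem dc_bits (d : List Bool × List (List Bool)) : dc (bits d) = d := by
  unfold dc
  rw [unbits_bits]
  rfl

open Classical in
/-- guessing a string and verifying that many queries are in a language in `NP` -/
theorem npCount {A : Oracle} {S : Set (List Bool)} (h : IsNP A S)
    {ℓ : List Bool → List (List Bool)} (hℓ : Poly ℓ) {θ : List Bool → ℕ} (hθ : Poly θ)
    {β : List Bool → ℕ} (hβ : UPoly β) :
    IsNP A {y | ∃ W : List Bool, W.length ≤ β y ∧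
      θ (pairBits W y) ≤ ((ℓ (pairBits W y)).filter fun q => decide (q ∈ S)).length} := by
  obtain ⟨V, p, hV, hs, hL⟩ := Pool.Agent.J4H95.TV.exists_strict h
  have h1 : Poly (fun z : List Bool => (unpair z).1) := Poly.fst poly_unpair
  have h2 : Poly (fun z : List Bool => (unpair z).2) := Poly.snd poly_unpair
  have hd : Poly (fun z : List Bool => dc (unpair z).1) := poly_dc.comp h1
  have hv : Poly (fun z : List Bool => pairBits (dc (unpair z).1).1 (unpair z).2) :=
    poly_pairBits (Poly.fst hd) h2
  have hq : Poly (fun z : List Bool =>
      ((ℓ (pairBits (dc (unpair z).1).1 (unpair z).2)).zip (dc (unpair z).1).2).map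
        fun p => pairBits p.2 p.1) := by
    refine NPC.Poly.map (F := fun (_ : List Bool) (p : List Bool × List Bool) =>
      pairBits p.2 p.1) (Poly.zip (hℓ.comp hv) (Poly.snd hd)) ?_
    exact poly_pairBits (Poly.snd (Poly.snd Poly.id)) (Poly.fst (Poly.snd Poly.id))
  have hψ : Poly (fun u : List Bool × List (List Bool) =>
      if (dc (unpair u.1).1).1.length ≤ β (unpair u.1).2 ∧
        θ (pairBits (dc (unpair u.1).1).1 (unpair u.1).2) ≤
          (u.2.filter fun a => decide (a = [true])).length then [true] else []) := by
    refine Poly.ite (Poly.decide_and (Poly.decide_le ?_ ?_) (Poly.decide_le ?_ ?_))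
      (NPC.Poly.const _) (NPC.Poly.const _)
    · exact (Poly.length (Poly.fst hd)).comp (Poly.fst Poly.id)
    · exact (hβ.toPoly.comp h2).comp (Poly.fst Poly.id)
    · exact (hθ.comp hv).comp (Poly.fst Poly.id)
    · refine Poly.length (Poly.filter (p := fun (_ : List Bool × List (List Bool)) a =>
        decide (a = [true])) (Poly.snd Poly.id) ?_)
      exact Poly.decide_eq (Poly.snd Poly.id) (NPC.Poly.const _)
  have hF := Pool.Agent.J4H95.TV.isFP_map hV hq hψ
  -- a bound for the certificates
  obtain ⟨rβ, hrβ⟩ := upoly_bound hβ
  obtain ⟨rℓ, hrℓ⟩ := hℓ.sz_le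
  -- `|v| ≤ 2 β + 1 + |y|`
  let rv : Polynomial ℕ := Polynomial.C 2 * rβ + Polynomial.C 1 + Polynomial.X
  let rs : Polynomial ℕ := rℓ.comp (Polynomial.C 4 * rv + Polynomial.C 1)
  refine ⟨_, (Polynomial.C 4 * rβ + Polynomial.C 1) +
    (rs * (Polynomial.C 4 * p.comp rs + Polynomial.C 1 + Polynomial.C 1) + Polynomial.C 1) +
      Polynomial.C 1, hF, fun y => ?_⟩
  constructor
  · rintro ⟨W, hW, hc⟩
    have hf : ∀ q : List Bool, ∃ w : List Bool, (q ∈ S → V (pairBits w q) = [true]) ∧
        w.length ≤ p.eval q.length := by
      intro q
      by_cases hq : q ∈ S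
      · obtain ⟨w, hw⟩ := (hL q).1 hq
        exact ⟨w, fun _ => hw, hs w q hw⟩
      · exact ⟨[], fun h => absurd h hq, by simp⟩
    choose f hf1 hf2 using hf
    refine ⟨bits (W, (ℓ (pairBits W y)).map f), ?_, ?_⟩
    · rw [bits_length, sz_pair]
      have b1 : sz W ≤ 4 * rβ.eval y.length + 1 := by
        have := sz_listBool_le W
        have := hrβ y
        omega
      have b2 : (pairBits W y).length ≤ rv.eval y.length := by
        rw [Pool.Agent.H620R2.Gauge.A2.length_pairBits]
        have := hrβ y
        simp only [rv, Polynomial.eval_add, Polynomial.eval_mul, Polynomial.eval_C,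
          Polynomial.eval_X]
        omega
      have b3 : sz (ℓ (pairBits W y)) ≤ rs.eval y.length := by
        refine (hrℓ _).trans ?_
        simp only [rs, Polynomial.eval_comp]
        apply eval_mono
        have := sz_listBool_le (pairBits W y)
        simp only [Polynomial.eval_add, Polynomial.eval_mul, Polynomial.eval_C]
        omega
      have b4 : sz ((ℓ (pairBits W y)).map f) ≤
          rs.eval y.length * (4 * p.eval (rs.eval y.length) + 1 + 1) + 1 := by
        refine (sz_le_length_mul _ (4 * p.eval (rs.eval y.length) + 1) ?_).trans ?_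
        · intro a ha
          obtain ⟨q, hq, rfl⟩ := List.mem_map.1 ha
          have e1 := hf2 q
          have e2 := sz_le_of_mem hq
          have e3 := length_lt_sz q
          have e4 : p.eval q.length ≤ p.eval (rs.eval y.length) := eval_mono p (by omega)
          have e5 := sz_listBool_le (f q)
          omega
        · apply Nat.add_le_add_right
          apply Nat.mul_le_mul_right
          rw [List.length_map]
          have := length_lt_sz (ℓ (pairBits W y))
          omega
      simp only [Polynomial.eval_add, Polynomial.eval_mul, Polynomial.eval_C,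
        Polynomial.eval_comp]
      omega
    · simp only [unpair_pairBits, dc_bits]
      rw [if_pos]
      refine ⟨hW, hc.trans ?_⟩
      exact zip_count_eq f hf1 _
  · rintro ⟨c, _, hc⟩
    simp only [unpair_pairBits] at hc
    by_cases hcon : (dc c).1.length ≤ β y ∧ θ (pairBits (dc c).1 y) ≤
        ((((((ℓ (pairBits (dc c).1 y)).zip (dc c).2).map
          fun p => pairBits p.2 p.1).map V).filter fun a => decide (a = [true])).length)
    · refine ⟨(dc c).1, hcon.1, hcon.2.trans ?_⟩
      exact zip_count (fun w q h => (hL q).2 ⟨w, h⟩) _ _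
    · rw [if_neg hcon] at hc
      exact absurd hc (by simp)

theorem two_pow_size_le (N : ℕ) : 2 ^ N.bits.length ≤ 2 * N + 1 := by
  rcases Nat.eq_zero_or_pos N with rfl | hN
  · simp
  · have h1 : N.bits.length = N.size := by rw [← Nat.size_eq_bits_len]
    rw [h1]
    have h2 : 2 ^ (N.size - 1) ≤ N := by
      by_contra hcon
      push Not at hcon
      have h3 := Nat.size_le.2 hcon
      have h4 : 0 < N.size := Nat.size_pos.2 hN
      omega
    have h4 : 0 < N.size := Nat.size_pos.2 hN
    have h5 : 2 ^ N.size = 2 * 2 ^ (N.size - 1) := by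
      rw [← pow_succ']
      congr 1
      omega
    omega

/-- a language in nondeterministic exponential time, written in unary, is in `NP` -/
theorem unary {A : Oracle} {L : Set (List Bool)} (h : InNTime Lin A L) :
    IsNP A {z | z = List.replicate z.length true ∧ Nat.bits z.length ∈ L} := by
  obtain ⟨V, hV, q, ⟨c, rfl⟩, hL⟩ := h
  have h1 : Poly (fun z : List Bool => (unpair z).1) := Poly.fst poly_unpair
  have h2 : Poly (fun z : List Bool => (unpair z).2) := Poly.snd poly_unpair
  have hb : Poly (fun z : List Bool => Nat.bits (unpair z).2.length) :=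
    NPC.Poly.natBits (Poly.length h2)
  have hF : IsFP A (fun z => V (pairBits (unpair z).1 (Nat.bits (unpair z).2.length))) :=
    IsFP.comp hV (IsFP.of_poly (poly_pairBits h1 hb))
  have hG : IsFP A (fun z => z) := IsFP.of_poly Poly.id
  have ht : Poly (fun z : List Bool => decide ((unpair z).2.all (fun b => b) = true ∧
      (unpair z).1.length ≤ 2 ^ (c * ((Nat.bits (unpair z).2.length).length + 1)))) := by
    refine Poly.decide_and (Poly.decide_bool (Poly.all (p := fun _ b => b) h2 (Poly.snd Poly.id)))
      (Poly.decide_le (Poly.length h1) (A4.poly_two_pow ?_))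
    exact UPoly.mul (UPoly.const c) (UPoly.add (UPoly.length hb) (UPoly.const 1))
  have hS := IsFP.seq (φ := fun p => p.1)
    (ψ := fun u : List Bool × List Bool × List Bool =>
      if (unpair u.1).2.all (fun b => b) = true ∧
        (unpair u.1).1.length ≤ 2 ^ (c * ((Nat.bits (unpair u.1).2.length).length + 1))
      then u.2.1 else [])
    hF hG (Poly.fst Poly.id)
    (Poly.ite (ht.comp (Poly.fst Poly.id)) (Poly.fst (Poly.snd Poly.id)) (NPC.Poly.const []))
  refine ⟨_, (Polynomial.C 4 * Polynomial.X + Polynomial.C 2) ^ c, hS, fun z => ?_⟩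
  have hall : z = List.replicate z.length true ↔ z.all (fun b => b) = true := by
    rw [List.eq_replicate_iff, List.all_eq_true]
    simp
  constructor
  · rintro ⟨hz, hzL⟩
    obtain ⟨w, hw, hVw⟩ := (hL _).1 hzL
    simp only [Polynomial.eval_mul, Polynomial.eval_C, Polynomial.eval_add, Polynomial.eval_X,
      Polynomial.eval_one] at hw
    refine ⟨w, ?_, ?_⟩
    · refine hw.trans ?_
      simp only [Polynomial.eval_pow, Polynomial.eval_add, Polynomial.eval_mul,
        Polynomial.eval_C, Polynomial.eval_X]
      rw [mul_comm c, pow_mul, pow_succ]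
      apply Nat.pow_le_pow_left
      have := two_pow_size_le z.length
      omega
    · simp only [unpair_pairBits]
      rw [if_pos ⟨hall.1 hz, hw⟩]
      exact hVw
  · rintro ⟨w, _, hw⟩
    simp only [unpair_pairBits] at hw
    by_cases hcon : z.all (fun b => b) = true ∧
        w.length ≤ 2 ^ (c * ((Nat.bits z.length).length + 1))
    · rw [if_pos hcon] at hw
      refine ⟨hall.2 hcon.1, (hL _).2 ⟨w, ?_, hw⟩⟩
      simpa using hcon.2
    · rw [if_neg hcon] at hw
      exact absurd hw (by simp)

end Pool.Agent.J4H65.WA
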