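import Mathlib

/-!
# A balanced code with pairwise independent code words
-/

namespace Pool.Agent.J4H65.WA

open Finset Polynomial

/-- the value modulo `q` of the polynomial with the coefficients `W` at `u` -/
def hr (q u : ℕ) (W : List Bool) : ℕ := W.foldr (fun w acc => (acc * u + w.toNat) % q) 0

/-- digit number `N` of the code word of `W` -/
def bt (q m : ℕ) (W : List Bool) (N : ℕ) : Bool :=
  decide ((((N / q % q) * hr q (N % q) W + N / q / q % q) % q) * m < q)

/-- the polynomial with the coefficients `W` -/
noncomputable def pol (q : ℕ) (W : List Bool) : (ZMod q)[X] :=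
  W.foldr (fun w P => P * X + C ((w.toNat : ℕ) : ZMod q)) 0

theorem hr_cast (q u : ℕ) (W : List Bool) :
    ((hr q u W : ℕ) : ZMod q) = (pol q W).eval (u : ZMod q) := by
  induction W with
  | nil => simp [hr, pol]
  | cons w W ih =>
    have h1 : hr q u (w :: W) = (hr q u W * u + w.toNat) % q := rfl
    have h2 : pol q (w :: W) = pol q W * X + C ((w.toNat : ℕ) : ZMod q) := rfl
    rw [h1, h2, ZMod.natCast_mod]
    push_cast
    rw [ih]
    simp

theorem pol_inj {q : ℕ} (hq : 1 < q) : ∀ {W W' : List Bool}, W.length = W'.length →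
    pol q W = pol q W' → W = W'
  | [], [], _, _ => rfl
  | [], _ :: _, h, _ => by simp at h
  | _ :: _, [], h, _ => by simp at h
  | w :: W, w' :: W', h, hp => by
    have : Fact (1 < q) := ⟨hq⟩
    have h2 : ∀ (w : Bool) (W : List Bool), pol q (w :: W) =
      pol q W * X + C ((w.toNat : ℕ) : ZMod q) := fun _ _ => rfl
    rw [h2, h2] at hp
    have hc := congrArg (fun P => P.coeff 0) hp
    simp only [coeff_add, mul_coeff_zero, coeff_X_zero, mul_zero, coeff_C_zero, zero_add] at hc
    have hw : w = w' := by
      cases w <;> cases w' <;> simp_all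
    subst hw
    have hp' : pol q W * X = pol q W' * X := add_right_cancel hp
    have hp2 : pol q W = pol q W' := by
      ext n
      have := congrArg (fun P => P.coeff (n + 1)) hp'
      simpa using this
    rw [pol_inj hq (by simpa using h) hp2]

theorem natDegree_pol (q : ℕ) (W : List Bool) : (pol q W).natDegree ≤ W.length := by
  induction W with
  | nil => simp [pol]
  | cons w W ih =>
    have h2 : pol q (w :: W) = pol q W * X + C ((w.toNat : ℕ) : ZMod q) := rfl
    rw [h2]
    refine (natDegree_add_le _ _).trans ?_
    rw [natDegree_C]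
    refine max_le ?_ (Nat.zero_le _)
    refine natDegree_mul_le.trans ?_
    have := natDegree_X_le (R := ZMod q)
    simp only [List.length_cons]
    omega

theorem card_agree {q : ℕ} [Fact q.Prime] {W W' : List Bool} (h : W.length = W'.length)
    (hne : W ≠ W') : (univ.filter fun u : ZMod q => (pol q W).eval u = (pol q W').eval u).card ≤
      W.length := by
  have hq : 1 < q := (Fact.out : q.Prime).one_lt
  have hD : pol q W - pol q W' ≠ 0 := fun h0 => hne (pol_inj hq h (sub_eq_zero.1 h0))
  have hsub : (univ.filter fun u : ZMod q => (pol q W).eval u = (pol q W').eval u) ⊆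
      (pol q W - pol q W').roots.toFinset := by
    intro u hu
    rw [Finset.mem_filter] at hu
    rw [Multiset.mem_toFinset, mem_roots hD, IsRoot.def, eval_sub, hu.2, sub_self]
  refine (Finset.card_le_card hsub).trans ?_
  refine (Multiset.toFinset_card_le _).trans ?_
  refine (card_roots' _).trans ?_
  refine (natDegree_sub_le _ _).trans ?_
  exact max_le (natDegree_pol q W) (by rw [h]; exact natDegree_pol q W')

/-- the coordinates of the place `N` -/
def cor (q N : ℕ) : ZMod q × ZMod q × ZMod q :=
  ((N : ZMod q), ((N / q : ℕ) : ZMod q), ((N / q / q : ℕ) : ZMod q))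

/-- the digit in terms of the coordinates -/
def Bz (q m : ℕ) (F : ZMod q → ZMod q) (v : ZMod q × ZMod q × ZMod q) : Prop :=
  (v.2.1 * F v.1 + v.2.2).val * m < q

instance (q m : ℕ) (F : ZMod q → ZMod q) : DecidablePred (Bz q m F) := fun v => by
  unfold Bz; infer_instance

theorem bt_iff {q : ℕ} [NeZero q] (m : ℕ) (W : List Bool) (N : ℕ) :
    bt q m W N = true ↔ Bz q m (fun u => (pol q W).eval u) (cor q N) := by
  unfold bt Bz cor
  rw [decide_eq_true_iff]
  have h : (((N / q : ℕ) : ZMod q) * (pol q W).eval (N : ZMod q) + ((N / q / q : ℕ) : ZMod q)) =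
      (((N / q % q) * hr q (N % q) W + N / q / q % q : ℕ) : ZMod q) := by
    push_cast
    rw [ZMod.natCast_mod, ZMod.natCast_mod, hr_cast, ZMod.natCast_mod]
  rw [h, ZMod.val_natCast]

theorem card_period {q : ℕ} [NeZero q] (p : ZMod q × ZMod q × ZMod q → Prop) [DecidablePred p] :
    ((range (q * q * q)).filter fun N => p (cor q N)).card = (univ.filter p).card := by
  have hq : 0 < q := Nat.pos_of_ne_zero (NeZero.ne q)
  refine Finset.card_nbij' (fun N => cor q N)
    (fun v => v.1.val + q * (v.2.1.val + q * v.2.2.val)) ?_ ?_ ?_ ?_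
  · intro N hN
    simpa using (Finset.mem_filter.1 hN).2
  · rintro ⟨u, a, b⟩ hv
    have hu := ZMod.val_lt u
    have ha := ZMod.val_lt a
    have hb := ZMod.val_lt b
    have h1 : (u.val + q * (a.val + q * b.val)) / q = a.val + q * b.val := by
      rw [Nat.add_mul_div_left _ _ hq, Nat.div_eq_of_lt hu, zero_add]
    have h2 : (a.val + q * b.val) / q = b.val := by
      rw [Nat.add_mul_div_left _ _ hq, Nat.div_eq_of_lt ha, zero_add]
    have h3 : cor q (u.val + q * (a.val + q * b.val)) = (u, a, b) := by
      unfold cor
      rw [h1, h2]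
      simp
    have hv' : p (u, a, b) := by simpa using hv
    simp only [Finset.coe_filter, Finset.mem_range, Set.mem_setOf_eq]
    rw [h3]
    refine ⟨?_, hv'⟩
    have e1 : b.val + 1 ≤ q := hb
    have e2 : a.val + q * b.val + 1 ≤ q * q := by
      calc a.val + q * b.val + 1 ≤ q + q * b.val := by omega
        _ = q * (b.val + 1) := by ring
        _ ≤ q * q := Nat.mul_le_mul_left _ e1
    calc u.val + q * (a.val + q * b.val) < q + q * (a.val + q * b.val) := by omega
      _ = q * (a.val + q * b.val + 1) := by ring
      _ ≤ q * (q * q) := Nat.mul_le_mul_left _ e2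
      _ = q * q * q := by ring
  · intro N hN
    have hN' : N < q * q * q := by simpa using (Finset.mem_filter.1 hN).1
    unfold cor
    simp only [ZMod.val_natCast]
    have h1 : N / q / q < q := by
      rw [Nat.div_div_eq_div_mul]
      exact Nat.div_lt_of_lt_mul hN'
    rw [Nat.mod_eq_of_lt h1]
    have h2 : (N / q) % q + q * (N / q / q) = N / q := Nat.mod_add_div _ _
    rw [h2]
    exact Nat.mod_add_div _ _
  · rintro ⟨u, a, b⟩ _
    have hu := ZMod.val_lt u
    have ha := ZMod.val_lt a
    have hb := ZMod.val_lt b
    have h1 : (u.val + q * (a.val + q * b.val)) / q = a.val + q * b.val := by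
      rw [Nat.add_mul_div_left _ _ hq, Nat.div_eq_of_lt hu, zero_add]
    have h2 : (a.val + q * b.val) / q = b.val := by
      rw [Nat.add_mul_div_left _ _ hq, Nat.div_eq_of_lt ha, zero_add]
    unfold cor
    simp only
    rw [h1, h2]
    simp

/-- the number of the values for which the digit is one -/
def tt (q m : ℕ) [NeZero q] : ℕ := (univ.filter fun y : ZMod q => y.val * m < q).card

theorem card_shift (q m : ℕ) [NeZero q] (c : ZMod q) :
    (univ.filter fun b : ZMod q => (c + b).val * m < q).card = tt q m := by
  unfold tt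
  refine Finset.card_nbij' (fun b => c + b) (fun b => b - c) ?_ ?_ ?_ ?_
  · intro b hb; simpa using hb
  · intro b hb; simpa using hb
  · intro b _; simp
  · intro b _; simp

theorem card_B1 (q m : ℕ) [NeZero q] (F : ZMod q → ZMod q) :
    (univ.filter (Bz q m F)).card = q * q * tt q m := by
  rw [Finset.card_filter, Fintype.sum_prod_type]
  have h : ∀ u : ZMod q, (∑ y : ZMod q × ZMod q, if Bz q m F (u, y) then 1 else 0) =
      q * tt q m := by
    intro u
    rw [Fintype.sum_prod_type]
    have h2 : ∀ a : ZMod q, (∑ b : ZMod q, if Bz q m F (u, a, b) then 1 else 0) = tt q m := by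
      intro a
      rw [← card_shift q m (a * F u), Finset.card_filter]
      rfl
    rw [Finset.sum_congr rfl (fun a _ => h2 a)]
    simp [ZMod.card]
  rw [Finset.sum_congr rfl (fun u _ => h u)]
  simp [ZMod.card, mul_assoc]

theorem card_B2 (q m : ℕ) [Fact q.Prime] (F F' : ZMod q → ZMod q) (d : ℕ)
    (hd : (univ.filter fun u => F u = F' u).card ≤ d) :
    (univ.filter fun v => Bz q m F v ∧ Bz q m F' v).card ≤
      d * (q * tt q m) + q * (tt q m * tt q m) := by
  have : NeZero q := ⟨(Fact.out : q.Prime).ne_zero⟩
  rw [Finset.card_filter, Fintype.sum_prod_type]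
  have h : ∀ u : ZMod q,
      (∑ y : ZMod q × ZMod q, if Bz q m F (u, y) ∧ Bz q m F' (u, y) then 1 else 0) ≤
      (if F u = F' u then q * tt q m else 0) + tt q m * tt q m := by
    intro u
    by_cases hu : F u = F' u
    · rw [if_pos hu]
      refine le_trans ?_ (Nat.le_add_right _ _)
      rw [Fintype.sum_prod_type]
      have h2 : ∀ a : ZMod q,
          (∑ b : ZMod q, if Bz q m F (u, a, b) ∧ Bz q m F' (u, a, b) then 1 else 0) ≤
          tt q m := by
        intro a
        rw [← card_shift q m (a * F u), Finset.card_filter]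
        refine Finset.sum_le_sum fun b _ => ?_
        by_cases hb : (a * F u + b).val * m < q
        · rw [if_pos hb]
          split_ifs <;> simp
        · rw [if_neg hb, if_neg]
          exact fun h => hb h.1
      refine (Finset.sum_le_sum (fun a _ => h2 a)).trans ?_
      simp [ZMod.card]
    · rw [if_neg hu, zero_add, ← Finset.card_filter]
      unfold tt
      rw [← Finset.card_product]
      refine Finset.card_le_card_of_injOn
        (fun y : ZMod q × ZMod q => (y.1 * F u + y.2, y.1 * F' u + y.2)) ?_ ?_
      · rintro ⟨a, b⟩ hy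
        have hy' := (Finset.mem_filter.1 hy).2
        simp only [Finset.coe_product, Set.mem_prod, Finset.coe_filter, Finset.mem_univ, true_and,
          Set.mem_setOf_eq]
        exact hy'
      · rintro ⟨a, b⟩ _ ⟨a', b'⟩ _ he
        simp only [Prod.mk.injEq] at he
        obtain ⟨e1, e2⟩ := he
        have h1 : (a - a') * (F u - F' u) = 0 := by linear_combination e1 - e2
        have h2 : a = a' := by
          rcases mul_eq_zero.1 h1 with h | h
          · exact sub_eq_zero.1 h
          · exact absurd (sub_eq_zero.1 h) hu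
        subst h2
        have h3 : b = b' := by linear_combination e1
        rw [h3]
  refine (Finset.sum_le_sum (fun u _ => h u)).trans ?_
  rw [Finset.sum_add_distrib, ← Finset.sum_filter, Finset.sum_const, Finset.sum_const, smul_eq_mul,
    smul_eq_mul, Finset.card_univ, ZMod.card]
  exact Nat.add_le_add_right (Nat.mul_le_mul_right _ hd) _

theorem tt_eq (q m : ℕ) [NeZero q] (hm : 0 < m) : tt q m = (q + m - 1) / m := by
  have hq : 0 < q := Nat.pos_of_ne_zero (NeZero.ne q)
  have key : ∀ y : ℕ, y * m < q ↔ y < (q + m - 1) / m := by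
    intro y
    rw [Nat.lt_div_iff_mul_lt hm]
    have : q + m - 1 - (m - 1) = q := by omega
    rw [this, mul_comm]
  rw [← Finset.card_range ((q + m - 1) / m)]
  unfold tt
  refine Finset.card_nbij' (fun y => y.val) (fun k => (k : ZMod q)) ?_ ?_ ?_ ?_
  · intro y hy
    have hy' := (Finset.mem_filter.1 hy).2
    simp only [Finset.coe_range, Set.mem_Iio]
    exact (key _).1 hy'
  · intro k hk
    simp only [Finset.coe_range, Set.mem_Iio] at hk
    have h1 := (key k).2 hk
    have h2 : k < q := by
      refine lt_of_le_of_lt ?_ h1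
      exact Nat.le_mul_of_pos_right k hm
    simp only [Finset.coe_filter, Finset.mem_univ, true_and, Set.mem_setOf_eq]
    rw [ZMod.val_natCast, Nat.mod_eq_of_lt h2]
    exact h1
  · intro y _
    simp
  · intro k hk
    simp only [Finset.coe_range, Set.mem_Iio] at hk
    have h1 := (key k).2 hk
    have h2 : k < q := by
      refine lt_of_le_of_lt ?_ h1
      exact Nat.le_mul_of_pos_right k hm
    simp only
    rw [ZMod.val_natCast, Nat.mod_eq_of_lt h2]

/-- counting in a block of a periodic set -/
theorem card_Ico_periodic (p : ℕ → Prop) [DecidablePred p] {L : ℕ}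
    (hp : ∀ N, p (N + L) ↔ p N) (X : ℕ) : ∀ k : ℕ,
    ((Ico X (X + k * L)).filter p).card = k * ((range L).filter p).card := by
  have hper : Function.Periodic p L := fun N => propext (hp N)
  have h1 : ∀ X, ((Ico X (X + L)).filter p).card = ((range L).filter p).card := by
    intro X
    rw [Nat.filter_Ico_card_eq_of_periodic X L p hper, Nat.count_eq_card_filter_range]
  intro k
  induction k with
  | zero => simp
  | succ k ih =>
    have h2 : Ico X (X + (k + 1) * L) = Ico X (X + k * L) ∪ Ico (X + k * L) (X + k * L + L) := by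
      rw [Finset.Ico_union_Ico_eq_Ico (Nat.le_add_right _ _) (Nat.le_add_right _ _)]
      congr 1
      ring
    rw [h2, Finset.filter_union, Finset.card_union_of_disjoint, ih, h1]
    · ring
    · exact Finset.disjoint_filter_filter (Finset.Ico_disjoint_Ico_consecutive _ _ _)

theorem card_Ico_ge (p : ℕ → Prop) [DecidablePred p] {L : ℕ}
    (hp : ∀ N, p (N + L) ↔ p N) (X B : ℕ) :
    B / L * ((range L).filter p).card ≤ ((Ico X (X + B)).filter p).card := by
  rw [← card_Ico_periodic p hp X]
  apply Finset.card_le_card
  apply Finset.filter_subset_filter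
  apply Finset.Ico_subset_Ico le_rfl
  have := Nat.div_mul_le_self B L
  omega

theorem card_Ico_le (p : ℕ → Prop) [DecidablePred p] {L : ℕ} (hL : 0 < L)
    (hp : ∀ N, p (N + L) ↔ p N) (X B : ℕ) :
    ((Ico X (X + B)).filter p).card ≤ (B / L + 1) * ((range L).filter p).card := by
  rw [← card_Ico_periodic p hp X]
  apply Finset.card_le_card
  apply Finset.filter_subset_filter
  apply Finset.Ico_subset_Ico le_rfl
  have := Nat.lt_div_mul_add (a := B) hL
  have h2 : (B / L + 1) * L = B / L * L + L := by ring
  omega

theorem cor_periodic {q : ℕ} [NeZero q] (N : ℕ) : cor q (N + q * q * q) = cor q N := by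
  have hq : 0 < q := Nat.pos_of_ne_zero (NeZero.ne q)
  have h1 : (N + q * q * q) / q = N / q + q * q := by
    rw [mul_assoc, Nat.add_mul_div_left _ _ hq]
  have h2 : (N / q + q * q) / q = N / q / q + q := by
    rw [Nat.add_mul_div_left _ _ hq]
  unfold cor
  rw [h1, h2]
  simp

theorem bt_periodic {q : ℕ} [NeZero q] (m : ℕ) (W : List Bool) (N : ℕ) :
    bt q m W (N + q * q * q) = true ↔ bt q m W N = true := by
  rw [bt_iff, bt_iff, cor_periodic]

theorem card_bt1 {q : ℕ} [NeZero q] (m : ℕ) (W : List Bool) :
    ((range (q * q * q)).filter fun N => bt q m W N = true).card = q * q * tt q m := by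
  rw [← card_B1 q m (fun u => (pol q W).eval u), ← card_period]
  congr 1
  apply Finset.filter_congr
  intro N _
  exact bt_iff m W N

theorem card_bt2 {q : ℕ} [Fact q.Prime] (m : ℕ) {W W' : List Bool} (h : W.length = W'.length)
    (hne : W ≠ W') :
    ((range (q * q * q)).filter fun N => bt q m W N = true ∧ bt q m W' N = true).card ≤
      W.length * (q * tt q m) + q * (tt q m * tt q m) := by
  have : NeZero q := ⟨(Fact.out : q.Prime).ne_zero⟩
  refine le_trans (le_of_eq ?_) (card_B2 q m (fun u => (pol q W).eval u)
    (fun u => (pol q W').eval u) W.length (card_agree h hne))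
  rw [← card_period]
  congr 1
  apply Finset.filter_congr
  intro N _
  rw [bt_iff, bt_iff]

end Pool.Agent.J4H65.WA
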