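import Pool.Agent.J4H65.WA.Tab
import Pool.Agent.H622R2.Exp.G

/-!
# Decoding in nondeterministic exponential time
-/

namespace Pool.Agent.J4H65.WA

open Pool.Agent.NPC Pool.Agent.H622R2 Pool.Agent.H620R2.Gauge Pool.Agent.H622R2.Exp

open Classical in
/-- the number of the places in block number `n` where the digit of the code word of `W` is one
and which belong to `S` -/
noncomputable def cnt (c m : ℕ) (S : Set (List Bool)) (n : ℕ) (W : List Bool) : ℕ :=
  ((Finset.Ico (2 ^ (c * (n + 1))) (2 ^ (c * (n + 2)))).filter
    (fun N => bt (pr (4 ^ n)) m W N = true ∧ List.replicate N true ∈ S)).card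

theorem length_filter_range (p : ℕ → Bool) (n : ℕ) :
    ((List.range n).filter p).length = ((Finset.range n).filter (fun N => p N = true)).card := by
  induction n with
  | zero => simp
  | succ n ih =>
    rw [List.range_succ, List.filter_append, List.length_append, ih, Finset.range_add_one,
      Finset.filter_insert]
    by_cases h : p n = true
    · rw [if_pos h, Finset.card_insert_of_notMem (by simp)]
      simp [h]
    · rw [if_neg h]
      simp [h]

theorem poly_replicate {α : Type} [TEnc α] {n : α → ℕ} (hn : UPoly n) (b : Bool) :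
    NPC.Poly (fun a => List.replicate (n a) b) :=
  (NPC.Poly.map (F := fun _ _ => b) hn (NPC.Poly.const b)).congr fun a => by simp

/-- the queries -/
def qry (c m : ℕ) (v : List Bool) : List (List Bool) :=
  ((List.range ((unpair (unpair v).2).2.length + 1)).filter fun N =>
    decide (2 ^ (c * ((unpair (unpair v).2).1.length + 1)) ≤ N) &&
    (decide (N < 2 ^ (c * ((unpair (unpair v).2).1.length + 2))) &&
    bt (max (prz (2 ^ (2 * (unpair (unpair v).2).1.length)) (unpair (unpair v).2).2.length) 1) m
      (unpair v).1 N)).map fun N =>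
  List.replicate (min N (unpair (unpair v).2).2.length) true

/-- the number of the positive answers which is required -/
def thr (c P R n₀ : ℕ) (F : List (List Bool)) (v : List Bool) : ℕ :=
  if (unpair (unpair v).2).1.length < n₀ then
    (if (unpair (unpair v).2).1 ∈ F then 0 else (unpair (unpair v).2).2.length + 2)
  else if (unpair v).1.length = 2 ^ (unpair (unpair v).2).1.length ∧
      (unpair v).1[valB (unpair (unpair v).2).1]? = some true then
    P * (2 ^ (c * ((unpair (unpair v).2).1.length + 2)) -
      2 ^ (c * ((unpair (unpair v).2).1.length + 1))) / R + 1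
  else (unpair (unpair v).2).2.length + 2

theorem poly_qry (c m : ℕ) : NPC.Poly (qry c m) := by
  have h1 : Poly (fun z : List Bool => (unpair z).1) := Poly.fst poly_unpair
  have h2 : Poly (fun z : List Bool => (unpair z).2) := Poly.snd poly_unpair
  have hx : Poly (fun z : List Bool => (unpair (unpair z).2).1) := h1.comp h2
  have ht : Poly (fun z : List Bool => (unpair (unpair z).2).2) := h2.comp h2
  have hX : Poly (fun z : List Bool => 2 ^ (c * ((unpair (unpair z).2).1.length + 1))) :=
    A4.poly_two_pow (UPoly.mul (UPoly.const c) (UPoly.add (UPoly.length hx) (UPoly.const 1)))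
  have hY : Poly (fun z : List Bool => 2 ^ (c * ((unpair (unpair z).2).1.length + 2))) :=
    A4.poly_two_pow (UPoly.mul (UPoly.const c) (UPoly.add (UPoly.length hx) (UPoly.const 2)))
  have hp : Poly (fun z : List Bool =>
      prz (2 ^ (2 * (unpair (unpair z).2).1.length)) (unpair (unpair z).2).2.length) :=
    poly_prz (A4.poly_two_pow (UPoly.mul (UPoly.const 2) (UPoly.length hx))) (UPoly.length ht)
  have f1 : Poly (fun p : List Bool × ℕ => p.1) := Poly.fst Poly.id
  have f2 : Poly (fun p : List Bool × ℕ => p.2) := Poly.snd Poly.id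
  unfold qry
  refine NPC.Poly.map (F := fun (v : List Bool) (N : ℕ) =>
    List.replicate (min N (unpair (unpair v).2).2.length) true)
    (Poly.filter (p := fun (v : List Bool) (N : ℕ) =>
      decide (2 ^ (c * ((unpair (unpair v).2).1.length + 1)) ≤ N) &&
      (decide (N < 2 ^ (c * ((unpair (unpair v).2).1.length + 2))) &&
      bt (max (prz (2 ^ (2 * (unpair (unpair v).2).1.length)) (unpair (unpair v).2).2.length) 1) m
      (unpair v).1 N)) (UPoly.range (UPoly.add (UPoly.length ht) (UPoly.const 1))) ?_) ?_
  · refine Poly.and (Poly.decide_le (hX.comp f1) f2) (Poly.and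
      (Poly.decide_lt f2 (hY.comp f1)) ?_)
    exact poly_bt m (hp.comp f1) f2 (h1.comp f1)
  · have hl : UPoly (fun p : List Bool × ℕ => (unpair (unpair p.1).2).2.length) :=
      UPoly.length (ht.comp f1)
    exact poly_replicate (UPoly.of_le (Poly.min f2 hl.toPoly) hl (fun a => min_le_right _ _)) true

theorem poly_thr (c P R n₀ : ℕ) (F : List (List Bool)) : NPC.Poly (thr c P R n₀ F) := by
  have h1 : Poly (fun z : List Bool => (unpair z).1) := Poly.fst poly_unpair
  have h2 : Poly (fun z : List Bool => (unpair z).2) := Poly.snd poly_unpair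
  have hx : Poly (fun z : List Bool => (unpair (unpair z).2).1) := h1.comp h2
  have ht : Poly (fun z : List Bool => (unpair (unpair z).2).2) := h2.comp h2
  have hX : Poly (fun z : List Bool => 2 ^ (c * ((unpair (unpair z).2).1.length + 1))) :=
    A4.poly_two_pow (UPoly.mul (UPoly.const c) (UPoly.add (UPoly.length hx) (UPoly.const 1)))
  have hY : Poly (fun z : List Bool => 2 ^ (c * ((unpair (unpair z).2).1.length + 2))) :=
    A4.poly_two_pow (UPoly.mul (UPoly.const c) (UPoly.add (UPoly.length hx) (UPoly.const 2)))
  have hbig : Poly (fun z : List Bool => (unpair (unpair z).2).2.length + 2) :=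
    Poly.add (Poly.length ht) (NPC.Poly.const 2)
  unfold thr
  refine Poly.ite (Poly.decide_lt (Poly.length hx) (NPC.Poly.const n₀))
    (Poly.ite (Poly.dec_mem hx (NPC.Poly.const F)) (NPC.Poly.const 0) hbig)
    (Poly.ite (Poly.decide_and (Poly.decide_eq (Poly.length h1)
      (A4.poly_two_pow (UPoly.length hx))) (Poly.decide_eq (Poly.getElem? h1 (Poly.valBits hx))
      (NPC.Poly.const _))) ?_ hbig)
  exact Poly.add (Poly.div (Poly.mul (NPC.Poly.const P) (Poly.sub hY hX)) (NPC.Poly.const R))
    (NPC.Poly.const 1)

theorem pr_le_block {c n T : ℕ} (hc : 2 ≤ c) (h : 2 ^ (c * (n + 1)) ≤ T) : pr (4 ^ n) ≤ T := by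
  refine (pr_le (by positivity)).trans (le_trans ?_ h)
  have e : 2 * 4 ^ n = 2 ^ (2 * n + 1) := by
    rw [pow_succ, pow_mul]
    norm_num [mul_comm]
  rw [e]
  apply Nat.pow_le_pow_right (by norm_num)
  nlinarith

open Classical in
theorem qry_count {c m : ℕ} (hc : 2 ≤ c) (S : Set (List Bool)) (W x : List Bool) {T : ℕ}
    (hT : 2 ^ (c * (x.length + 2)) ≤ T) :
    ((qry c m (pairBits W (pairBits x (List.replicate T true)))).filter
      fun q => decide (q ∈ S)).length = cnt c m S x.length W := by
  unfold qry cnt
  simp only [unpair_pairBits, List.length_replicate]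
  have hX : 2 ^ (c * (x.length + 1)) ≤ 2 ^ (c * (x.length + 2)) :=
    Nat.pow_le_pow_right (by norm_num) (Nat.mul_le_mul_left _ (by omega))
  have e4 : 2 ^ (2 * x.length) = 4 ^ x.length := by rw [pow_mul]; norm_num
  rw [e4, prz_eq (pr_le_block hc (hX.trans hT)), max_eq_left (pr_prime _).one_lt.le,
    List.filter_map, List.length_map, List.filter_filter, length_filter_range]
  congr 1
  ext N
  simp only [Finset.mem_filter, Finset.mem_range, Finset.mem_Ico, Bool.and_eq_true,
    decide_eq_true_iff, Function.comp]
  constructor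
  · rintro ⟨_, h2, h3, h4, h5⟩
    rw [min_eq_left (by omega)] at h2
    exact ⟨⟨h3, h4⟩, h5, h2⟩
  · rintro ⟨⟨h1, h2⟩, h3, h4⟩
    rw [min_eq_left (by omega)]
    exact ⟨by omega, h4, h1, h2, h3⟩

open Classical in
theorem decode {A : Oracle} {L S : Set (List Bool)} (hS : IsNP A S) {c m P R n₀ : ℕ}
    (hc : 2 ≤ c) (hR : 0 < R)
    (ha : ∀ n, n₀ ≤ n →
      P * (2 ^ (c * (n + 2)) - 2 ^ (c * (n + 1))) < R * cnt c m S n (tab L n))
    (hb : ∀ n, n₀ ≤ n → ∀ W : List Bool, W.length = 2 ^ n → W ≠ tab L n →
      R * cnt c m S n W ≤ P * (2 ^ (c * (n + 2)) - 2 ^ (c * (n + 1)))) :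
    InNTime Lin A L := by
  let F : List (List Bool) := ((List.range n₀).flatMap
    (fun n => (List.range (2 ^ n)).map (bitsOf n))).filter (fun x => decide (x ∈ L))
  have hF : ∀ x : List Bool, x.length < n₀ → (x ∈ F ↔ x ∈ L) := by
    intro x hx
    simp only [F, List.mem_filter, List.mem_flatMap, List.mem_map, List.mem_range,
      decide_eq_true_iff]
    constructor
    · exact fun h => h.2
    · intro h
      exact ⟨⟨x.length, hx, valB x, valB_lt x, bitsOf_valB x⟩, h⟩
  have h1 := npCount hS (poly_qry c m) (poly_thr c P R n₀ F)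
    (UPoly.length (Poly.id (α := List Bool)))
  have hq : (Polynomial.C (2 * c) * (Polynomial.X + 1) : Polynomial ℕ) ∈ Lin := ⟨2 * c, rfl⟩
  have h2 := Pool.Agent.H622R2.Exp.IsNP.pad good_Lin h1 hq
  convert h2 using 1
  ext x
  simp only [Set.mem_ofPred_eq]
  have hpad : padq (Polynomial.C (2 * c) * (Polynomial.X + 1)) x =
      pairBits x (List.replicate (2 ^ (2 * c * (x.length + 1))) true) := by
    unfold padq
    simp
  rw [hpad]
  set T := 2 ^ (2 * c * (x.length + 1)) with hTdef
  have hT : 2 ^ (c * (x.length + 2)) ≤ T := by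
    rw [hTdef]
    apply Nat.pow_le_pow_right (by norm_num)
    nlinarith
  have hlen : (pairBits x (List.replicate T true)).length = 2 * x.length + 1 + T := by
    rw [Pool.Agent.H620R2.Gauge.A2.length_pairBits, List.length_replicate]
    omega
  have hcb : ∀ W : List Bool, cnt c m S x.length W ≤ T + 1 := by
    intro W
    rw [← qry_count hc S W x hT]
    refine (List.length_filter_le _ _).trans ?_
    unfold qry
    simp only [unpair_pairBits, List.length_map]
    refine (List.length_filter_le _ _).trans ?_
    simp
  by_cases hx : x.length < n₀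
  · have hthr : ∀ W : List Bool, thr c P R n₀ F (pairBits W (pairBits x (List.replicate T true))) =
        if x ∈ F then 0 else T + 2 := by
      intro W
      unfold thr
      simp only [unpair_pairBits, List.length_replicate]
      rw [if_pos hx]
    constructor
    · intro h
      refine ⟨[], Nat.zero_le _, ?_⟩
      rw [hthr, if_pos ((hF x hx).2 h)]
      exact Nat.zero_le _
    · rintro ⟨W, _, hW⟩
      rw [hthr, qry_count hc S W x hT] at hW
      by_contra hcon
      rw [if_neg (fun h => hcon ((hF x hx).1 h))] at hW
      have := hcb W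
      omega
  · have hx' : n₀ ≤ x.length := by omega
    have hthr : ∀ W : List Bool, thr c P R n₀ F (pairBits W (pairBits x (List.replicate T true))) =
        if W.length = 2 ^ x.length ∧ W[valB x]? = some true then
          P * (2 ^ (c * (x.length + 2)) - 2 ^ (c * (x.length + 1))) / R + 1 else T + 2 := by
      intro W
      unfold thr
      simp only [unpair_pairBits, List.length_replicate]
      rw [if_neg hx]
    have hdiv : ∀ k : ℕ, P * (2 ^ (c * (x.length + 2)) - 2 ^ (c * (x.length + 1))) / R + 1 ≤ k ↔
        P * (2 ^ (c * (x.length + 2)) - 2 ^ (c * (x.length + 1))) < R * k := by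
      intro k
      rw [Nat.add_one_le_iff, Nat.div_lt_iff_lt_mul hR, mul_comm k R]
    constructor
    · intro h
      refine ⟨tab L x.length, ?_, ?_⟩
      · rw [length_tab, hlen]
        have : 2 ^ x.length ≤ 2 ^ (c * (x.length + 2)) :=
          Nat.pow_le_pow_right (by norm_num) (by nlinarith)
        omega
      · rw [hthr, qry_count hc S _ x hT, if_pos, hdiv]
        · exact ha _ hx'
        · refine ⟨length_tab L _, ?_⟩
          rw [tab_get L rfl]
          simpa using h
    · rintro ⟨W, _, hW⟩
      rw [hthr, qry_count hc S W x hT] at hW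
      by_cases hcon : W.length = 2 ^ x.length ∧ W[valB x]? = some true
      · rw [if_pos hcon, hdiv] at hW
        have hWt : W = tab L x.length := by
          by_contra hne
          have := hb _ hx' W hcon.1 hne
          omega
        rw [hWt, tab_get L rfl] at hcon
        simpa using hcon.2
      · rw [if_neg hcon] at hW
        have := hcb W
        omega

end Pool.Agent.J4H65.WA
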