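import Mathlib

/-!
# Tally languages and counting
-/

namespace Pool.Agent.J4H65.WA

/-- The language `T` is a tally language: all its elements are of the form `1 ^ N`. -/
def Tally (T : Set (List Bool)) : Prop := ∀ z ∈ T, ∃ N : ℕ, z = List.replicate N true

/-- The number of the `k < N` such that the string `1 ^ k` is in `X`. -/
noncomputable def cn (X : Set (List Bool)) (N : ℕ) : ℕ :=
  Set.ncard {k : ℕ | k < N ∧ List.replicate k true ∈ X}

end Pool.Agent.J4H65.WA
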