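import Pool.Agent.J4H65.WA.Dec
import Pool.Agent.J4H65.WA.Defs

/-!
# Estimates for the numbers of places in a block
-/

namespace Pool.Agent.J4H65.WA

open Pool.Agent.NPC Pool.Agent.H622R2 Pool.Agent.H620R2.Gauge Pool.Agent.H622R2.Exp

theorem cn_eq (X : Set (List Bool)) [DecidablePred fun k : ℕ => List.replicate k true ∈ X]
    (N : ℕ) : cn X N = ((Finset.range N).filter fun k => List.replicate k true ∈ X).card := by
  unfold cn
  rw [← Set.ncard_coe_finset]
  congr 1
  ext k
  simp

theorem mem_TT {c m : ℕ} (hc : 0 < c) (L : Set (List Bool)) {n N : ℕ}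
    (h1 : 2 ^ (c * (n + 1)) ≤ N) (h2 : N < 2 ^ (c * (n + 2))) :
    List.replicate N true ∈ TT c m L ↔ bt (pr (4 ^ n)) m (tab L n) N = true := by
  constructor
  · rintro ⟨n', N', h1', h2', he, hb⟩
    have hN : N = N' := by
      have := congrArg List.length he
      simpa using this
    subst hN
    have e1 := div_of_block hc h1 h2
    have e2 := div_of_block hc h1' h2'
    have e3 : n = n' := by omega
    subst e3
    exact hb
  · intro hb
    exact ⟨n, N, h1, h2, rfl, hb⟩

open Classical in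
/-- the number of the places in the block where the digit of the code word is one -/
noncomputable def c1 (c m : ℕ) (L : Set (List Bool)) (n : ℕ) : ℕ :=
  ((Finset.Ico (2 ^ (c * (n + 1))) (2 ^ (c * (n + 2)))).filter
    (fun N => bt (pr (4 ^ n)) m (tab L n) N = true)).card

open Classical in
/-- the number of the places in the block where both digits are one -/
noncomputable def c2 (c m : ℕ) (L : Set (List Bool)) (n : ℕ) (W : List Bool) : ℕ :=
  ((Finset.Ico (2 ^ (c * (n + 1))) (2 ^ (c * (n + 2)))).filter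
    (fun N => bt (pr (4 ^ n)) m W N = true ∧ bt (pr (4 ^ n)) m (tab L n) N = true)).card

theorem c1_le_cnt {c m : ℕ} (hc : 0 < c) (L S : Set (List Bool)) (n : ℕ) :
    c1 c m L n ≤ cnt c m S n (tab L n) + cn (TT c m L \ S) (2 ^ (c * (n + 2))) := by
  classical
  rw [cn_eq]
  unfold c1 cnt
  refine (Finset.card_le_card ?_).trans (Finset.card_union_le _ _)
  intro N hN
  rw [Finset.mem_filter, Finset.mem_Ico] at hN
  rw [Finset.mem_union, Finset.mem_filter, Finset.mem_filter, Finset.mem_Ico, Finset.mem_range]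
  by_cases hS : List.replicate N true ∈ S
  · exact Or.inl ⟨hN.1, hN.2, hS⟩
  · exact Or.inr ⟨hN.1.2, (mem_TT hc L hN.1.1 hN.1.2).2 hN.2, hS⟩

theorem cnt_le_c2 {c m : ℕ} (hc : 0 < c) (L S : Set (List Bool)) (n : ℕ) (W : List Bool) :
    cnt c m S n W ≤ c2 c m L n W + cn (S \ TT c m L) (2 ^ (c * (n + 2))) := by
  classical
  rw [cn_eq]
  unfold c2 cnt
  refine (Finset.card_le_card ?_).trans (Finset.card_union_le _ _)
  intro N hN
  rw [Finset.mem_filter, Finset.mem_Ico] at hN
  rw [Finset.mem_union, Finset.mem_filter, Finset.mem_filter, Finset.mem_Ico, Finset.mem_range]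
  by_cases hb : bt (pr (4 ^ n)) m (tab L n) N = true
  · exact Or.inl ⟨hN.1, hN.2.1, hb⟩
  · exact Or.inr ⟨hN.1.2, hN.2.2, fun h => hb ((mem_TT hc L hN.1.1 hN.1.2).1 h)⟩

theorem cn_TT_le {c m : ℕ} (hc : 0 < c) (L : Set (List Bool)) (n : ℕ) :
    cn (TT c m L) (2 ^ (c * (n + 2))) ≤ 2 ^ (c * (n + 1)) + c1 c m L n := by
  classical
  rw [cn_eq]
  unfold c1
  have h0 : (Finset.range (2 ^ (c * (n + 1)))).card = 2 ^ (c * (n + 1)) := Finset.card_range _
  conv_rhs => rw [← h0]
  refine (Finset.card_le_card ?_).trans (Finset.card_union_le _ _)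
  intro N hN
  rw [Finset.mem_filter, Finset.mem_range] at hN
  rw [Finset.mem_union, Finset.mem_range, Finset.mem_filter, Finset.mem_Ico]
  by_cases h : N < 2 ^ (c * (n + 1))
  · exact Or.inl h
  · exact Or.inr ⟨⟨by omega, hN.1⟩, (mem_TT hc L (by omega) hN.1).1 hN.2⟩

section Real

variable {q m : ℕ} [Fact q.Prime]

omit [Fact q.Prime] in
theorem tt_ge (hm : 0 < m) [NeZero q] : (q : ℝ) / m ≤ tt q m := by
  rw [tt_eq q m hm, div_le_iff₀ (by exact_mod_cast hm)]
  have h := Nat.lt_div_mul_add (a := q + m - 1) hm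
  have h2 : q ≤ (q + m - 1) / m * m := by omega
  exact_mod_cast h2

omit [Fact q.Prime] in
theorem tt_le (hm : 0 < m) [NeZero q] : (tt q m : ℝ) ≤ q / m + 1 := by
  rw [tt_eq q m hm]
  have h := Nat.div_mul_le_self (q + m - 1) m
  have hm' : (0 : ℝ) < m := by exact_mod_cast hm
  rw [← sub_le_iff_le_add, le_div_iff₀ hm', sub_mul, one_mul]
  have h2 : (q + m - 1) / m * m ≤ q + m := by omega
  have h3 : (((q + m - 1) / m : ℕ) : ℝ) * m ≤ q + m := by exact_mod_cast h2
  linarith

omit [Fact q.Prime] in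
theorem tt_le_q [NeZero q] : tt q m ≤ q := by
  unfold tt
  refine (Finset.card_le_univ _).trans ?_
  rw [ZMod.card]

/-- the estimates for a block of length `B` -/
theorem block_est (hm : 2 ≤ m) [NeZero q] {X B n : ℕ} {W W' : List Bool}
    (hW : W.length = 2 ^ n) (hW' : W'.length = 2 ^ n) {ε : ℝ}
    (h2 : (2 ^ n : ℝ) ≤ ε * q) (hB : (q * q * q : ℝ) ≤ ε * B) (hε1 : ε ≤ 1) :
    ((1 / m - ε) * B ≤ (((Finset.Ico X (X + B)).filter fun N => bt q m W' N = true).card : ℝ)) ∧
    ((((Finset.Ico X (X + B)).filter fun N => bt q m W' N = true).card : ℝ) ≤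
      (1 / m + 2 * ε) * B) ∧
    (W ≠ W' → (((Finset.Ico X (X + B)).filter fun N => bt q m W N = true ∧
      bt q m W' N = true).card : ℝ) ≤ (1 / (m : ℝ) ^ 2 + 5 * ε) * B) := by
  have hq0 : 0 < q := (Fact.out : q.Prime).pos
  have hq : (0 : ℝ) < q := by exact_mod_cast hq0
  have hm0 : 0 < m := by omega
  have hm' : (2 : ℝ) ≤ m := by exact_mod_cast hm
  have hmpos : (0 : ℝ) < m := by linarith
  have hL : 0 < q * q * q := by positivity
  have hΛ : (0 : ℝ) < q * q * q := by positivity
  have hB0 : (0 : ℝ) ≤ B := Nat.cast_nonneg B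
  have ht1 := tt_ge (q := q) hm0
  have ht2 := tt_le (q := q) hm0
  have ht3 : (tt q m : ℝ) ≤ q := by exact_mod_cast tt_le_q (q := q) (m := m)
  have ht0 : (0 : ℝ) ≤ tt q m := Nat.cast_nonneg _
  have hone : (1 : ℝ) ≤ ε * q := le_trans (by exact_mod_cast Nat.one_le_two_pow) h2
  have hε0 : 0 ≤ ε := by
    by_contra hcon
    push Not at hcon
    have := mul_neg_of_neg_of_pos hcon hq
    linarith
  have hper := fun N => bt_periodic (q := q) m W' N
  have hfl : ((B / (q * q * q) : ℕ) : ℝ) ≤ B / (q * q * q) := by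
    have := Nat.cast_div_le (α := ℝ) (m := B) (n := q * q * q)
    push_cast at this
    exact this
  have hfl2 : (B : ℝ) / (q * q * q) - 1 ≤ ((B / (q * q * q) : ℕ) : ℝ) := by
    have h := Nat.lt_div_mul_add (a := B) hL
    rw [sub_le_iff_le_add, div_le_iff₀ hΛ]
    have h' : B ≤ (B / (q * q * q) + 1) * (q * q * q) := by
      have e : (B / (q * q * q) + 1) * (q * q * q) = B / (q * q * q) * (q * q * q) + q * q * q := by
        ring
      omega
    have h'' : (B : ℝ) ≤ ((B / (q * q * q) : ℕ) + 1) * (q * q * q) := by exact_mod_cast h'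
    exact h''
  refine ⟨?_, ?_, ?_⟩
  · have h := card_Ico_ge (fun N => bt q m W' N = true) hper X B
    rw [card_bt1] at h
    have h' : (((B / (q * q * q) : ℕ) : ℝ) * (q * q * tt q m)) ≤
        (((Finset.Ico X (X + B)).filter fun N => bt q m W' N = true).card : ℝ) := by
      exact_mod_cast h
    refine le_trans ?_ h'
    have e1 : ((B : ℝ) / (q * q * q) - 1) * (q * q * tt q m) ≤
        ((B / (q * q * q) : ℕ) : ℝ) * (q * q * tt q m) :=
      mul_le_mul_of_nonneg_right hfl2 (by positivity)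
    refine le_trans ?_ e1
    have e2 : ((B : ℝ) / (q * q * q) - 1) * (q * q * tt q m) =
        B * (tt q m / q) - q * q * tt q m := by
      field_simp
    rw [e2]
    have e3 : (1 : ℝ) / m ≤ tt q m / q := by
      rw [div_le_div_iff₀ hmpos hq, one_mul]
      rw [div_le_iff₀ hmpos] at ht1
      linarith
    have e4 : (q : ℝ) * q * tt q m ≤ ε * B :=
      le_trans (mul_le_mul_of_nonneg_left ht3 (by positivity)) hB
    have e5 := mul_le_mul_of_nonneg_left e3 hB0
    linarith
  · have h := card_Ico_le (fun N => bt q m W' N = true) hL hper X B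
    rw [card_bt1] at h
    have h' : (((Finset.Ico X (X + B)).filter fun N => bt q m W' N = true).card : ℝ) ≤
        (((B / (q * q * q) : ℕ) : ℝ) + 1) * (q * q * tt q m) := by
      exact_mod_cast h
    refine h'.trans ?_
    have e1 : (((B / (q * q * q) : ℕ) : ℝ) + 1) * (q * q * tt q m) ≤
        ((B : ℝ) / (q * q * q) + 1) * (q * q * tt q m) :=
      mul_le_mul_of_nonneg_right (by linarith) (by positivity)
    refine e1.trans ?_
    have e2 : ((B : ℝ) / (q * q * q) + 1) * (q * q * tt q m) =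
        B * (tt q m / q) + q * q * tt q m := by
      field_simp
    rw [e2]
    have e3 : (tt q m : ℝ) / q ≤ 1 / m + ε := by
      rw [div_le_iff₀ hq, add_mul, one_div_mul_eq_div]
      linarith
    have e4 : (q : ℝ) * q * tt q m ≤ ε * B :=
      le_trans (mul_le_mul_of_nonneg_left ht3 (by positivity)) hB
    have e5 := mul_le_mul_of_nonneg_left e3 hB0
    linarith
  · intro hne
    have hper2 : ∀ N, (bt q m W (N + q * q * q) = true ∧ bt q m W' (N + q * q * q) = true) ↔
        (bt q m W N = true ∧ bt q m W' N = true) := fun N => by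
      rw [bt_periodic, bt_periodic]
    have h := card_Ico_le (fun N => bt q m W N = true ∧ bt q m W' N = true) hL hper2 X B
    have h3 := card_bt2 (q := q) m (hW.trans hW'.symm) hne
    rw [hW] at h3
    have h' : (((Finset.Ico X (X + B)).filter fun N => bt q m W N = true ∧
        bt q m W' N = true).card : ℝ) ≤
        (((B / (q * q * q) : ℕ) : ℝ) + 1) * (2 ^ n * (q * tt q m) + q * (tt q m * tt q m)) := by
      exact_mod_cast h.trans (Nat.mul_le_mul_left _ h3)
    refine h'.trans ?_
    have e1 : (((B / (q * q * q) : ℕ) : ℝ) + 1) * (2 ^ n * (q * tt q m) + q * (tt q m * tt q m)) ≤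
        ((B : ℝ) / (q * q * q) + 1) * (ε * q * (q * tt q m) + q * (tt q m * tt q m)) := by
      apply mul_le_mul
      · linarith
      · have := mul_le_mul_of_nonneg_right h2 (show (0 : ℝ) ≤ q * tt q m by positivity)
        linarith
      · positivity
      · positivity
    refine e1.trans ?_
    have e2 : ((B : ℝ) / (q * q * q) + 1) * (ε * q * (q * tt q m) + q * (tt q m * tt q m)) =
        B * (ε * (tt q m / q) + (tt q m / q) ^ 2) +
          (ε * q * (q * tt q m) + q * (tt q m * tt q m)) := by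
      field_simp
    rw [e2]
    have e3 : (tt q m : ℝ) / q ≤ 1 / m + ε := by
      rw [div_le_iff₀ hq, add_mul, one_div_mul_eq_div]
      linarith
    have e3' : (tt q m : ℝ) / q ≤ 1 := by
      rw [div_le_one hq]; exact ht3
    have e30 : 0 ≤ (tt q m : ℝ) / q := by positivity
    have hm2 : (1 : ℝ) / m ≤ 1 / 2 := one_div_le_one_div_of_le (by norm_num) hm'
    have e4 : ((tt q m : ℝ) / q) ^ 2 ≤ 1 / (m : ℝ) ^ 2 + 2 * ε := by
      have e5 : ((tt q m : ℝ) / q) ^ 2 ≤ (1 / m + ε) ^ 2 := pow_le_pow_left₀ e30 e3 2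
      have e6 : (1 / (m : ℝ) + ε) ^ 2 = 1 / (m : ℝ) ^ 2 + ε * (2 * (1 / m) + ε) := by
        field_simp
        ring
      rw [e6] at e5
      have e7 : ε * (2 * (1 / m) + ε) ≤ ε * 2 := mul_le_mul_of_nonneg_left (by linarith) hε0
      linarith
    have e5 : ε * ((tt q m : ℝ) / q) ≤ ε := by
      have := mul_le_mul_of_nonneg_left e3' hε0
      linarith
    have e6 : ε * q * (q * tt q m) ≤ ε * B := by
      have e7 : (q : ℝ) * (q * tt q m) ≤ q * q * q := by
        have := mul_le_mul_of_nonneg_left ht3 (show (0 : ℝ) ≤ q * q by positivity)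
        linarith
      have e8 : ε * (q * (q * tt q m)) ≤ 1 * (q * q * q) :=
        mul_le_mul hε1 e7 (by positivity) (by norm_num)
      linarith
    have e9 : (q : ℝ) * (tt q m * tt q m) ≤ ε * B := by
      have e10 : (tt q m : ℝ) * tt q m ≤ q * q := mul_le_mul ht3 ht3 ht0 hq.le
      have := mul_le_mul_of_nonneg_left e10 hq.le
      linarith
    have e10 : (B : ℝ) * (ε * (tt q m / q) + (tt q m / q) ^ 2) ≤
        B * (ε + (1 / (m : ℝ) ^ 2 + 2 * ε)) :=
      mul_le_mul_of_nonneg_left (by linarith) hB0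
    linarith

end Real

end Pool.Agent.J4H65.WA
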