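import Pool.Agent.J4H65.WA.Dec

/-!
# Nested tables: general encodings of a language into a tally language
-/

namespace Pool.Agent.J4H65.WA

open Pool.Agent.NPC Pool.Agent.H622R2 Pool.Agent.H620R2.Gauge Pool.Agent.H622R2.Exp

open Classical in
/-- the table of the language for the first `2 ^ k` strings -/
noncomputable def tb (L : Set (List Bool)) (k : ℕ) : List Bool :=
  (List.range (2 ^ k)).map fun i => decide (U1.cand i ∈ L)

theorem length_tb (L : Set (List Bool)) (k : ℕ) : (tb L k).length = 2 ^ k := by
  simp [tb]

open Classical in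
theorem tb_get (L : Set (List Bool)) {k i : ℕ} (hi : i < 2 ^ k) :
    (tb L k)[i]? = some (decide (U1.cand i ∈ L)) := by
  unfold tb
  rw [List.getElem?_map, List.getElem?_range hi]
  simp

theorem tb_take (L : Set (List Bool)) {j k : ℕ} (h : j ≤ k) :
    (tb L k).take (2 ^ j) = tb L j := by
  have h1 : 2 ^ j ≤ 2 ^ k := Nat.pow_le_pow_right (by norm_num) h
  unfold tb
  rw [← List.map_take, List.take_range, min_eq_left h1]

open Classical in
theorem tb_iff (L : Set (List Bool)) (k : ℕ) (W : List Bool) : W = tb L k ↔
    W.length = 2 ^ k ∧ ∀ i, i < 2 ^ k → W[i]? = some (decide (U1.cand i ∈ L)) := by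
  constructor
  · rintro rfl
    exact ⟨length_tb L k, fun i hi => tb_get L hi⟩
  · rintro ⟨h1, h2⟩
    apply List.ext_getElem?
    intro i
    rcases Nat.lt_or_ge i (2 ^ k) with hi | hi
    · rw [h2 i hi, tb_get L hi]
    · rw [List.getElem?_eq_none (by omega), List.getElem?_eq_none (by rw [length_tb]; omega)]

theorem take_eq {β : Type} (n : ℕ) : ∀ (l : List β) (k : ℕ),
    ((l.zipIdx k).filter (fun p => decide (p.2 < n))).map Prod.fst = l.take (n - k)
  | [], k => by simp
  | a :: l, k => by
    rw [List.zipIdx_cons]
    by_cases h : k < n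
    · rw [List.filter_cons_of_pos (by simpa using h), List.map_cons, take_eq n l (k + 1)]
      have e : n - k = (n - (k + 1)) + 1 := by omega
      rw [e, List.take_succ_cons]
    · rw [List.filter_cons_of_neg (by simpa using h), take_eq n l (k + 1)]
      have e : n - k = 0 := by omega
      have e' : n - (k + 1) = 0 := by omega
      rw [e, e', List.take_zero, List.take_zero]

theorem poly_take {α β : Type} [TEnc α] [TEnc β] {l : α → List β} {n : α → ℕ}
    (hl : NPC.Poly l) (hn : NPC.Poly n) : NPC.Poly (fun a => (l a).take (n a)) := by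
  have h1 : NPC.Poly (fun a => (((l a).zipIdx).filter (fun p => decide (p.2 < n a))).map
      Prod.fst) := by
    refine NPC.Poly.map (F := fun (_ : α) (p : β × ℕ) => p.1) (Poly.filter
      (p := fun (a : α) (p : β × ℕ) => decide (p.2 < n a)) (Poly.zipIdx hl) ?_) ?_
    · exact Poly.decide_lt (NPC.Poly.snd (NPC.Poly.snd NPC.Poly.id))
        (hn.comp (NPC.Poly.fst NPC.Poly.id))
    · exact NPC.Poly.fst (NPC.Poly.snd NPC.Poly.id)
  exact h1.congr fun a => by rw [take_eq (n a) (l a) 0]; rfl

/-- the data of an encoding -/
structure Dig where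
  /-- the length exponent of the table which is used at the place `N` -/
  ka : ℕ → ℕ
  /-- the digit at the place `N` -/
  D : List Bool → ℕ → Bool
  /-- the same, with a bound for the search -/
  Dz : ℕ → List Bool → ℕ → Bool
  /-- the first place -/
  mn : ℕ
  /-- the exponent can be computed -/
  upoly : ∀ {α : Type} [TEnc α] {N : α → ℕ}, NPC.Poly N → UPoly (fun a => ka (N a))
  /-- correctness of the second form -/
  eq : ∀ T W N, mn ≤ N → N ≤ T → Dz T W N = D W N
  /-- the digits can be computed -/
  poly : ∀ {α : Type} [TEnc α] {T N : α → ℕ} {W : α → List Bool}, UPoly T → NPC.Poly N →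
    NPC.Poly W → NPC.Poly (fun a => Dz (T a) (W a) (N a))

/-- the tally language which encodes the tables of `L` -/
def TL (G : Dig) (L : Set (List Bool)) : Set (List Bool) :=
  {z | ∃ N : ℕ, G.mn ≤ N ∧ z = List.replicate N true ∧ G.D (tb L (G.ka N)) N = true}

theorem mem_TL (G : Dig) (L : Set (List Bool)) (N : ℕ) :
    List.replicate N true ∈ TL G L ↔ G.mn ≤ N ∧ G.D (tb L (G.ka N)) N = true := by
  constructor
  · rintro ⟨N', h1, he, hb⟩
    have hN : N = N' := by
      have := congrArg List.length he
      simpa using this
    subst hN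
    exact ⟨h1, hb⟩
  · rintro ⟨h1, h2⟩
    exact ⟨N, h1, rfl, h2⟩

theorem bits_len_le (N : ℕ) : (Nat.bits N).length ≤ N := by
  rw [bits_len]
  exact Nat.size_le.2 Nat.lt_two_pow_self

theorem isPSPACE_TL {A : Oracle} {L : Set (List Bool)} {c₀ : ℕ}
    (hL : IsPSPACE A {y | 2 ^ (c₀ * ((unpair y).1.length + 1)) ≤ (unpair y).2.length ∧
      (unpair y).1 ∈ L}) (G : Dig)
    (hG : ∀ N, G.mn ≤ N → 2 ^ G.ka N ≤ N ∧ 2 ^ (c₀ * (G.ka N + 1)) ≤ N) :
    IsPSPACE A (TL G L) := by
  classical
  have h1 : Poly (fun z : List Bool => (unpair z).1) := Poly.fst poly_unpair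
  have h2 : Poly (fun z : List Bool => (unpair z).2) := Poly.snd poly_unpair
  have h22 : Poly (fun z : List Bool => (unpair (unpair z).2).2) := h2.comp h2
  have hv : Poly (fun z : List Bool => valB (unpair z).1) := Poly.valBits h1
  have hg : Poly (fun s : List Bool =>
      pairBits (U1.cand (valB (unpair s).1)) (unpair (unpair s).2).2) :=
    poly_pairBits (U1.poly_cand.comp hv) h22
  have hka : UPoly (fun z : List Bool => G.ka z.length) := G.upoly (Poly.length Poly.id)
  have hka2 : UPoly (fun z : List Bool => G.ka (unpair z).2.length) := G.upoly (Poly.length h2)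
  have hka22 : UPoly (fun z : List Bool => G.ka (unpair (unpair z).2).2.length) :=
    G.upoly (Poly.length h22)
  -- the wrong entries
  have hφ3 : Poly (fun p : List Bool × Bool =>
      decide (valB (unpair p.1).1 < 2 ^ G.ka (unpair (unpair p.1).2).2.length) &&
        decide ((unpair (unpair p.1).2).1[valB (unpair p.1).1]? ≠ some p.2)) := by
    have f1 : Poly (fun p : List Bool × Bool => p.1) := Poly.fst Poly.id
    refine Poly.and (Poly.decide_lt (hv.comp f1) ((A4.poly_two_pow hka22).comp f1)) ?_
    refine Poly.decide_not (Poly.decide_eq (Poly.getElem? ((h1.comp h2).comp f1)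
      (hv.comp f1)) (Poly.some (Poly.snd Poly.id)))
  have hL3 := spPost (hL.precomp hg) (φ := fun s b =>
      decide (valB (unpair s).1 < 2 ^ G.ka (unpair (unpair s).2).2.length) &&
        decide ((unpair (unpair s).2).1[valB (unpair s).1]? ≠ some b)) hφ3
  have hL4 := hL3.exists_short (UPoly.length (Poly.id (α := List Bool)))
  have hψ : Poly (fun v : List Bool => decide ((unpair v).2.all (fun b => b) = true) &&
      (decide (G.mn ≤ (unpair v).2.length) &&
      (decide ((unpair v).1.length = 2 ^ G.ka (unpair v).2.length) &&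
      G.Dz (unpair v).2.length (unpair v).1 (unpair v).2.length))) := by
    refine Poly.and (Poly.decide_bool (Poly.all (p := fun _ b => b) h2 (Poly.snd Poly.id)))
      (Poly.and (Poly.decide_le (NPC.Poly.const G.mn) (Poly.length h2))
      (Poly.and (Poly.decide_eq (Poly.length h1) (A4.poly_two_pow hka2)) ?_))
    exact G.poly (UPoly.length h2) (Poly.length h2) h1
  have hφ5 : Poly (fun p : List Bool × Bool => !p.2 && (decide ((unpair p.1).2.all
      (fun b => b) = true) &&
      (decide (G.mn ≤ (unpair p.1).2.length) &&
      (decide ((unpair p.1).1.length = 2 ^ G.ka (unpair p.1).2.length) &&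
      G.Dz (unpair p.1).2.length (unpair p.1).1 (unpair p.1).2.length)))) :=
    Poly.and (Poly.not (Poly.snd Poly.id)) (hψ.comp (Poly.fst Poly.id))
  have hL5 := spPost hL4 (φ := fun v b => !b && (decide ((unpair v).2.all (fun b => b) = true) &&
      (decide (G.mn ≤ (unpair v).2.length) &&
      (decide ((unpair v).1.length = 2 ^ G.ka (unpair v).2.length) &&
      G.Dz (unpair v).2.length (unpair v).1 (unpair v).2.length)))) hφ5
  have hL6 := hL5.exists_short (UPoly.length (Poly.id (α := List Bool)))
  convert hL6 using 1
  ext z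
  simp only [Set.mem_ofPred_eq, Bool.and_eq_true, Bool.not_eq_true', decide_eq_true_iff,
    decide_eq_false_iff_not, unpair_pairBits, TL]
  have hall : z = List.replicate z.length true ↔ z.all (fun b => b) = true := by
    rw [List.eq_replicate_iff, List.all_eq_true]
    simp
  have hcand : ∀ (k i : ℕ), i < 2 ^ k → (U1.cand i).length ≤ k := by
    intro k i hi
    rw [U1.length_cand, bits_len]
    have := Nat.size_le.2 hi
    omega
  constructor
  · rintro ⟨N, hN1, rfl, hb⟩
    have hN : (List.replicate N true).length = N := List.length_replicate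
    obtain ⟨g1, g2⟩ := hG N hN1
    refine ⟨tb L (G.ka N), ?_, ?_, ?_, ?_, ?_, ?_⟩
    · rw [length_tb, hN]
      exact g1
    · rintro ⟨x, _, hx1, hx2⟩
      rw [hN] at hx1
      apply hx2
      rw [tb_get L hx1]
      congr 1
      rw [decide_eq_decide]
      constructor
      · intro h
        refine ⟨?_, h⟩
        rw [hN]
        refine le_trans (Nat.pow_le_pow_right (by norm_num) (Nat.mul_le_mul_left _ ?_)) g2
        have := hcand _ _ hx1
        omega
      · exact fun h => h.2
    · simp
    · rw [hN]; exact hN1
    · rw [hN, length_tb]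
    · rw [hN, G.eq _ _ _ hN1 le_rfl]
      exact hb
  · rintro ⟨W, _, h3, hz, hd, hlen, hb⟩
    obtain ⟨g1, g2⟩ := hG _ hd
    refine ⟨z.length, hd, hall.2 hz, ?_⟩
    have hW : W = tb L (G.ka z.length) := by
      rw [tb_iff]
      refine ⟨hlen, fun i hi => ?_⟩
      by_contra hne
      apply h3
      refine ⟨Nat.bits i, ?_, ?_, ?_⟩
      · rw [Pool.Agent.H620R2.Gauge.A2.length_pairBits, bits_len]
        have e1 := Nat.size_le.2 hi
        have e2 : G.ka z.length < 2 ^ G.ka z.length := Nat.lt_two_pow_self
        omega
      · rw [valB_bits]; exact hi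
      · rw [valB_bits]
        intro h
        apply hne
        rw [h]
        congr 1
        rw [decide_eq_decide]
        constructor
        · exact fun h => h.2
        · intro h
          refine ⟨?_, h⟩
          refine le_trans (Nat.pow_le_pow_right (by norm_num) (Nat.mul_le_mul_left _ ?_)) g2
          have := hcand _ _ hi
          omega
    rw [← hW, ← G.eq _ _ _ hd le_rfl]
    exact hb

open Classical in
/-- the number of the places between `lo` and `hi` where the digit is one and which belong
to `S` -/
noncomputable def cg (G : Dig) (S : Set (List Bool)) (W : List Bool) (lo hi : ℕ) : ℕ :=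
  ((Finset.Ico lo hi).filter
    (fun N => (G.mn ≤ N ∧ G.D (W.take (2 ^ G.ka N)) N = true) ∧ List.replicate N true ∈ S)).card

/-- the queries; `v` contains the table and the place `M`, the input and the padding -/
def qryG (G : Dig) (lo hi : ℕ → ℕ → ℕ) (v : List Bool) : List (List Bool) :=
  ((List.range ((unpair (unpair v).2).2.length + 1)).filter fun N =>
    decide (lo (unpair (unpair v).2).1.length
      (min (unpair (unpair v).1).2.length (unpair (unpair v).2).2.length) ≤ N) &&
    (decide (N < hi (unpair (unpair v).2).1.length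
      (min (unpair (unpair v).1).2.length (unpair (unpair v).2).2.length)) &&
    (decide (G.mn ≤ N) &&
    G.Dz (unpair (unpair v).2).2.length ((unpair (unpair v).1).1.take (2 ^ G.ka N)) N))).map
  fun N => List.replicate (min N (unpair (unpair v).2).2.length) true

/-- the number of the positive answers which is required -/
def thrG (C n₀ : ℕ) (mi : ℕ → ℕ) (th : ℕ → ℕ → ℕ) (F : List (List Bool)) (v : List Bool) : ℕ :=
  if (unpair (unpair v).2).1.length < n₀ then
    (if (unpair (unpair v).2).1 ∈ F then 0 else (unpair (unpair v).2).2.length + 2)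
  else if ((unpair (unpair v).1).1.length = 2 ^ (C * ((unpair (unpair v).2).1.length + 1)) ∧
      (unpair (unpair v).1).1[valB ((unpair (unpair v).2).1 ++ [true])]? = some true) ∧
      (mi (unpair (unpair v).2).1.length ≤ (unpair (unpair v).1).2.length ∧
      (unpair (unpair v).1).2.length ≤ 2 ^ (C * ((unpair (unpair v).2).1.length + 1))) then
    th (unpair (unpair v).2).1.length
      (min (unpair (unpair v).1).2.length (unpair (unpair v).2).2.length)
  else (unpair (unpair v).2).2.length + 2

section

variable {lo hi th : ℕ → ℕ → ℕ} {mi : ℕ → ℕ}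

theorem poly_qryG (G : Dig)
    (hlo : ∀ {α : Type} [TEnc α] {n M : α → ℕ}, UPoly n → UPoly M →
      NPC.Poly (fun a => lo (n a) (M a)))
    (hhi : ∀ {α : Type} [TEnc α] {n M : α → ℕ}, UPoly n → UPoly M →
      NPC.Poly (fun a => hi (n a) (M a))) : NPC.Poly (qryG G lo hi) := by
  have h1 : Poly (fun z : List Bool => (unpair z).1) := Poly.fst poly_unpair
  have h2 : Poly (fun z : List Bool => (unpair z).2) := Poly.snd poly_unpair
  have hx : Poly (fun z : List Bool => (unpair (unpair z).2).1) := h1.comp h2
  have ht : Poly (fun z : List Bool => (unpair (unpair z).2).2) := h2.comp h2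
  have hW : Poly (fun z : List Bool => (unpair (unpair z).1).1) := h1.comp h1
  have hM : Poly (fun z : List Bool => (unpair (unpair z).1).2) := h2.comp h1
  have hn : UPoly (fun z : List Bool => (unpair (unpair z).2).1.length) := UPoly.length hx
  have hm : UPoly (fun z : List Bool =>
      min (unpair (unpair z).1).2.length (unpair (unpair z).2).2.length) :=
    UPoly.of_le (Poly.min (Poly.length hM) (Poly.length ht)) (UPoly.length ht)
      (fun a => min_le_right _ _)
  have f1 : Poly (fun p : List Bool × ℕ => p.1) := Poly.fst Poly.id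
  have f2 : Poly (fun p : List Bool × ℕ => p.2) := Poly.snd Poly.id
  unfold qryG
  refine NPC.Poly.map (F := fun (v : List Bool) (N : ℕ) =>
    List.replicate (min N (unpair (unpair v).2).2.length) true)
    (Poly.filter (p := fun (v : List Bool) (N : ℕ) =>
      decide (lo (unpair (unpair v).2).1.length
        (min (unpair (unpair v).1).2.length (unpair (unpair v).2).2.length) ≤ N) &&
      (decide (N < hi (unpair (unpair v).2).1.length
        (min (unpair (unpair v).1).2.length (unpair (unpair v).2).2.length)) &&
      (decide (G.mn ≤ N) &&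
      G.Dz (unpair (unpair v).2).2.length ((unpair (unpair v).1).1.take (2 ^ G.ka N)) N)))
      (UPoly.range (UPoly.add (UPoly.length ht) (UPoly.const 1))) ?_) ?_
  · refine Poly.and (Poly.decide_le ((hlo hn hm).comp f1) f2) (Poly.and
      (Poly.decide_lt f2 ((hhi hn hm).comp f1)) (Poly.and
      (Poly.decide_le (NPC.Poly.const _) f2) ?_))
    exact G.poly (UPoly.length (ht.comp f1)) f2
      (poly_take (hW.comp f1) (A4.poly_two_pow (G.upoly f2)))
  · have hl : UPoly (fun p : List Bool × ℕ => (unpair (unpair p.1).2).2.length) :=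
      UPoly.length (ht.comp f1)
    exact poly_replicate (UPoly.of_le (Poly.min f2 hl.toPoly) hl (fun a => min_le_right _ _)) true

theorem poly_thrG (C n₀ : ℕ) (F : List (List Bool))
    (hmi : ∀ {α : Type} [TEnc α] {n : α → ℕ}, UPoly n → NPC.Poly (fun a => mi (n a)))
    (hth : ∀ {α : Type} [TEnc α] {n M : α → ℕ}, UPoly n → UPoly M →
      NPC.Poly (fun a => th (n a) (M a))) : NPC.Poly (thrG C n₀ mi th F) := by
  have h1 : Poly (fun z : List Bool => (unpair z).1) := Poly.fst poly_unpair
  have h2 : Poly (fun z : List Bool => (unpair z).2) := Poly.snd poly_unpair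
  have hx : Poly (fun z : List Bool => (unpair (unpair z).2).1) := h1.comp h2
  have ht : Poly (fun z : List Bool => (unpair (unpair z).2).2) := h2.comp h2
  have hW : Poly (fun z : List Bool => (unpair (unpair z).1).1) := h1.comp h1
  have hM : Poly (fun z : List Bool => (unpair (unpair z).1).2) := h2.comp h1
  have hn : UPoly (fun z : List Bool => (unpair (unpair z).2).1.length) := UPoly.length hx
  have hm : UPoly (fun z : List Bool =>
      min (unpair (unpair z).1).2.length (unpair (unpair z).2).2.length) :=
    UPoly.of_le (Poly.min (Poly.length hM) (Poly.length ht)) (UPoly.length ht)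
      (fun a => min_le_right _ _)
  have hbig : Poly (fun z : List Bool => (unpair (unpair z).2).2.length + 2) :=
    Poly.add (Poly.length ht) (NPC.Poly.const 2)
  have hP : Poly (fun z : List Bool => 2 ^ (C * ((unpair (unpair z).2).1.length + 1))) :=
    A4.poly_two_pow (UPoly.mul (UPoly.const C) (UPoly.add hn (UPoly.const 1)))
  unfold thrG
  refine Poly.ite (Poly.decide_lt (Poly.length hx) (NPC.Poly.const n₀))
    (Poly.ite (Poly.dec_mem hx (NPC.Poly.const F)) (NPC.Poly.const 0) hbig)
    (Poly.ite (Poly.decide_and (Poly.decide_and (Poly.decide_eq (Poly.length hW) hP)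
      (Poly.decide_eq (Poly.getElem? hW (Poly.valBits (Poly.append hx (NPC.Poly.const [true]))))
      (NPC.Poly.const _))) (Poly.decide_and (Poly.decide_le (hmi hn) (Poly.length hM))
      (Poly.decide_le (Poly.length hM) hP))) (hth hn hm) hbig)

open Classical in
theorem qryG_count (G : Dig) (S : Set (List Bool)) (W x t : List Bool) {T : ℕ}
    (hT : hi x.length t.length ≤ T) (hM : t.length ≤ T) :
    ((qryG G lo hi (pairBits (pairBits W t) (pairBits x (List.replicate T true)))).filter
      fun q => decide (q ∈ S)).length = cg G S W (lo x.length t.length) (hi x.length t.length) := by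
  unfold qryG cg
  simp only [unpair_pairBits, List.length_replicate]
  rw [min_eq_left hM, List.filter_map, List.length_map, List.filter_filter, length_filter_range]
  congr 1
  ext N
  simp only [Finset.mem_filter, Finset.mem_range, Finset.mem_Ico, Bool.and_eq_true,
    decide_eq_true_iff, Function.comp]
  constructor
  · rintro ⟨_, h2, h3, h4, h5, h6⟩
    rw [min_eq_left (by omega)] at h2
    rw [G.eq _ _ _ h5 (by omega)] at h6
    exact ⟨⟨h3, h4⟩, ⟨h5, h6⟩, h2⟩
  · rintro ⟨⟨h1, h2⟩, ⟨h3, h4⟩, h5⟩
    rw [min_eq_left (by omega), G.eq _ _ _ h3 (by omega)]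
    exact ⟨by omega, h5, h1, h2, h3, h4⟩

open Classical in
theorem decodeG {A : Oracle} {L S : Set (List Bool)} (hS : IsNP A S) (G : Dig) {C n₀ : ℕ}
    (hC : 1 ≤ C)
    (hlo : ∀ {α : Type} [TEnc α] {n M : α → ℕ}, UPoly n → UPoly M →
      NPC.Poly (fun a => lo (n a) (M a)))
    (hhi : ∀ {α : Type} [TEnc α] {n M : α → ℕ}, UPoly n → UPoly M →
      NPC.Poly (fun a => hi (n a) (M a)))
    (hmi : ∀ {α : Type} [TEnc α] {n : α → ℕ}, UPoly n → NPC.Poly (fun a => mi (n a)))
    (hth : ∀ {α : Type} [TEnc α] {n M : α → ℕ}, UPoly n → UPoly M →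
      NPC.Poly (fun a => th (n a) (M a)))
    (hhi2 : ∀ n M, hi n M ≤ 2 * M)
    (ha : ∀ n, n₀ ≤ n → ∃ M, mi n ≤ M ∧ M ≤ 2 ^ (C * (n + 1)) ∧
      th n M ≤ cg G S (tb L (C * (n + 1))) (lo n M) (hi n M))
    (hb : ∀ n, n₀ ≤ n → ∀ M, mi n ≤ M → M ≤ 2 ^ (C * (n + 1)) → ∀ W : List Bool,
      W.length = 2 ^ (C * (n + 1)) →
      (∃ i < 2 ^ (n + 1), W[i]? ≠ (tb L (C * (n + 1)))[i]?) →
      cg G S W (lo n M) (hi n M) < th n M) :
    InNTime Lin A L := by
  let F : List (List Bool) := ((List.range n₀).flatMap
    (fun n => (List.range (2 ^ n)).map (bitsOf n))).filter (fun x => decide (x ∈ L))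
  have hF : ∀ x : List Bool, x.length < n₀ → (x ∈ F ↔ x ∈ L) := by
    intro x hx
    simp only [F, List.mem_filter, List.mem_flatMap, List.mem_map, List.mem_range,
      decide_eq_true_iff]
    constructor
    · exact fun h => h.2
    · intro h
      exact ⟨⟨x.length, hx, valB x, valB_lt x, bitsOf_valB x⟩, h⟩
  have h1 := npCount hS (poly_qryG G hlo hhi) (poly_thrG C n₀ F hmi hth)
    (UPoly.mul (UPoly.const 4) (UPoly.length (Poly.id (α := List Bool))))
  have hq : (Polynomial.C (C + 1) * (Polynomial.X + 1) : Polynomial ℕ) ∈ Lin := ⟨C + 1, rfl⟩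
  have h2 := Pool.Agent.H622R2.Exp.IsNP.pad good_Lin h1 hq
  convert h2 using 1
  ext x
  simp only [Set.mem_ofPred_eq]
  have hpad : padq (Polynomial.C (C + 1) * (Polynomial.X + 1)) x =
      pairBits x (List.replicate (2 ^ ((C + 1) * (x.length + 1))) true) := by
    unfold padq
    simp
  rw [hpad]
  set T := 2 ^ ((C + 1) * (x.length + 1)) with hTdef
  have hT : 2 * 2 ^ (C * (x.length + 1)) ≤ T := by
    rw [hTdef, ← pow_succ']
    apply Nat.pow_le_pow_right (by norm_num)
    nlinarith
  have hlen : (pairBits x (List.replicate T true)).length = 2 * x.length + 1 + T := by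
    rw [Pool.Agent.H620R2.Gauge.A2.length_pairBits, List.length_replicate]
    omega
  have hcb : ∀ W' : List Bool, (((qryG G lo hi (pairBits W'
      (pairBits x (List.replicate T true)))).filter fun q => decide (q ∈ S)).length) ≤ T + 1 := by
    intro W'
    refine (List.length_filter_le _ _).trans ?_
    unfold qryG
    simp only [unpair_pairBits, List.length_map]
    refine (List.length_filter_le _ _).trans ?_
    simp
  have hi1 : valB (x ++ [true]) < 2 ^ (x.length + 1) := by
    have := valB_lt (x ++ [true])
    simpa using this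
  have hi2 : valB (x ++ [true]) < 2 ^ (C * (x.length + 1)) :=
    lt_of_lt_of_le hi1 (Nat.pow_le_pow_right (by norm_num) (Nat.le_mul_of_pos_left _ hC))
  have hcand : U1.cand (valB (x ++ [true])) = x := by
    rw [U1.cand, (U1.bits_valB x).2]
    simp
  by_cases hx : x.length < n₀
  · have hthr : ∀ W' : List Bool, thrG C n₀ mi th F (pairBits W'
        (pairBits x (List.replicate T true))) = if x ∈ F then 0 else T + 2 := by
      intro W'
      unfold thrG
      simp only [unpair_pairBits, List.length_replicate]
      rw [if_pos hx]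
    constructor
    · intro h
      refine ⟨[], Nat.zero_le _, ?_⟩
      rw [hthr, if_pos ((hF x hx).2 h)]
      exact Nat.zero_le _
    · rintro ⟨W', _, hW⟩
      rw [hthr] at hW
      by_contra hcon
      rw [if_neg (fun h => hcon ((hF x hx).1 h))] at hW
      have := hcb W'
      omega
  · have hx' : n₀ ≤ x.length := by omega
    have hthr : ∀ W' : List Bool, thrG C n₀ mi th F (pairBits W'
        (pairBits x (List.replicate T true))) =
        if ((unpair W').1.length = 2 ^ (C * (x.length + 1)) ∧
          (unpair W').1[valB (x ++ [true])]? = some true) ∧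
          (mi x.length ≤ (unpair W').2.length ∧
          (unpair W').2.length ≤ 2 ^ (C * (x.length + 1))) then
          th x.length (min (unpair W').2.length T) else T + 2 := by
      intro W'
      unfold thrG
      simp only [unpair_pairBits, List.length_replicate]
      rw [if_neg hx]
    constructor
    · intro h
      obtain ⟨M, hM1, hM2, hM3⟩ := ha _ hx'
      refine ⟨pairBits (tb L (C * (x.length + 1))) (List.replicate M true), ?_, ?_⟩
      · rw [Pool.Agent.H620R2.Gauge.A2.length_pairBits, length_tb, hlen, List.length_replicate]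
        omega
      · have hMl : (List.replicate M true).length = M := List.length_replicate
        rw [hthr, unpair_pairBits]
        simp only [hMl]
        rw [if_pos, qryG_count G S _ x _ (by rw [hMl]; exact (hhi2 _ _).trans (by omega))
          (by rw [hMl]; omega), hMl, min_eq_left (by omega)]
        · exact hM3
        · refine ⟨⟨length_tb L _, ?_⟩, hM1, hM2⟩
          rw [tb_get L hi2, hcand]
          simpa using h
    · rintro ⟨W', _, hW⟩
      rw [hthr] at hW
      by_cases hcon : ((unpair W').1.length = 2 ^ (C * (x.length + 1)) ∧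
          (unpair W').1[valB (x ++ [true])]? = some true) ∧
          (mi x.length ≤ (unpair W').2.length ∧
          (unpair W').2.length ≤ 2 ^ (C * (x.length + 1)))
      · rw [if_pos hcon, min_eq_left (by omega)] at hW
        by_contra hxL
        have h3 := hb _ hx' _ hcon.2.1 hcon.2.2 _ hcon.1.1 ⟨_, hi1, by
          rw [hcon.1.2, tb_get L hi2, hcand]
          simpa using hxL⟩
        -- the queries depend on the parts only
        have h4 : qryG G lo hi (pairBits W' (pairBits x (List.replicate T true))) =
            qryG G lo hi (pairBits (pairBits (unpair W').1 (unpair W').2)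
              (pairBits x (List.replicate T true))) := by
          unfold qryG
          simp only [unpair_pairBits]
        rw [h4, qryG_count G S _ x _ ((hhi2 _ _).trans (by omega)) (by omega)] at hW
        omega
      · rw [if_neg hcon] at hW
        have := hcb W'
        omega

end

end Pool.Agent.J4H65.WA
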