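import Pool.Agent.J4H65.WA.Avg2

/-!
# Subsets in NP of tally languages
-/

namespace Pool.Agent.J4H65.WA

open Pool.Agent.NPC Pool.Agent.H622R2 Pool.Agent.H620R2.Gauge Pool.Agent.H622R2.Exp Filter

/-- the exponent of the window which contains `N` -/
def lg (N : ℕ) : ℕ := (Nat.bits N).length - 1

/-- the prime number for window number `J` -/
def q2 (J : ℕ) : ℕ := pr (2 ^ (J / 2 - 1))

/-- digit of the graph code -/
def gd (q J : ℕ) (W : List Bool) (N : ℕ) : Bool :=
  decide ((N - 2 ^ J) / q < q) && decide ((N - 2 ^ J) % q = hr q ((N - 2 ^ J) / q) W)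

theorem lg_spec {N : ℕ} (hN : 0 < N) : 2 ^ lg N ≤ N ∧ N < 2 ^ (lg N + 1) := by
  unfold lg
  rw [bits_len]
  have h1 : 0 < N.size := Nat.size_pos.2 hN
  constructor
  · apply Nat.lt_size.1
    omega
  · apply Nat.size_le.1
    omega

theorem lg_eq {N J : ℕ} (h1 : 2 ^ J ≤ N) (h2 : N < 2 ^ (J + 1)) : lg N = J := by
  unfold lg
  rw [bits_len]
  have h3 := Nat.lt_size.2 h1
  have h4 := Nat.size_le.2 h2
  omega

theorem q2_le {J : ℕ} (hJ : 2 ≤ J) : q2 J ≤ 2 ^ (J / 2) := by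
  unfold q2
  refine (pr_le (by positivity)).trans ?_
  rw [← pow_succ']
  apply Nat.pow_le_pow_right (by norm_num)
  omega

theorem q2_ge (J : ℕ) : 2 ^ (J / 2 - 1) ≤ q2 J := le_pr _

theorem q2_sq {J : ℕ} (hJ : 2 ≤ J) : q2 J * q2 J ≤ 2 ^ J := by
  calc q2 J * q2 J ≤ 2 ^ (J / 2) * 2 ^ (J / 2) := Nat.mul_le_mul (q2_le hJ) (q2_le hJ)
    _ = 2 ^ (J / 2 + J / 2) := by rw [pow_add]
    _ ≤ 2 ^ J := Nat.pow_le_pow_right (by norm_num) (by omega)

/-- the graph code; the table for window number `J` has length `2 ^ (J / (2 e))` -/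
def G2 (e a : ℕ) (ha : 2 ≤ a) : Dig where
  ka N := lg N / (2 * e)
  D W N := gd (q2 (lg N)) (lg N) W N
  Dz T W N := gd (max (prz (2 ^ (lg N / 2 - 1)) T) 1) (lg N) W N
  mn := 2 ^ a
  upoly := by
    intro α _ N hN
    have e1 : UPoly (fun a => (Nat.bits (N a)).length) := UPoly.length (NPC.Poly.natBits hN)
    refine UPoly.of_le ?_ e1 (fun z => ?_)
    · unfold lg
      exact Poly.div (Poly.sub e1.toPoly (NPC.Poly.const 1)) (NPC.Poly.const (2 * e))
    · unfold lg
      exact (Nat.div_le_self _ _).trans (Nat.sub_le _ _)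
  eq := by
    intro T W N h1 h2
    have hN0 : 0 < N := lt_of_lt_of_le (by positivity) h1
    have hJ : 2 ≤ lg N := by
      unfold lg
      rw [bits_len]
      have := Nat.lt_size.2 h1
      omega
    have h3 : pr (2 ^ (lg N / 2 - 1)) ≤ T := by
      refine (q2_le hJ).trans ((Nat.pow_le_pow_right (by norm_num) ?_).trans
        ((lg_spec hN0).1.trans h2))
      exact Nat.div_le_self _ _
    rw [prz_eq h3, max_eq_left (pr_prime _).one_lt.le]
    rfl
  poly := by
    intro α _ T N W hT hN hW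
    have e1 : UPoly (fun a => (Nat.bits (N a)).length) := UPoly.length (NPC.Poly.natBits hN)
    have hlg : UPoly (fun a => lg (N a)) := by
      refine UPoly.of_le ?_ e1 (fun z => ?_)
      · unfold lg
        exact Poly.sub e1.toPoly (NPC.Poly.const 1)
      · unfold lg
        exact Nat.sub_le _ _
    have hh : UPoly (fun a => lg (N a) / 2 - 1) := by
      refine UPoly.of_le (Poly.sub (Poly.div hlg.toPoly (NPC.Poly.const 2)) (NPC.Poly.const 1))
        hlg (fun z => (Nat.sub_le _ _).trans (Nat.div_le_self _ _))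
    have hq : NPC.Poly (fun a => prz (2 ^ (lg (N a) / 2 - 1)) (T a)) :=
      poly_prz (A4.poly_two_pow hh) hT
    have hq1 : NPC.Poly (fun a => max (prz (2 ^ (lg (N a) / 2 - 1)) (T a)) 1) :=
      Poly.max hq (NPC.Poly.const 1)
    have hr' : NPC.Poly (fun a => N a - 2 ^ lg (N a)) := Poly.sub hN (A4.poly_two_pow hlg)
    unfold gd
    exact Poly.and (Poly.decide_lt (Poly.div hr' hq1) hq1)
      (Poly.decide_eq (Poly.mod hr' hq1) (poly_hr hq (Poly.div hr' hq1) hW))

theorem hr_lt {q : ℕ} (hq : 0 < q) (u : ℕ) (W : List Bool) : hr q u W < q := by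
  cases W with
  | nil => exact hq
  | cons w W => exact Nat.mod_lt _ hq

/-- number of ones in a window -/
theorem window_ge {J : ℕ} (hJ : 2 ≤ J) (W : List Bool) :
    q2 J ≤ ((Finset.Ico (2 ^ J) (2 ^ (J + 1))).filter
      (fun N => gd (q2 J) J W N = true)).card := by
  have hq : 0 < q2 J := (pr_prime _).pos
  conv_lhs => rw [← Finset.card_range (q2 J)]
  refine Finset.card_le_card_of_injOn (fun u => 2 ^ J + (u * q2 J + hr (q2 J) u W)) ?_ ?_
  · intro u hu
    have hu' : u < q2 J := by simpa using hu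
    have hl := hr_lt hq u W
    have hsq := q2_sq hJ
    have h1 : u * q2 J + hr (q2 J) u W < q2 J * q2 J := by
      calc u * q2 J + hr (q2 J) u W < u * q2 J + q2 J := by omega
        _ = (u + 1) * q2 J := by ring
        _ ≤ q2 J * q2 J := Nat.mul_le_mul_right _ hu'
    have h2 : 2 ^ (J + 1) = 2 ^ J + 2 ^ J := by rw [pow_succ]; ring
    have h3 : (2 ^ J + (u * q2 J + hr (q2 J) u W) - 2 ^ J) = u * q2 J + hr (q2 J) u W := by omega
    have h4 : (u * q2 J + hr (q2 J) u W) / q2 J = u := by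
      rw [mul_comm, Nat.mul_add_div hq, Nat.div_eq_of_lt hl, add_zero]
    have h5 : (u * q2 J + hr (q2 J) u W) % q2 J = hr (q2 J) u W := by
      rw [mul_comm, Nat.mul_add_mod, Nat.mod_eq_of_lt hl]
    simp only [Finset.coe_filter, Finset.mem_Ico, Set.mem_ofPred_eq]
    refine ⟨⟨by omega, by omega⟩, ?_⟩
    unfold gd
    rw [h3, h4, h5]
    simpa using hu'
  · intro u hu u' hu' he
    have hl := hr_lt hq u W
    have hl' := hr_lt hq u' W
    have he' : u * q2 J + hr (q2 J) u W = u' * q2 J + hr (q2 J) u' W := by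
      simp only at he
      omega
    have h4 : (u * q2 J + hr (q2 J) u W) / q2 J = u := by
      rw [mul_comm, Nat.mul_add_div hq, Nat.div_eq_of_lt hl, add_zero]
    have h4' : (u' * q2 J + hr (q2 J) u' W) / q2 J = u' := by
      rw [mul_comm, Nat.mul_add_div hq, Nat.div_eq_of_lt hl', add_zero]
    rw [← h4, he', h4']

/-- number of common ones in a window -/
theorem window_le {J : ℕ} {W W' : List Bool} (h : W.length = W'.length) (hne : W ≠ W') :
    ((Finset.Ico (2 ^ J) (2 ^ (J + 1))).filter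
      (fun N => gd (q2 J) J W N = true ∧ gd (q2 J) J W' N = true)).card ≤ W.length := by
  have hp : (q2 J).Prime := pr_prime _
  have : Fact (q2 J).Prime := ⟨hp⟩
  have hq : 0 < q2 J := hp.pos
  refine le_trans ?_ (card_agree (q := q2 J) h hne)
  refine Finset.card_le_card_of_injOn (fun N => (((N - 2 ^ J) / q2 J : ℕ) : ZMod (q2 J))) ?_ ?_
  · intro N hN
    simp only [Finset.coe_filter, Finset.mem_Ico, Set.mem_ofPred_eq] at hN
    obtain ⟨_, h1, h2⟩ := hN
    unfold gd at h1 h2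
    rw [Bool.and_eq_true, decide_eq_true_iff, decide_eq_true_iff] at h1 h2
    simp only [Finset.coe_filter, Finset.mem_univ, true_and, Set.mem_ofPred_eq]
    rw [← hr_cast, ← hr_cast, ← h1.2, ← h2.2]
  · intro N hN N' hN' he
    simp only [Finset.coe_filter, Finset.mem_Ico, Set.mem_ofPred_eq] at hN hN'
    obtain ⟨⟨a1, a2⟩, h1, _⟩ := hN
    obtain ⟨⟨b1, b2⟩, h2, _⟩ := hN'
    unfold gd at h1 h2
    rw [Bool.and_eq_true, decide_eq_true_iff, decide_eq_true_iff] at h1 h2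
    have e1 : (N - 2 ^ J) / q2 J = (N' - 2 ^ J) / q2 J := by
      have := (ZMod.natCast_eq_natCast_iff' _ _ _).1 he
      rw [Nat.mod_eq_of_lt h1.1, Nat.mod_eq_of_lt h2.1] at this
      exact this
    have e2 : (N - 2 ^ J) % q2 J = (N' - 2 ^ J) % q2 J := by
      rw [h1.2, h2.2, e1]
    have e3 : N - 2 ^ J = N' - 2 ^ J := by
      rw [← Nat.div_add_mod (N - 2 ^ J) (q2 J), ← Nat.div_add_mod (N' - 2 ^ J) (q2 J), e1, e2]
    omega

theorem t2_window {e a : ℕ} (ha : 2 ≤ a) (L : Set (List Bool)) (W : List Bool) {J M : ℕ}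
    (hM : M ≤ 2 ^ (J + 1))
    (hW : (W.take (2 ^ (J / (2 * e)))).length = 2 ^ (J / (2 * e)))
    (hne : W.take (2 ^ (J / (2 * e))) ≠ tb L (J / (2 * e))) :
    t2 (G2 e a ha) L W (2 ^ J) M ≤ 2 ^ (J / (2 * e)) := by
  classical
  have h1 := window_le (J := J) (hW.trans (length_tb L (J / (2 * e))).symm) hne
  rw [hW] at h1
  refine le_trans ?_ h1
  unfold t2
  apply Finset.card_le_card
  intro N hN
  rw [Finset.mem_filter, Finset.mem_Ico] at hN ⊢
  obtain ⟨⟨a1, a2⟩, _, h2, h3⟩ := hN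
  have hlg : lg N = J := lg_eq a1 (lt_of_lt_of_le a2 hM)
  have h2' : gd (q2 (lg N)) (lg N) (W.take (2 ^ (lg N / (2 * e)))) N = true := h2
  have h3' : gd (q2 (lg N)) (lg N) (tb L (lg N / (2 * e))) N = true := h3
  rw [hlg] at h2' h3'
  exact ⟨⟨a1, lt_of_lt_of_le a2 hM⟩, h2', h3'⟩

theorem t2_many {e a : ℕ} (ha : 2 ≤ a) (L : Set (List Bool)) (W : List Bool) (J₀ : ℕ) :
    ∀ J, J₀ ≤ J → (∀ j, J₀ ≤ j → j ≤ J → (W.take (2 ^ (j / (2 * e)))).length =
      2 ^ (j / (2 * e)) ∧ W.take (2 ^ (j / (2 * e))) ≠ tb L (j / (2 * e))) →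
    ∀ M, M ≤ 2 ^ (J + 1) → 2 ^ J₀ ≤ M →
      t2 (G2 e a ha) L W (2 ^ J₀) M ≤ (J + 1) * 2 ^ (J / (2 * e)) := by
  classical
  intro J hJ
  induction J, hJ using Nat.le_induction with
  | base =>
    intro hW M hM _
    refine (t2_window ha L W hM (hW _ le_rfl le_rfl).1 (hW _ le_rfl le_rfl).2).trans ?_
    exact Nat.le_mul_of_pos_left _ (Nat.succ_pos _)
  | succ J hJ ih =>
    intro hW M hM hM0
    have hmono : 2 ^ (J / (2 * e)) ≤ 2 ^ ((J + 1) / (2 * e)) :=
      Nat.pow_le_pow_right (by norm_num) (Nat.div_le_div_right (Nat.le_succ _))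
    have ih' := ih (fun j h1 h2 => hW j h1 (by omega))
    rcases Nat.le_total M (2 ^ (J + 1)) with h | h
    · refine (ih' M h hM0).trans ?_
      exact Nat.mul_le_mul (by omega) hmono
    · have i1 := ih' (2 ^ (J + 1)) le_rfl (Nat.pow_le_pow_right (by norm_num) (by omega))
      have i2 := t2_window ha L W hM (hW _ (by omega) le_rfl).1 (hW _ (by omega) le_rfl).2
      have e1 : t2 (G2 e a ha) L W (2 ^ J₀) M =
          t2 (G2 e a ha) L W (2 ^ J₀) (2 ^ (J + 1)) + t2 (G2 e a ha) L W (2 ^ (J + 1)) M := by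
        unfold t2
        exact card_filter_split _ (Nat.pow_le_pow_right (by norm_num) (by omega)) h
      rw [e1]
      have i3 : (J + 1) * 2 ^ (J / (2 * e)) ≤ (J + 1) * 2 ^ ((J + 1) / (2 * e)) :=
        Nat.mul_le_mul_left _ hmono
      have i4 : (J + 1 + 1) * 2 ^ ((J + 1) / (2 * e)) =
          (J + 1) * 2 ^ ((J + 1) / (2 * e)) + 2 ^ ((J + 1) / (2 * e)) := by ring
      omega

theorem cn_TL_ge {e a : ℕ} (ha : 2 ≤ a) (L : Set (List Bool)) {M J : ℕ} (hJ : a ≤ J)
    (hM : 2 ^ (J + 1) ≤ M) : 2 ^ (J / 2 - 1) ≤ cn (TL (G2 e a ha) L) M := by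
  classical
  rw [cn_eq]
  refine (q2_ge J).trans ((window_ge (by omega) (tb L (J / (2 * e)))).trans ?_)
  apply Finset.card_le_card
  intro N hN
  rw [Finset.mem_filter, Finset.mem_Ico] at hN
  rw [Finset.mem_filter, Finset.mem_range, mem_TL]
  obtain ⟨⟨a1, a2⟩, h1⟩ := hN
  have hlg : lg N = J := lg_eq a1 a2
  refine ⟨lt_of_lt_of_le a2 hM, ?_, ?_⟩
  · show 2 ^ a ≤ N
    exact le_trans (Nat.pow_le_pow_right (by norm_num) hJ) a1
  · show gd (q2 (lg N)) (lg N) (tb L (lg N / (2 * e))) N = true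
    rw [hlg]
    exact h1

theorem G2_space {e a c₀ : ℕ} (ha : 2 ≤ a) (he : c₀ ≤ e) (ha0 : 2 * c₀ ≤ a) :
    ∀ N, (G2 e a ha).mn ≤ N →
    2 ^ (G2 e a ha).ka N ≤ N ∧ 2 ^ (c₀ * ((G2 e a ha).ka N + 1)) ≤ N := by
  intro N hN
  have hN' : 2 ^ a ≤ N := hN
  have hN0 : 0 < N := lt_of_lt_of_le (by positivity) hN'
  have h1 := (lg_spec hN0).1
  have hJ : a ≤ lg N := by
    unfold lg
    rw [bits_len]
    have := Nat.lt_size.2 hN'
    omega
  constructor
  · refine le_trans (Nat.pow_le_pow_right (by norm_num) ?_) h1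
    exact Nat.div_le_self _ _
  · refine le_trans (Nat.pow_le_pow_right (by norm_num) ?_) h1
    show c₀ * (lg N / (2 * e) + 1) ≤ lg N
    have h2 : 2 * e * (lg N / (2 * e)) ≤ lg N := Nat.mul_div_le _ _
    have h3 : c₀ * (lg N / (2 * e)) ≤ e * (lg N / (2 * e)) := Nat.mul_le_mul_right _ he
    have h4 : 2 * (e * (lg N / (2 * e))) ≤ lg N := by rw [← mul_assoc]; exact h2
    rw [mul_add, mul_one]
    omega

end Pool.Agent.J4H65.WA
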