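import Pool.Agent.J4H65.WA.Sub

/-!
# Subsets in NP of tally languages: conclusion
-/

namespace Pool.Agent.J4H65.WA

open Pool.Agent.NPC Pool.Agent.H622R2 Pool.Agent.H620R2.Gauge Pool.Agent.H622R2.Exp Filter

theorem window_card_le (J : ℕ) (W : List Bool) :
    ((Finset.Ico (2 ^ J) (2 ^ (J + 1))).filter
      (fun N => gd (q2 J) J W N = true)).card ≤ q2 J := by
  conv_rhs => rw [← Finset.card_range (q2 J)]
  refine Finset.card_le_card_of_injOn (fun N => (N - 2 ^ J) / q2 J) ?_ ?_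
  · intro N hN
    simp only [Finset.coe_filter, Finset.mem_Ico, Set.mem_ofPred_eq] at hN
    obtain ⟨_, h1⟩ := hN
    unfold gd at h1
    rw [Bool.and_eq_true, decide_eq_true_iff, decide_eq_true_iff] at h1
    simpa using h1.1
  · intro N hN N' hN' he
    simp only [Finset.coe_filter, Finset.mem_Ico, Set.mem_ofPred_eq] at hN hN'
    obtain ⟨⟨a1, a2⟩, h1⟩ := hN
    obtain ⟨⟨b1, b2⟩, h2⟩ := hN'
    unfold gd at h1 h2
    rw [Bool.and_eq_true, decide_eq_true_iff, decide_eq_true_iff] at h1 h2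
    have e1 : (N - 2 ^ J) / q2 J = (N' - 2 ^ J) / q2 J := he
    have e2 : (N - 2 ^ J) % q2 J = (N' - 2 ^ J) % q2 J := by
      rw [h1.2, h2.2, e1]
    have e3 : N - 2 ^ J = N' - 2 ^ J := by
      rw [← Nat.div_add_mod (N - 2 ^ J) (q2 J), ← Nat.div_add_mod (N' - 2 ^ J) (q2 J), e1, e2]
    omega

theorem cn_mono (X : Set (List Bool)) {M M' : ℕ} (h : M ≤ M') : cn X M ≤ cn X M' := by
  classical
  rw [cn_eq, cn_eq]
  apply Finset.card_le_card
  intro N hN
  rw [Finset.mem_filter, Finset.mem_range] at hN ⊢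
  exact ⟨by omega, hN.2⟩

theorem cn_TL_le {e a : ℕ} (ha : 2 ≤ a) (L : Set (List Bool)) : ∀ J : ℕ,
    cn (TL (G2 e a ha) L) (2 ^ J) ≤ J * 2 ^ (J / 2) := by
  classical
  intro J
  induction J with
  | zero =>
    rw [cn_eq]
    simp only [pow_zero, zero_mul, Nat.le_zero, Finset.card_eq_zero]
    rw [Finset.filter_eq_empty_iff]
    intro N hN hmem
    rw [Finset.mem_range] at hN
    rw [mem_TL] at hmem
    have h1 : 2 ^ a ≤ N := hmem.1
    have h2 : 0 < 2 ^ a := by positivity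
    omega
  | succ J ih =>
    have hsplit : cn (TL (G2 e a ha) L) (2 ^ (J + 1)) ≤ cn (TL (G2 e a ha) L) (2 ^ J) +
        ((Finset.Ico (2 ^ J) (2 ^ (J + 1))).filter
          (fun N => List.replicate N true ∈ TL (G2 e a ha) L)).card := by
      rw [cn_eq, cn_eq]
      refine le_trans (Finset.card_le_card ?_) (Finset.card_union_le _ _)
      intro N hN
      rw [Finset.mem_filter, Finset.mem_range] at hN
      rw [Finset.mem_union, Finset.mem_filter, Finset.mem_filter, Finset.mem_range,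
        Finset.mem_Ico]
      by_cases h : N < 2 ^ J
      · exact Or.inl ⟨h, hN.2⟩
      · exact Or.inr ⟨⟨by omega, hN.1⟩, hN.2⟩
    have hw : ((Finset.Ico (2 ^ J) (2 ^ (J + 1))).filter
          (fun N => List.replicate N true ∈ TL (G2 e a ha) L)).card ≤ 2 ^ (J / 2) := by
      by_cases hJ : a ≤ J
      · refine le_trans ?_ ((window_card_le J (tb L (J / (2 * e)))).trans (q2_le (by omega)))
        apply Finset.card_le_card
        intro N hN
        rw [Finset.mem_filter, Finset.mem_Ico, mem_TL] at hN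
        rw [Finset.mem_filter, Finset.mem_Ico]
        obtain ⟨⟨a1, a2⟩, _, h3⟩ := hN
        have hlg : lg N = J := lg_eq a1 a2
        have h3' : gd (q2 (lg N)) (lg N) (tb L (lg N / (2 * e))) N = true := h3
        rw [hlg] at h3'
        exact ⟨⟨a1, a2⟩, h3'⟩
      · rw [Finset.card_eq_zero.2]
        · exact Nat.zero_le _
        · rw [Finset.filter_eq_empty_iff]
          intro N hN hmem
          rw [Finset.mem_Ico] at hN
          rw [mem_TL] at hmem
          have h1 : 2 ^ a ≤ N := hmem.1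
          have h2 : 2 ^ (J + 1) ≤ 2 ^ a := Nat.pow_le_pow_right (by norm_num) (by omega)
          omega
    have h1 : 2 ^ (J / 2) ≤ 2 ^ ((J + 1) / 2) :=
      Nat.pow_le_pow_right (by norm_num) (Nat.div_le_div_right (Nat.le_succ _))
    have h2 : J * 2 ^ (J / 2) ≤ J * 2 ^ ((J + 1) / 2) := Nat.mul_le_mul_left _ h1
    have h3 : (J + 1) * 2 ^ ((J + 1) / 2) = J * 2 ^ ((J + 1) / 2) + 2 ^ ((J + 1) / 2) := by ring
    omega

/-- exponentials and linear functions -/
theorem ev_lin {s : ℝ} (hs : 0 < s) : ∀ᶠ b : ℕ in atTop, 4 * (b : ℝ) < (2 : ℝ) ^ (s * b) := by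
  have hr : (1 : ℝ) < (2 : ℝ) ^ s := Real.one_lt_rpow (by norm_num) hs
  have h1 := tendsto_pow_const_div_const_pow_of_one_lt 1 hr
  have h2 := h1.eventually (gt_mem_nhds (show (0 : ℝ) < 1 / 4 by norm_num))
  filter_upwards [h2] with b hb
  have h3 : (2 : ℝ) ^ (s * b) = ((2 : ℝ) ^ s) ^ b := by
    rw [Real.rpow_mul (by norm_num), Real.rpow_natCast]
  rw [h3]
  have h4 : (0 : ℝ) < ((2 : ℝ) ^ s) ^ b := by positivity
  rw [div_lt_iff₀ h4, pow_one] at hb
  linarith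

theorem ev_const {s : ℝ} (hs : 0 < s) : ∀ᶠ b : ℕ in atTop, 16 ≤ (2 : ℝ) ^ (s * b) := by
  have hr : (1 : ℝ) < (2 : ℝ) ^ s := Real.one_lt_rpow (by norm_num) hs
  have h1 := tendsto_pow_atTop_atTop_of_one_lt hr
  filter_upwards [h1.eventually (eventually_ge_atTop 16)] with b hb
  have h3 : (2 : ℝ) ^ (s * b) = ((2 : ℝ) ^ s) ^ b := by
    rw [Real.rpow_mul (by norm_num), Real.rpow_natCast]
  rw [h3]
  exact hb

theorem sub_core {A : Oracle} {L : Set (List Bool)} (hL : InSpace Lin A L) {γ γ' : ℝ}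
    (hγ0 : 0 ≤ γ') (hγ : γ' < γ) (hγ1 : γ ≤ 1) :
    ∃ T : Set (List Bool), Tally T ∧ IsPSPACE A T ∧
      ((∃ S, IsNP A S ∧ (∀ᶠ N : ℕ in atTop, (cn (S \ T) N : ℝ) ≤ (cn T N : ℝ) ^ γ') ∧
        ∃ C : ℕ, ∀ᶠ N : ℕ in atTop, ∃ M : ℕ, N ≤ M ∧ M ≤ N ^ C ∧
          (cn T M : ℝ) ^ γ ≤ cn (T ∩ S) M) → InNTime Lin A L) := by
  classical
  obtain ⟨q, ⟨c₀, rfl⟩, hP⟩ := toPad hL
  simp only [Polynomial.eval_mul, Polynomial.eval_C, Polynomial.eval_add, Polynomial.eval_X,
    Polynomial.eval_one] at hP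
  have hγpos : 0 < γ := lt_of_le_of_lt hγ0 hγ
  obtain ⟨ρ, hρ1, hρ2⟩ := exists_rat_btwn (show (γ' / 2 : ℝ) < γ / 2 by linarith)
  have hρ0 : 0 < (ρ : ℝ) := lt_of_le_of_lt (by linarith) hρ1
  have hρ0' : 0 < ρ := by exact_mod_cast hρ0
  have hnum : 0 < ρ.num := Rat.num_pos.2 hρ0'
  have hden : (0 : ℝ) < ρ.den := by exact_mod_cast ρ.den_pos
  have hρe : (ρ : ℝ) * ρ.den = ρ.num.toNat := by
    have h1 : ((ρ.num.toNat : ℤ)) = ρ.num := Int.toNat_of_nonneg hnum.le
    have h2 : ((ρ.num.toNat : ℕ) : ℝ) = (ρ.num : ℝ) := by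
      rw [← Int.cast_natCast, h1]
    rw [h2]
    have h3 : (ρ : ℝ) = (ρ.num : ℝ) / ρ.den := Rat.cast_def ρ
    rw [h3]
    field_simp
  -- the exponent of the threshold
  have hex : ∀ b : ℕ, (ρ : ℝ) * b - 1 ≤ ((b * ρ.num.toNat / ρ.den : ℕ) : ℝ) ∧
      ((b * ρ.num.toNat / ρ.den : ℕ) : ℝ) ≤ ρ * b := by
    intro b
    have e : (ρ : ℝ) * b = (b * ρ.num.toNat : ℝ) / ρ.den := by
      rw [← hρe]
      field_simp
    rw [e]
    constructor
    · rw [sub_le_iff_le_add, div_le_iff₀ hden]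
      have h := Nat.lt_div_mul_add (a := b * ρ.num.toNat) ρ.den_pos
      have h' : b * ρ.num.toNat ≤ (b * ρ.num.toNat / ρ.den + 1) * ρ.den := by
        rw [add_mul, one_mul]; exact h.le
      exact_mod_cast h'
    · have := Nat.cast_div_le (α := ℝ) (m := b * ρ.num.toNat) (n := ρ.den)
      push_cast at this
      exact this
  -- the parameter `e`
  obtain ⟨e₁, he₁⟩ := exists_nat_gt (1 / (2 * (ρ : ℝ)))
  set e := e₁ + c₀ + 1 with hedef
  have he1 : 1 ≤ e := by omega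
  have heρ : 1 / (2 * (e : ℝ)) < ρ := by
    have h1 : (e₁ : ℝ) < e := by
      have : e₁ < e := by omega
      exact_mod_cast this
    have h2 : 1 / (2 * (ρ : ℝ)) < e := he₁.trans h1
    have h3 : (0 : ℝ) < e := by exact_mod_cast he1
    rw [div_lt_iff₀ (by positivity)] at h2 ⊢
    linarith
  set a := 2 * c₀ + 2 with hadef
  have ha : 2 ≤ a := by omega
  set G := G2 e a ha with hG
  refine ⟨TL G L, tally_TL G L, isPSPACE_TL hP G (G2_space ha (by omega) (by omega)), ?_⟩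
  rintro ⟨S, hS, hev1, C, hev2⟩
  obtain ⟨N₁, hN₁⟩ := eventually_atTop.1 hev1
  obtain ⟨N₀, hN₀⟩ := eventually_atTop.1 hev2
  obtain ⟨A₀, hA₀⟩ := exists_nat_gt (2 * (e : ℝ) / ρ)
  set A' := A₀ + 1 with hA'
  have hAe : 2 * (e : ℝ) ≤ ρ * A' := by
    rw [div_lt_iff₀ hρ0] at hA₀
    have : (A' : ℝ) = A₀ + 1 := by rw [hA']; push_cast; rfl
    rw [this]
    nlinarith
  have he0 : (0 : ℝ) < e := by exact_mod_cast he1
  have hAe' : 2 * e ≤ A' := by
    have h1 : (ρ : ℝ) ≤ 1 := by linarith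
    have h2 : 2 * (e : ℝ) ≤ A' := by
      have h3 : (0 : ℝ) ≤ A' := Nat.cast_nonneg _
      nlinarith
    exact_mod_cast h2
  -- the exponents
  set r₁ : ℝ := max (1 / (2 * (e : ℝ))) (γ' / 2) with hr₁
  have hr₁ρ : r₁ < ρ := max_lt heρ hρ1
  obtain ⟨b₁, hb₁⟩ := eventually_atTop.1 (ev_lin (show 0 < (ρ : ℝ) - r₁ by linarith))
  obtain ⟨b₂, hb₂⟩ := eventually_atTop.1 (ev_const (show 0 < γ / 2 - (ρ : ℝ) by linarith))
  -- the numerical facts
  have num1 : ∀ b : ℕ, b₁ ≤ b → 1 ≤ b →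
      (b : ℝ) * 2 ^ (b / (2 * e)) + ((b * 2 ^ (b / 2) : ℕ) : ℝ) ^ γ' <
        2 ^ (b * ρ.num.toNat / ρ.den) := by
    intro b hb hb0
    have h1 := hb₁ b hb
    have hb' : (1 : ℝ) ≤ b := by exact_mod_cast hb0
    have h2 : (2 : ℝ) ^ (b / (2 * e)) ≤ (2 : ℝ) ^ (r₁ * b) := by
      rw [← Real.rpow_natCast]
      apply Real.rpow_le_rpow_of_exponent_le (by norm_num)
      have h3 := Nat.cast_div_le (α := ℝ) (m := b) (n := 2 * e)
      push_cast at h3
      have h4 : (b : ℝ) / (2 * e) = 1 / (2 * (e : ℝ)) * b := by ring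
      have h5 : 1 / (2 * (e : ℝ)) * b ≤ r₁ * b :=
        mul_le_mul_of_nonneg_right (le_max_left _ _) (by linarith)
      linarith
    have h3 : ((b * 2 ^ (b / 2) : ℕ) : ℝ) ^ γ' ≤ b * (2 : ℝ) ^ (r₁ * b) := by
      push_cast
      rw [Real.mul_rpow (by linarith) (by positivity)]
      apply mul_le_mul
      · calc (b : ℝ) ^ γ' ≤ (b : ℝ) ^ (1 : ℝ) :=
              Real.rpow_le_rpow_of_exponent_le hb' (by linarith)
          _ = b := Real.rpow_one _
      · rw [← Real.rpow_natCast, ← Real.rpow_mul (by norm_num)]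
        apply Real.rpow_le_rpow_of_exponent_le (by norm_num)
        have h4 := Nat.cast_div_le (α := ℝ) (m := b) (n := 2)
        push_cast at h4
        have h5 : ((b / 2 : ℕ) : ℝ) * γ' ≤ (b : ℝ) / 2 * γ' := mul_le_mul_of_nonneg_right h4 hγ0
        have h6 : γ' / 2 * b ≤ r₁ * b :=
          mul_le_mul_of_nonneg_right (le_max_right _ _) (by linarith)
        linarith
      · positivity
      · linarith
    have h4 : (2 : ℝ) ^ ((ρ : ℝ) * b - 1) ≤ 2 ^ (b * ρ.num.toNat / ρ.den) := by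
      rw [← Real.rpow_natCast]
      exact Real.rpow_le_rpow_of_exponent_le (by norm_num) (hex b).1
    have h5 : (2 : ℝ) ^ ((ρ : ℝ) * b - 1) = (2 : ℝ) ^ (((ρ : ℝ) - r₁) * b) *
        (2 : ℝ) ^ (r₁ * b) / 2 := by
      rw [← Real.rpow_add (by norm_num), Real.rpow_sub (by norm_num), Real.rpow_one]
      congr 2
      ring
    rw [h5] at h4
    have h6 : (0 : ℝ) < (2 : ℝ) ^ (r₁ * b) := by positivity
    have h7 : (b : ℝ) * 2 ^ (b / (2 * e)) ≤ b * (2 : ℝ) ^ (r₁ * b) :=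
      mul_le_mul_of_nonneg_left h2 (by linarith)
    have h8 := mul_lt_mul_of_pos_right h1 h6
    linarith
  have num2 : ∀ b n : ℕ, b₂ ≤ b → 5 ≤ b → A' * (n + 1) ≤ b →
      (2 : ℝ) ^ (b * ρ.num.toNat / ρ.den) + 2 ^ (2 * e * (n + 1)) ≤
        ((2 ^ ((b - 2) / 2 - 1) : ℕ) : ℝ) ^ γ := by
    intro b n hb hb5 hbA
    have h1 := hb₂ b hb
    have hb' : (5 : ℝ) ≤ b := by exact_mod_cast hb5
    have h2 : (2 : ℝ) ^ (b * ρ.num.toNat / ρ.den) ≤ (2 : ℝ) ^ ((ρ : ℝ) * b) := by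
      rw [← Real.rpow_natCast]
      exact Real.rpow_le_rpow_of_exponent_le (by norm_num) (hex b).2
    have h3 : (2 : ℝ) ^ (2 * e * (n + 1)) ≤ (2 : ℝ) ^ ((ρ : ℝ) * b) := by
      rw [← Real.rpow_natCast]
      apply Real.rpow_le_rpow_of_exponent_le (by norm_num)
      push_cast
      have h4 : (A' : ℝ) * (n + 1) ≤ b := by exact_mod_cast hbA
      have h5 : (0 : ℝ) ≤ (n : ℝ) + 1 := by positivity
      calc 2 * (e : ℝ) * (n + 1) ≤ (ρ * A') * (n + 1) := mul_le_mul_of_nonneg_right hAe h5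
        _ = ρ * (A' * (n + 1)) := by ring
        _ ≤ ρ * b := mul_le_mul_of_nonneg_left h4 hρ0.le
    have h4 : (2 : ℝ) ^ (γ * ((b : ℝ) - 5) / 2) ≤ ((2 ^ ((b - 2) / 2 - 1) : ℕ) : ℝ) ^ γ := by
      push_cast
      rw [← Real.rpow_natCast, ← Real.rpow_mul (by norm_num)]
      apply Real.rpow_le_rpow_of_exponent_le (by norm_num)
      have h5 : b ≤ 2 * ((b - 2) / 2 - 1) + 5 := by omega
      have h6 : (b : ℝ) ≤ 2 * (((b - 2) / 2 - 1 : ℕ) : ℝ) + 5 := by exact_mod_cast h5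
      have h7 : ((b : ℝ) - 5) / 2 ≤ (((b - 2) / 2 - 1 : ℕ) : ℝ) := by linarith
      have h8 := mul_le_mul_of_nonneg_left h7 hγpos.le
      linarith
    refine le_trans ?_ h4
    have h5 : (2 : ℝ) ^ (γ * ((b : ℝ) - 5) / 2) = (2 : ℝ) ^ ((γ / 2 - (ρ : ℝ)) * b) *
        (2 : ℝ) ^ ((ρ : ℝ) * b) * (2 : ℝ) ^ (-(5 * γ / 2)) := by
      rw [← Real.rpow_add (by norm_num), ← Real.rpow_add (by norm_num)]
      congr 1
      ring
    have h6 : (1 / 8 : ℝ) ≤ (2 : ℝ) ^ (-(5 * γ / 2)) := by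
      have h7 : (2 : ℝ) ^ (-3 : ℝ) ≤ (2 : ℝ) ^ (-(5 * γ / 2)) :=
        Real.rpow_le_rpow_of_exponent_le (by norm_num) (by linarith)
      have h8 : (2 : ℝ) ^ (-3 : ℝ) = 1 / 8 := by
        rw [Real.rpow_neg (by norm_num)]
        norm_num
      linarith
    rw [h5]
    have h7 : (0 : ℝ) < (2 : ℝ) ^ ((ρ : ℝ) * b) := by positivity
    have h8 : 16 * (2 : ℝ) ^ ((ρ : ℝ) * b) ≤ (2 : ℝ) ^ ((γ / 2 - (ρ : ℝ)) * b) *
        (2 : ℝ) ^ ((ρ : ℝ) * b) := mul_le_mul_of_nonneg_right h1 h7.le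
    have h9 : 16 * (2 : ℝ) ^ ((ρ : ℝ) * b) * (1 / 8) ≤ (2 : ℝ) ^ ((γ / 2 - (ρ : ℝ)) * b) *
        (2 : ℝ) ^ ((ρ : ℝ) * b) * (2 : ℝ) ^ (-(5 * γ / 2)) := by
      apply mul_le_mul h8 h6 (by norm_num) (by positivity)
    linarith
  set C' := C * A' + 1 with hC'
  refine decodeG (L := L) hS G (C := C') (n₀ := max (max b₁ b₂) (max (max N₀ N₁) (a + 5)))
    (by omega) (lo := fun n _ => 2 ^ (2 * e * (n + 1))) (hi := fun _ M => M)
    (mi := fun n => 2 ^ (A' * (n + 1)))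
    (th := fun _ M => 2 ^ ((Nat.bits M).length * ρ.num.toNat / ρ.den))
    ?_ ?_ ?_ ?_ ?_ ?_ ?_
  · intro α _ n M hn hM
    exact A4.poly_two_pow (UPoly.mul (UPoly.const _) (UPoly.add hn (UPoly.const 1)))
  · intro α _ n M hn hM
    exact hM.toPoly
  · intro α _ n hn
    exact A4.poly_two_pow (UPoly.mul (UPoly.const _) (UPoly.add hn (UPoly.const 1)))
  · intro α _ n M hn hM
    have e1 : UPoly (fun a => (Nat.bits (M a)).length) :=
      UPoly.length (NPC.Poly.natBits hM.toPoly)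
    have e2 := UPoly.mul e1 (UPoly.const ρ.num.toNat)
    exact A4.poly_two_pow (UPoly.of_le (Poly.div e2.toPoly (NPC.Poly.const ρ.den)) e2
      (fun a => Nat.div_le_self _ _))
  · intro n M
    show M ≤ 2 * M
    omega
  · -- completeness
    intro n hn
    have hn1 : b₂ ≤ n := (le_max_right _ _).trans ((le_max_left _ _).trans hn)
    have hn2 : N₀ ≤ n := (le_max_left _ _).trans ((le_max_left _ _).trans
      ((le_max_right _ _).trans hn))
    have hn3 : a + 5 ≤ n := (le_max_right _ _).trans ((le_max_right _ _).trans hn)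
    have hbig : n ≤ 2 ^ (A' * (n + 1)) := by
      calc n ≤ 2 ^ n := Nat.lt_two_pow_self.le
        _ ≤ 2 ^ (A' * (n + 1)) := Nat.pow_le_pow_right (by norm_num) (by nlinarith)
    obtain ⟨M, hM1, hM2, hM3⟩ := hN₀ _ (hn2.trans hbig)
    have hMC : M ≤ 2 ^ (C' * (n + 1)) := by
      refine hM2.trans ?_
      rw [← pow_mul]
      apply Nat.pow_le_pow_right (by norm_num)
      rw [hC']
      calc (A' * (n + 1)) * C = (C * A') * (n + 1) := by ring
        _ ≤ (C * A' + 1) * (n + 1) := Nat.mul_le_mul_right _ (by omega)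
    refine ⟨M, hM1, hMC, ?_⟩
    show 2 ^ ((Nat.bits M).length * ρ.num.toNat / ρ.den) ≤
      cg G S (tb L (C' * (n + 1))) (2 ^ (2 * e * (n + 1))) M
    set b := (Nat.bits M).length with hb
    have hbs : b = M.size := bits_len M
    have hbA : A' * (n + 1) < b := by
      rw [hbs]; exact Nat.lt_size.2 hM1
    have hnb : n < b := by
      refine lt_of_le_of_lt ?_ hbA
      nlinarith
    have hMlo : 2 ^ (b - 2 + 1) ≤ M := by
      apply Nat.lt_size.1
      omega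
    have h1 := cn_TL_ge (e := e) ha L (J := b - 2) (by omega) hMlo
    have h2 : ((2 ^ ((b - 2) / 2 - 1) : ℕ) : ℝ) ^ γ ≤ (cn (TL G L) M : ℝ) ^ γ := by
      apply Real.rpow_le_rpow (Nat.cast_nonneg _) _ hγpos.le
      exact_mod_cast h1
    have h3 := num2 b n (by omega) (by omega) hbA.le
    have h4 : cn (TL G L ∩ S) M ≤ 2 ^ (2 * e * (n + 1)) +
        cg G S (tb L (C' * (n + 1))) (2 ^ (2 * e * (n + 1))) M := by
      rw [cn_eq]
      unfold cg
      have h0 : (Finset.range (2 ^ (2 * e * (n + 1)))).card = 2 ^ (2 * e * (n + 1)) :=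
        Finset.card_range _
      conv_rhs => rw [← h0]
      refine (Finset.card_le_card ?_).trans (Finset.card_union_le _ _)
      intro N hN
      rw [Finset.mem_filter, Finset.mem_range] at hN
      rw [Finset.mem_union, Finset.mem_range, Finset.mem_filter, Finset.mem_Ico]
      by_cases h : N < 2 ^ (2 * e * (n + 1))
      · exact Or.inl h
      · have h5 := (mem_TL G L N).1 hN.2.1
        refine Or.inr ⟨⟨by omega, hN.1⟩, ⟨h5.1, ?_⟩, hN.2.2⟩
        rw [tb_take L]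
        · exact h5.2
        · show lg N / (2 * e) ≤ _
          refine (Nat.div_le_self _ _).trans ?_
          unfold lg
          rw [bits_len]
          have := Nat.size_le.2 (lt_of_lt_of_le hN.1 hMC)
          omega
    have h5 : (cn (TL G L ∩ S) M : ℝ) ≤ 2 ^ (2 * e * (n + 1)) +
        cg G S (tb L (C' * (n + 1))) (2 ^ (2 * e * (n + 1))) M := by exact_mod_cast h4
    have h6 : (2 : ℝ) ^ (b * ρ.num.toNat / ρ.den) ≤
        cg G S (tb L (C' * (n + 1))) (2 ^ (2 * e * (n + 1))) M := by linarith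
    exact_mod_cast h6
  · -- soundness
    intro n hn M hM1 hM2 W hW hex'
    have hn1 : b₁ ≤ n := (le_max_left _ _).trans ((le_max_left _ _).trans hn)
    have hn2 : N₁ ≤ n := (le_max_right _ _).trans ((le_max_left _ _).trans
      ((le_max_right _ _).trans hn))
    have hbig : n ≤ 2 ^ (A' * (n + 1)) := by
      calc n ≤ 2 ^ n := Nat.lt_two_pow_self.le
        _ ≤ 2 ^ (A' * (n + 1)) := Nat.pow_le_pow_right (by norm_num) (by nlinarith)
    show cg G S W (2 ^ (2 * e * (n + 1))) M < 2 ^ ((Nat.bits M).length * ρ.num.toNat / ρ.den)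
    set b := (Nat.bits M).length with hb
    have hbs : b = M.size := bits_len M
    have hbA : A' * (n + 1) < b := by
      rw [hbs]; exact Nat.lt_size.2 hM1
    have hnb : n < b := by
      refine lt_of_le_of_lt ?_ hbA
      nlinarith
    have hbC : b - 1 ≤ C' * (n + 1) := by
      have : b ≤ C' * (n + 1) + 1 := by
        rw [hbs]
        apply Nat.size_le.2
        exact lt_of_le_of_lt hM2 (Nat.pow_lt_pow_right (by norm_num) (Nat.lt_succ_self _))
      omega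
    have hMb : M ≤ 2 ^ (b - 1 + 1) := by
      have : M < 2 ^ b := Nat.size_le.1 hbs.ge
      have e1 : b - 1 + 1 = b := by omega
      rw [e1]
      exact this.le
    have h2e : 2 * e * (n + 1) ≤ A' * (n + 1) := Nat.mul_le_mul_right _ hAe'
    have hWj : ∀ j, 2 * e * (n + 1) ≤ j → j ≤ b - 1 →
        (W.take (2 ^ (j / (2 * e)))).length = 2 ^ (j / (2 * e)) ∧
        W.take (2 ^ (j / (2 * e))) ≠ tb L (j / (2 * e)) := by
      intro j hj1 hj2
      have hk1 : n + 1 ≤ j / (2 * e) := by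
        rw [Nat.le_div_iff_mul_le (by omega), mul_comm]
        exact hj1
      have hk2 : j / (2 * e) ≤ C' * (n + 1) := (Nat.div_le_self _ _).trans (by omega)
      have hj3 : 2 ^ (j / (2 * e)) ≤ 2 ^ (C' * (n + 1)) := Nat.pow_le_pow_right (by norm_num) hk2
      refine ⟨by rw [List.length_take, hW, min_eq_left hj3], fun he => ?_⟩
      obtain ⟨i, hi, hne⟩ := hex'
      have hij : i < 2 ^ (j / (2 * e)) :=
        lt_of_lt_of_le hi (Nat.pow_le_pow_right (by norm_num) hk1)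
      apply hne
      have e1 : (W.take (2 ^ (j / (2 * e))))[i]? = W[i]? := List.getElem?_take_of_lt hij
      rw [← e1, he, ← tb_take L hk2, List.getElem?_take_of_lt hij]
    have h1 := t2_many ha L W (2 * e * (n + 1)) (b - 1) (by omega) hWj M hMb
      ((Nat.pow_le_pow_right (by norm_num) h2e).trans hM1)
    have h2 : (b - 1 + 1) * 2 ^ ((b - 1) / (2 * e)) ≤ b * 2 ^ (b / (2 * e)) := by
      apply Nat.mul_le_mul (by omega)
      exact Nat.pow_le_pow_right (by norm_num) (Nat.div_le_div_right (by omega))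
    have h3 : cg G S W (2 ^ (2 * e * (n + 1))) M ≤ t2 G L W (2 ^ (2 * e * (n + 1))) M +
        cn (S \ TL G L) M := cg_le_t2 (L := L) W _ _
    have h4 := hN₁ M (hn2.trans (hbig.trans hM1))
    have h5 : (cn (TL G L) M : ℝ) ^ γ' ≤ ((b * 2 ^ (b / 2) : ℕ) : ℝ) ^ γ' := by
      apply Real.rpow_le_rpow (Nat.cast_nonneg _) _ hγ0
      have h6 : M ≤ 2 ^ b := (Nat.size_le.1 hbs.ge).le
      exact_mod_cast (cn_mono _ h6).trans (cn_TL_le ha L b)
    have h6 := num1 b (by omega) (by omega)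
    have h7 : (t2 G L W (2 ^ (2 * e * (n + 1))) M : ℝ) ≤ b * 2 ^ (b / (2 * e)) := by
      exact_mod_cast h1.trans h2
    have h8 : (cg G S W (2 ^ (2 * e * (n + 1))) M : ℝ) ≤ t2 G L W (2 ^ (2 * e * (n + 1))) M +
        cn (S \ TL G L) M := by exact_mod_cast h3
    have h9 : (cg G S W (2 ^ (2 * e * (n + 1))) M : ℝ) < 2 ^ (b * ρ.num.toNat / ρ.den) := by
      linarith
    exact_mod_cast h9

end Pool.Agent.J4H65.WA
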