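import Pool.Agent.J4H65.WA.Sub2

/-!
# Relative and power-type approximation
-/

namespace Pool.Agent.J4H65.WA

open Pool.Agent.NPC Pool.Agent.H622R2 Pool.Agent.H620R2.Gauge Pool.Agent.H622R2.Exp Filter

/-- powers with a constant exponent -/
theorem poly_pow {α : Type} [TEnc α] {f : α → ℕ} (hf : NPC.Poly f) : ∀ k : ℕ,
    NPC.Poly (fun a => f a ^ k)
  | 0 => (NPC.Poly.const 1).congr fun a => by simp
  | k + 1 => (Poly.mul (poly_pow hf k) hf).congr fun a => by rw [pow_succ]

/-- the number of ones of the code word of the tables `w J` between `2 ^ a` and `M` -/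
def cw (a : ℕ) (w : ℕ → List Bool) (M : ℕ) : ℕ :=
  ((Finset.Ico (2 ^ a) M).filter (fun N => gd (q2 (lg N)) (lg N) (w (lg N)) N = true)).card

theorem window_part {J M : ℕ} (W W' : List Bool) :
    ((Finset.Ico (2 ^ J) M).filter (fun N => gd (q2 J) J W N = true)).card ≤
      ((Finset.Ico (2 ^ J) M).filter (fun N => gd (q2 J) J W' N = true)).card + 1 := by
  have hq : 0 < q2 J := (pr_prime _).pos
  set r := M - 2 ^ J with hr'
  have h1 : ((Finset.Ico (2 ^ J) M).filter (fun N => gd (q2 J) J W N = true)).card ≤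
      ((Finset.range (q2 J)).filter (fun u => u * q2 J < r)).card := by
    refine Finset.card_le_card_of_injOn (fun N => (N - 2 ^ J) / q2 J) ?_ ?_
    · intro N hN
      simp only [Finset.coe_filter, Finset.mem_Ico, Set.mem_ofPred_eq] at hN
      obtain ⟨⟨a1, a2⟩, h1⟩ := hN
      unfold gd at h1
      rw [Bool.and_eq_true, decide_eq_true_iff, decide_eq_true_iff] at h1
      simp only [Finset.coe_filter, Finset.mem_range, Set.mem_ofPred_eq]
      refine ⟨h1.1, ?_⟩
      have := Nat.div_mul_le_self (N - 2 ^ J) (q2 J)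
      omega
    · intro N hN N' hN' he
      simp only [Finset.coe_filter, Finset.mem_Ico, Set.mem_ofPred_eq] at hN hN'
      obtain ⟨⟨a1, a2⟩, h1⟩ := hN
      obtain ⟨⟨b1, b2⟩, h2⟩ := hN'
      unfold gd at h1 h2
      rw [Bool.and_eq_true, decide_eq_true_iff, decide_eq_true_iff] at h1 h2
      have e1 : (N - 2 ^ J) / q2 J = (N' - 2 ^ J) / q2 J := he
      have e2 : (N - 2 ^ J) % q2 J = (N' - 2 ^ J) % q2 J := by
        rw [h1.2, h2.2, e1]
      have e3 : N - 2 ^ J = N' - 2 ^ J := by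
        rw [← Nat.div_add_mod (N - 2 ^ J) (q2 J), ← Nat.div_add_mod (N' - 2 ^ J) (q2 J), e1, e2]
      omega
  have h2 : ((Finset.range (q2 J)).filter (fun u => u * q2 J < r)).card ≤
      ((Finset.range (q2 J)).filter (fun u => (u + 1) * q2 J ≤ r)).card + 1 := by
    have hsub : ((Finset.range (q2 J)).filter (fun u => u * q2 J < r)) ⊆
        insert 0 (((Finset.range (q2 J)).filter (fun u => (u + 1) * q2 J ≤ r)).image
          (fun u => u + 1)) := by
      intro u hu
      rw [Finset.mem_filter, Finset.mem_range] at hu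
      rw [Finset.mem_insert, Finset.mem_image]
      rcases Nat.eq_zero_or_pos u with h | h
      · exact Or.inl h
      · refine Or.inr ⟨u - 1, ?_, by omega⟩
        rw [Finset.mem_filter, Finset.mem_range]
        have e : u - 1 + 1 = u := by omega
        rw [e]
        exact ⟨by omega, hu.2.le⟩
    refine (Finset.card_le_card hsub).trans ((Finset.card_insert_le _ _).trans ?_)
    exact Nat.add_le_add_right Finset.card_image_le _
  have h3 : ((Finset.range (q2 J)).filter (fun u => (u + 1) * q2 J ≤ r)).card ≤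
      ((Finset.Ico (2 ^ J) M).filter (fun N => gd (q2 J) J W' N = true)).card := by
    refine Finset.card_le_card_of_injOn (fun u => 2 ^ J + (u * q2 J + hr (q2 J) u W')) ?_ ?_
    · intro u hu
      simp only [Finset.coe_filter, Finset.mem_range, Set.mem_ofPred_eq] at hu
      have hl := hr_lt hq u W'
      have h1 : u * q2 J + hr (q2 J) u W' < (u + 1) * q2 J := by
        rw [add_mul, one_mul]; omega
      have h3 : (2 ^ J + (u * q2 J + hr (q2 J) u W') - 2 ^ J) = u * q2 J + hr (q2 J) u W' := by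
        omega
      have h4 : (u * q2 J + hr (q2 J) u W') / q2 J = u := by
        rw [mul_comm, Nat.mul_add_div hq, Nat.div_eq_of_lt hl, add_zero]
      have h5 : (u * q2 J + hr (q2 J) u W') % q2 J = hr (q2 J) u W' := by
        rw [mul_comm, Nat.mul_add_mod, Nat.mod_eq_of_lt hl]
      simp only [Finset.coe_filter, Finset.mem_Ico, Set.mem_ofPred_eq]
      refine ⟨⟨by omega, by omega⟩, ?_⟩
      unfold gd
      rw [h3, h4, h5]
      simpa using hu.1
    · intro u hu u' hu' he
      have hl := hr_lt hq u W'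
      have hl' := hr_lt hq u' W'
      have he' : u * q2 J + hr (q2 J) u W' = u' * q2 J + hr (q2 J) u' W' := by
        simp only at he
        omega
      have h4 : (u * q2 J + hr (q2 J) u W') / q2 J = u := by
        rw [mul_comm, Nat.mul_add_div hq, Nat.div_eq_of_lt hl, add_zero]
      have h4' : (u' * q2 J + hr (q2 J) u' W') / q2 J = u' := by
        rw [mul_comm, Nat.mul_add_div hq, Nat.div_eq_of_lt hl', add_zero]
      rw [← h4, he', h4']
  omega

theorem cw_window {a : ℕ} (w : ℕ → List Bool) {J M : ℕ} (hM : M ≤ 2 ^ (J + 1)) (hJ : a ≤ J)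
    (hM2 : 2 ^ J ≤ M) : cw a w M = cw a w (2 ^ J) +
      ((Finset.Ico (2 ^ J) M).filter (fun N => gd (q2 J) J (w J) N = true)).card := by
  unfold cw
  rw [card_filter_split (fun N => gd (q2 (lg N)) (lg N) (w (lg N)) N = true)
    (Nat.pow_le_pow_right (by norm_num) hJ) hM2]
  congr 2
  apply Finset.filter_congr
  intro N hN
  rw [Finset.mem_Ico] at hN
  rw [lg_eq hN.1 (lt_of_lt_of_le hN.2 hM)]

theorem cw_pow {a : ℕ} (ha : 2 ≤ a) (w w' : ℕ → List Bool) : ∀ J : ℕ, a ≤ J →
    cw a w (2 ^ J) = cw a w' (2 ^ J) := by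
  intro J hJ
  induction J, hJ using Nat.le_induction with
  | base => simp [cw]
  | succ J hJ ih =>
    rw [cw_window w le_rfl hJ (Nat.pow_le_pow_right (by norm_num) (Nat.le_succ _)),
      cw_window w' le_rfl hJ (Nat.pow_le_pow_right (by norm_num) (Nat.le_succ _)), ih]
    have h1 := window_ge (J := J) (by omega) (w J)
    have h2 := window_card_le J (w J)
    have h3 := window_ge (J := J) (by omega) (w' J)
    have h4 := window_card_le J (w' J)
    omega

theorem cw_le {a : ℕ} (ha : 2 ≤ a) (w w' : ℕ → List Bool) (M : ℕ) :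
    cw a w M ≤ cw a w' M + 1 := by
  rcases Nat.lt_or_ge M (2 ^ a) with h | h
  · unfold cw
    rw [Finset.Ico_eq_empty (by omega)]
    simp
  · have hM0 : 0 < M := lt_of_lt_of_le (by positivity) h
    obtain ⟨h1, h2⟩ := lg_spec hM0
    have hJ : a ≤ lg M := by
      unfold lg
      rw [bits_len]
      have := Nat.lt_size.2 h
      omega
    rw [cw_window w h2.le hJ h1, cw_window w' h2.le hJ h1, cw_pow ha w w' _ hJ]
    have := window_part (J := lg M) (M := M) (w (lg M)) (w' (lg M))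
    omega

theorem cn_eq_cw {e a : ℕ} (ha : 2 ≤ a) (L : Set (List Bool)) (M : ℕ) :
    cn (TL (G2 e a ha) L) M = cw a (fun J => tb L (J / (2 * e))) M := by
  classical
  rw [cn_eq]
  unfold cw
  congr 1
  ext N
  rw [Finset.mem_filter, Finset.mem_filter, Finset.mem_range, Finset.mem_Ico, mem_TL]
  constructor
  · rintro ⟨h1, h2, h3⟩
    exact ⟨⟨h2, h1⟩, h3⟩
  · rintro ⟨⟨h1, h2⟩, h3⟩
    exact ⟨h2, h1, h3⟩

/-- the number of ones of the code word of the empty table -/
def ez (e a : ℕ) (ha : 2 ≤ a) (M : ℕ) : ℕ :=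
  ((List.range M).filter (fun N => decide (2 ^ a ≤ N) && (G2 e a ha).Dz M [] N)).length

theorem ez_eq (e a : ℕ) (ha : 2 ≤ a) (M : ℕ) : ez e a ha M = cw a (fun _ => []) M := by
  unfold ez cw
  rw [length_filter_range]
  congr 1
  ext N
  rw [Finset.mem_filter, Finset.mem_filter, Finset.mem_range, Finset.mem_Ico, Bool.and_eq_true,
    decide_eq_true_iff]
  constructor
  · rintro ⟨h1, h2, h3⟩
    rw [(G2 e a ha).eq _ _ _ h2 h1.le] at h3
    exact ⟨⟨h2, h1⟩, h3⟩
  · rintro ⟨⟨h1, h2⟩, h3⟩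
    refine ⟨h2, h1, ?_⟩
    rw [(G2 e a ha).eq _ _ _ h1 h2.le]
    exact h3

theorem poly_ez (e a : ℕ) (ha : 2 ≤ a) {α : Type} [TEnc α] {M : α → ℕ} (hM : UPoly M) :
    UPoly (fun x => ez e a ha (M x)) := by
  unfold ez
  refine UPoly.length (Poly.filter (p := fun (x : α) (N : ℕ) =>
    decide (2 ^ a ≤ N) && (G2 e a ha).Dz (M x) [] N) (UPoly.range hM) ?_)
  have f1 : NPC.Poly (fun p : α × ℕ => p.1) := NPC.Poly.fst NPC.Poly.id
  have f2 : NPC.Poly (fun p : α × ℕ => p.2) := NPC.Poly.snd NPC.Poly.id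
  exact Poly.and (Poly.decide_le (NPC.Poly.const _) f2)
    ((G2 e a ha).poly (UPoly.comp hM f1) f2 (NPC.Poly.const []))

/-- the threshold: the least `t` with `P ^ g₂ E ^ g₁ < (R t) ^ g₂` -/
def tr (P R g₁ g₂ E : ℕ) : ℕ :=
  ((List.range (P * E + 2)).filter (fun t => decide (P ^ g₂ * E ^ g₁ < (R * t) ^ g₂))).head?.getD 0

theorem tr_le {P R g₁ g₂ E : ℕ} (hR : 0 < R) (hg : g₁ ≤ g₂) (hg1 : 0 < g₁) (k : ℕ) :
    tr P R g₁ g₂ E ≤ k ↔ P ^ g₂ * E ^ g₁ < (R * k) ^ g₂ := by
  have hex : P ^ g₂ * E ^ g₁ < (R * (P * E + 1)) ^ g₂ := by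
    calc P ^ g₂ * E ^ g₁ ≤ (P * E) ^ g₂ := by
          rw [mul_pow]
          rcases Nat.eq_zero_or_pos E with h | h
          · subst h
            rw [zero_pow (by omega)]; simp
          · exact Nat.mul_le_mul_left _ (Nat.pow_le_pow_right h hg)
      _ < (P * E + 1) ^ g₂ := Nat.pow_lt_pow_left (Nat.lt_succ_self _) (by omega)
      _ ≤ (R * (P * E + 1)) ^ g₂ := Nat.pow_le_pow_left (Nat.le_mul_of_pos_left _ hR) _
  have hexi : ∃ t, P ^ g₂ * E ^ g₁ < (R * t) ^ g₂ := ⟨_, hex⟩
  have htr : tr P R g₁ g₂ E = Nat.find hexi := by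
    unfold tr
    rw [List.head?_filter]
    have h1 : (List.range (P * E + 2)).find?
        (fun t => decide (P ^ g₂ * E ^ g₁ < (R * t) ^ g₂)) = some (Nat.find hexi) := by
      rw [List.find?_range_eq_some]
      refine ⟨by simpa using Nat.find_spec hexi, List.mem_range.2 ?_, ?_⟩
      · have := Nat.find_min' hexi hex
        omega
      · intro j hj
        have := Nat.find_min hexi hj
        simpa using this
    rw [h1]
    rfl
  rw [htr]
  constructor
  · intro h
    refine lt_of_lt_of_le (Nat.find_spec hexi) ?_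
    exact Nat.pow_le_pow_left (Nat.mul_le_mul_left _ h) _
  · intro h
    exact Nat.find_min' hexi h

theorem poly_tr (P R g₁ g₂ : ℕ) {α : Type} [TEnc α] {E : α → ℕ} (hE : UPoly E) :
    NPC.Poly (fun a => tr P R g₁ g₂ (E a)) := by
  unfold tr
  refine Poly.optGetD (Poly.head? (Poly.filter (p := fun (x : α) (t : ℕ) =>
    decide (P ^ g₂ * E x ^ g₁ < (R * t) ^ g₂)) (UPoly.range (UPoly.add (UPoly.mul
    (UPoly.const P) hE) (UPoly.const 2))) ?_)) (NPC.Poly.const 0)
  have f1 : NPC.Poly (fun p : α × ℕ => p.1) := NPC.Poly.fst NPC.Poly.id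
  have f2 : NPC.Poly (fun p : α × ℕ => p.2) := NPC.Poly.snd NPC.Poly.id
  exact Poly.decide_lt (Poly.mul (NPC.Poly.const _) (poly_pow (hE.toPoly.comp f1) g₁))
    (poly_pow (Poly.mul (NPC.Poly.const R) f2) g₂)

/-- the threshold in terms of real numbers -/
theorem tr_real {P R g₁ g₂ E : ℕ} (hR : 0 < R) (hg : g₁ ≤ g₂) (hg1 : 0 < g₁) (k : ℕ) {γ : ℝ}
    (hγ : γ * g₂ = g₁) :
    tr P R g₁ g₂ E ≤ k ↔ (P : ℝ) * (E : ℝ) ^ γ < R * k := by
  have hg2 : 0 < g₂ := by omega
  rw [tr_le hR hg hg1]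
  have h1 : ((E : ℝ) ^ γ) ^ g₂ = (E : ℝ) ^ g₁ := by
    rw [← Real.rpow_natCast, ← Real.rpow_mul (Nat.cast_nonneg _), hγ, Real.rpow_natCast]
  have h2 : ((P : ℝ) * (E : ℝ) ^ γ) ^ g₂ < ((R : ℝ) * k) ^ g₂ ↔
      (P : ℝ) * (E : ℝ) ^ γ < R * k := by
    apply pow_lt_pow_iff_left₀ (by positivity) (by positivity) (by omega)
  rw [← h2, mul_pow (P : ℝ), h1]
  constructor
  · intro h
    exact_mod_cast h
  · intro h
    exact_mod_cast h

end Pool.Agent.J4H65.WA
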