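import Pool.Agent.J4H65.WA.Sub3

/-!
# Relative and power-type approximation: conclusion
-/

namespace Pool.Agent.J4H65.WA

open Pool.Agent.NPC Pool.Agent.H622R2 Pool.Agent.H620R2.Gauge Pool.Agent.H622R2.Exp Filter

theorem ev_gen {s K κ : ℝ} (hs : 0 < s) (hK : 0 < K) (hκ : 0 ≤ κ) :
    ∀ᶠ b : ℕ in atTop, (b : ℝ) + κ ≤ K * (2 : ℝ) ^ (s * b) := by
  have hr : (1 : ℝ) < (2 : ℝ) ^ s := Real.one_lt_rpow (by norm_num) hs
  have h1 := tendsto_pow_const_div_const_pow_of_one_lt 1 hr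
  have h2 := h1.eventually (gt_mem_nhds (show (0 : ℝ) < K / (1 + κ) by positivity))
  filter_upwards [h2, eventually_ge_atTop 1] with b hb hb1
  have h3 : (2 : ℝ) ^ (s * b) = ((2 : ℝ) ^ s) ^ b := by
    rw [Real.rpow_mul (by norm_num), Real.rpow_natCast]
  rw [h3]
  have h4 : (0 : ℝ) < ((2 : ℝ) ^ s) ^ b := by positivity
  have h5 : (1 : ℝ) ≤ b := by exact_mod_cast hb1
  rw [pow_one, div_lt_div_iff₀ h4 (by positivity)] at hb
  nlinarith

theorem uni_core {A : Oracle} {L : Set (List Bool)} (hL : InSpace Lin A L) {g₁ g₂ : ℕ}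
    (hg1 : 0 < g₁) (hg : g₁ ≤ g₂) {γ : ℝ} (hγ : γ * g₂ = g₁) :
    ∃ T : Set (List Bool), Tally T ∧ IsPSPACE A T ∧
      ((∃ S, IsNP A S ∧ ∃ α β : ℝ, β < α ∧
        (∀ᶠ N : ℕ in atTop, (cn (S \ T) N : ℝ) ≤ β * (cn T N : ℝ) ^ γ) ∧
        ∃ C : ℕ, ∀ᶠ N : ℕ in atTop, ∃ M : ℕ, N ≤ M ∧ M ≤ N ^ C ∧
          α * (cn T M : ℝ) ^ γ ≤ cn (T ∩ S) M) → InNTime Lin A L) := by
  classical
  obtain ⟨q, ⟨c₀, rfl⟩, hP⟩ := toPad hL
  simp only [Polynomial.eval_mul, Polynomial.eval_C, Polynomial.eval_add, Polynomial.eval_X,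
    Polynomial.eval_one] at hP
  have hg1' : (0 : ℝ) < g₁ := by exact_mod_cast hg1
  have hg2' : (0 : ℝ) < g₂ := by exact_mod_cast (by omega : 0 < g₂)
  have hγpos : 0 < γ := by
    by_contra hcon
    push Not at hcon
    have := mul_nonpos_of_nonpos_of_nonneg hcon hg2'.le
    linarith
  have hγ1 : γ ≤ 1 := by
    have h1 : (g₁ : ℝ) ≤ g₂ := by exact_mod_cast hg
    rw [← hγ] at h1
    nlinarith
  -- the parameter `e`
  obtain ⟨e₁, he₁⟩ := exists_nat_gt (2 / γ)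
  set e := e₁ + c₀ + 1 with hedef
  have he1 : 1 ≤ e := by omega
  have he0 : (0 : ℝ) < e := by exact_mod_cast he1
  have heγ : 1 / (2 * (e : ℝ)) ≤ γ / 4 := by
    have h1 : (e₁ : ℝ) < e := by
      have : e₁ < e := by omega
      exact_mod_cast this
    have h2 : 2 / γ < e := he₁.trans h1
    rw [div_lt_iff₀ hγpos] at h2
    rw [div_le_iff₀ (by positivity)]
    linarith
  set a := 2 * c₀ + 2 with hadef
  have ha : 2 ≤ a := by omega
  set G := G2 e a ha with hG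
  refine ⟨TL G L, tally_TL G L, isPSPACE_TL hP G (G2_space ha (by omega) (by omega)), ?_⟩
  rintro ⟨S, hS, α, β, hαβ, hev1, C, hev2⟩
  obtain ⟨N₁, hN₁⟩ := eventually_atTop.1 hev1
  obtain ⟨N₀, hN₀⟩ := eventually_atTop.1 hev2
  -- a lower bound for the number of elements of the language
  have hlow : ∀ M b : ℕ, b = M.size → a + 3 ≤ b →
      (2 : ℝ) ^ (((b : ℝ) - 5) / 2) ≤ cn (TL G L) M := by
    intro M b hb hab
    have hMlo : 2 ^ (b - 2 + 1) ≤ M := by
      apply Nat.lt_size.1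
      omega
    have h1 := cn_TL_ge (e := e) ha L (J := b - 2) (by omega) hMlo
    have h2 : ((2 ^ ((b - 2) / 2 - 1) : ℕ) : ℝ) ≤ cn (TL G L) M := by exact_mod_cast h1
    refine le_trans ?_ h2
    push_cast
    rw [← Real.rpow_natCast]
    apply Real.rpow_le_rpow_of_exponent_le (by norm_num)
    have h5 : b ≤ 2 * ((b - 2) / 2 - 1) + 5 := by omega
    have h6 : (b : ℝ) ≤ 2 * (((b - 2) / 2 - 1 : ℕ) : ℝ) + 5 := by exact_mod_cast h5
    linarith
  have hβ0 : 0 ≤ β := by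
    by_contra hcon
    push Not at hcon
    set M := 2 ^ (max N₁ (a + 3)) with hM
    have hM1 : N₁ ≤ M := by
      calc N₁ ≤ 2 ^ N₁ := Nat.lt_two_pow_self.le
        _ ≤ M := Nat.pow_le_pow_right (by norm_num) (le_max_left _ _)
    have hMs : a + 3 ≤ M.size := by
      have : max N₁ (a + 3) < M.size := Nat.lt_size.2 le_rfl
      have h2 := le_max_right N₁ (a + 3)
      omega
    have h1 := hN₁ M hM1
    have h2 : (0 : ℝ) < cn (TL G L) M := lt_of_lt_of_le (by positivity) (hlow M _ rfl hMs)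
    have h3 : (0 : ℝ) < (cn (TL G L) M : ℝ) ^ γ := Real.rpow_pos_of_pos h2 _
    have h4 := mul_neg_of_neg_of_pos hcon h3
    have h5 : (0 : ℝ) ≤ cn (S \ TL G L) M := Nat.cast_nonneg _
    linarith
  obtain ⟨ρ, hρ1, hρ2⟩ := exists_rat_btwn hαβ
  have hρ0 : 0 < (ρ : ℝ) := lt_of_le_of_lt hβ0 hρ1
  have hρ0' : 0 < ρ := by exact_mod_cast hρ0
  have hnum : 0 < ρ.num := Rat.num_pos.2 hρ0'
  have hden : (0 : ℝ) < ρ.den := by exact_mod_cast ρ.den_pos
  have hρe : (ρ : ℝ) * ρ.den = ρ.num.toNat := by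
    have h1 : ((ρ.num.toNat : ℤ)) = ρ.num := Int.toNat_of_nonneg hnum.le
    have h2 : ((ρ.num.toNat : ℕ) : ℝ) = (ρ.num : ℝ) := by
      rw [← Int.cast_natCast, h1]
    rw [h2]
    have h3 : (ρ : ℝ) = (ρ.num : ℝ) / ρ.den := Rat.cast_def ρ
    rw [h3]
    field_simp
  -- the condition of the verifier
  have hthr : ∀ E k : ℕ, tr ρ.num.toNat ρ.den g₁ g₂ E ≤ k ↔ (ρ : ℝ) * (E : ℝ) ^ γ < k := by
    intro E k
    rw [tr_real ρ.den_pos hg hg1 k hγ, ← hρe]
    constructor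
    · intro h
      have h2 : (ρ : ℝ) * (E : ℝ) ^ γ * ρ.den < k * ρ.den := by linarith
      exact lt_of_mul_lt_mul_right h2 hden.le
    · intro h
      have := mul_lt_mul_of_pos_right h hden
      linarith
  -- constants
  obtain ⟨A₀, hA₀⟩ := exists_nat_gt (8 * (e : ℝ) / γ)
  set A' := A₀ + 1 with hA'
  have hAe : 2 * (e : ℝ) ≤ γ / 4 * A' := by
    rw [div_lt_iff₀ hγpos] at hA₀
    have : (A' : ℝ) = A₀ + 1 := by rw [hA']; push_cast; rfl
    rw [this]
    nlinarith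
  have hAe' : 2 * e ≤ A' := by
    have h2 : 2 * (e : ℝ) ≤ A' := by
      have h3 : (0 : ℝ) ≤ A' := Nat.cast_nonneg _
      nlinarith
    exact_mod_cast h2
  have hs : 0 < γ / 4 := by positivity
  obtain ⟨b₁, hb₁⟩ := eventually_atTop.1 (ev_gen hs
    (show 0 < ((ρ : ℝ) - β) * (2 : ℝ) ^ (-(7 * γ / 2)) from
      mul_pos (by linarith) (by positivity)) hβ0)
  obtain ⟨b₂, hb₂⟩ := eventually_atTop.1 (ev_gen hs
    (show 0 < (α - (ρ : ℝ)) * (2 : ℝ) ^ (-(5 * γ / 2)) from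
      mul_pos (by linarith) (by positivity)) (show (0 : ℝ) ≤ (ρ : ℝ) + 2 by linarith))
  set C' := C * A' + 1 with hC'
  refine decodeG (L := L) hS G (C := C') (n₀ := max (max b₁ b₂) (max (max N₀ N₁) (a + 7)))
    (by omega) (lo := fun n _ => 2 ^ (2 * e * (n + 1))) (hi := fun _ M => M)
    (mi := fun n => 2 ^ (A' * (n + 1)))
    (th := fun _ M => tr ρ.num.toNat ρ.den g₁ g₂ (ez e a ha M))
    ?_ ?_ ?_ ?_ ?_ ?_ ?_
  · intro α _ n M hn hM
    exact A4.poly_two_pow (UPoly.mul (UPoly.const _) (UPoly.add hn (UPoly.const 1)))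
  · intro α _ n M hn hM
    exact hM.toPoly
  · intro α _ n hn
    exact A4.poly_two_pow (UPoly.mul (UPoly.const _) (UPoly.add hn (UPoly.const 1)))
  · intro α _ n M hn hM
    exact poly_tr _ _ _ _ (poly_ez e a ha hM)
  · intro n M
    show M ≤ 2 * M
    omega
  · -- completeness
    intro n hn
    have hn1 : b₂ ≤ n := (le_max_right _ _).trans ((le_max_left _ _).trans hn)
    have hn2 : N₀ ≤ n := (le_max_left _ _).trans ((le_max_left _ _).trans
      ((le_max_right _ _).trans hn))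
    have hn3 : a + 7 ≤ n := (le_max_right _ _).trans ((le_max_right _ _).trans hn)
    have hbig : n ≤ 2 ^ (A' * (n + 1)) := by
      calc n ≤ 2 ^ n := Nat.lt_two_pow_self.le
        _ ≤ 2 ^ (A' * (n + 1)) := Nat.pow_le_pow_right (by norm_num) (by nlinarith)
    obtain ⟨M, hM1, hM2, hM3⟩ := hN₀ _ (hn2.trans hbig)
    have hMC : M ≤ 2 ^ (C' * (n + 1)) := by
      refine hM2.trans ?_
      rw [← pow_mul]
      apply Nat.pow_le_pow_right (by norm_num)
      rw [hC']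
      calc (A' * (n + 1)) * C = (C * A') * (n + 1) := by ring
        _ ≤ (C * A' + 1) * (n + 1) := Nat.mul_le_mul_right _ (by omega)
    refine ⟨M, hM1, hMC, ?_⟩
    show tr ρ.num.toNat ρ.den g₁ g₂ (ez e a ha M) ≤
      cg G S (tb L (C' * (n + 1))) (2 ^ (2 * e * (n + 1))) M
    rw [hthr]
    set b := M.size with hb
    have hbA : A' * (n + 1) < b := Nat.lt_size.2 hM1
    have hnb : n < b := by
      refine lt_of_le_of_lt ?_ hbA
      nlinarith
    have h1 := hlow M b hb (by omega)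
    set t : ℝ := (cn (TL G L) M : ℝ) with ht
    have ht0 : 0 ≤ t := Nat.cast_nonneg _
    -- `E ≤ t + 1`
    have hE : (ez e a ha M : ℝ) ≤ t + 1 := by
      have h2 : ez e a ha M ≤ cn (TL G L) M + 1 := by
        rw [ez_eq, hG, cn_eq_cw]
        exact cw_le ha _ _ M
      rw [ht]
      exact_mod_cast h2
    have hE0 : (0 : ℝ) ≤ ez e a ha M := Nat.cast_nonneg _
    have hEγ : (ez e a ha M : ℝ) ^ γ ≤ t ^ γ + 1 := by
      refine (Real.rpow_le_rpow hE0 hE hγpos.le).trans ?_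
      have := Real.rpow_add_le_add_rpow ht0 zero_le_one hγpos.le hγ1
      rwa [Real.one_rpow] at this
    have h4 : cn (TL G L ∩ S) M ≤ 2 ^ (2 * e * (n + 1)) +
        cg G S (tb L (C' * (n + 1))) (2 ^ (2 * e * (n + 1))) M := by
      rw [cn_eq]
      unfold cg
      have h0 : (Finset.range (2 ^ (2 * e * (n + 1)))).card = 2 ^ (2 * e * (n + 1)) :=
        Finset.card_range _
      conv_rhs => rw [← h0]
      refine (Finset.card_le_card ?_).trans (Finset.card_union_le _ _)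
      intro N hN
      rw [Finset.mem_filter, Finset.mem_range] at hN
      rw [Finset.mem_union, Finset.mem_range, Finset.mem_filter, Finset.mem_Ico]
      by_cases h : N < 2 ^ (2 * e * (n + 1))
      · exact Or.inl h
      · have h5 := (mem_TL G L N).1 hN.2.1
        refine Or.inr ⟨⟨by omega, hN.1⟩, ⟨h5.1, ?_⟩, hN.2.2⟩
        rw [tb_take L]
        · exact h5.2
        · show lg N / (2 * e) ≤ _
          refine (Nat.div_le_self _ _).trans ?_
          unfold lg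
          rw [bits_len]
          have := Nat.size_le.2 (lt_of_lt_of_le hN.1 hMC)
          omega
    have h5 : (cn (TL G L ∩ S) M : ℝ) ≤ 2 ^ (2 * e * (n + 1)) +
        cg G S (tb L (C' * (n + 1))) (2 ^ (2 * e * (n + 1))) M := by exact_mod_cast h4
    have h6 : (2 : ℝ) ^ (2 * e * (n + 1)) ≤ (2 : ℝ) ^ (γ / 4 * b) := by
      rw [← Real.rpow_natCast]
      apply Real.rpow_le_rpow_of_exponent_le (by norm_num)
      push_cast
      have h4 : (A' : ℝ) * (n + 1) ≤ b := by exact_mod_cast hbA.le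
      have h5 : (0 : ℝ) ≤ (n : ℝ) + 1 := by positivity
      calc 2 * (e : ℝ) * (n + 1) ≤ (γ / 4 * A') * (n + 1) := mul_le_mul_of_nonneg_right hAe h5
        _ = γ / 4 * (A' * (n + 1)) := by ring
        _ ≤ γ / 4 * b := mul_le_mul_of_nonneg_left h4 hs.le
    have h7 : (2 : ℝ) ^ (γ * ((b : ℝ) - 5) / 2) ≤ t ^ γ := by
      have h8 := Real.rpow_le_rpow (by positivity) h1 hγpos.le
      rw [← Real.rpow_mul (by norm_num)] at h8
      have e1 : ((b : ℝ) - 5) / 2 * γ = γ * ((b : ℝ) - 5) / 2 := by ring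
      rwa [e1] at h8
    have h8 : (2 : ℝ) ^ (γ * ((b : ℝ) - 5) / 2) = (2 : ℝ) ^ (-(5 * γ / 2)) *
        (2 : ℝ) ^ (γ / 4 * b) * (2 : ℝ) ^ (γ / 4 * b) := by
      rw [← Real.rpow_add (by norm_num), ← Real.rpow_add (by norm_num)]
      congr 1
      ring
    rw [h8] at h7
    have h9 := hb₂ b (by omega)
    have h10 : (1 : ℝ) ≤ (2 : ℝ) ^ (γ / 4 * b) := Real.one_le_rpow (by norm_num) (by positivity)
    have hb0 : (0 : ℝ) ≤ b := Nat.cast_nonneg _
    have h11 : ((ρ : ℝ) + 2) * (2 : ℝ) ^ (γ / 4 * b) ≤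
        (α - (ρ : ℝ)) * (2 : ℝ) ^ (-(5 * γ / 2)) * (2 : ℝ) ^ (γ / 4 * b) *
          (2 : ℝ) ^ (γ / 4 * b) := by
      apply mul_le_mul_of_nonneg_right _ (by linarith)
      linarith
    have h12 : (α - (ρ : ℝ)) * ((2 : ℝ) ^ (-(5 * γ / 2)) * (2 : ℝ) ^ (γ / 4 * b) *
        (2 : ℝ) ^ (γ / 4 * b)) ≤ (α - (ρ : ℝ)) * t ^ γ :=
      mul_le_mul_of_nonneg_left h7 (by linarith)
    have h13 : (ρ : ℝ) * (ez e a ha M : ℝ) ^ γ ≤ ρ * (t ^ γ + 1) :=
      mul_le_mul_of_nonneg_left hEγ hρ0.le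
    have h14 : (ρ : ℝ) * 1 ≤ (ρ : ℝ) * (2 : ℝ) ^ (γ / 4 * b) :=
      mul_le_mul_of_nonneg_left h10 hρ0.le
    linarith
  · -- soundness
    intro n hn M hM1 hM2 W hW hex'
    have hn1 : b₁ ≤ n := (le_max_left _ _).trans ((le_max_left _ _).trans hn)
    have hn2 : N₁ ≤ n := (le_max_right _ _).trans ((le_max_left _ _).trans
      ((le_max_right _ _).trans hn))
    have hn3 : a + 7 ≤ n := (le_max_right _ _).trans ((le_max_right _ _).trans hn)
    have hbig : n ≤ 2 ^ (A' * (n + 1)) := by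
      calc n ≤ 2 ^ n := Nat.lt_two_pow_self.le
        _ ≤ 2 ^ (A' * (n + 1)) := Nat.pow_le_pow_right (by norm_num) (by nlinarith)
    show cg G S W (2 ^ (2 * e * (n + 1))) M < tr ρ.num.toNat ρ.den g₁ g₂ (ez e a ha M)
    rw [← not_le, hthr, not_lt]
    set b := M.size with hb
    have hbA : A' * (n + 1) < b := Nat.lt_size.2 hM1
    have hnb : n < b := by
      refine lt_of_le_of_lt ?_ hbA
      nlinarith
    have hbC : b - 1 ≤ C' * (n + 1) := by
      have : b ≤ C' * (n + 1) + 1 := by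
        apply Nat.size_le.2
        exact lt_of_le_of_lt hM2 (Nat.pow_lt_pow_right (by norm_num) (Nat.lt_succ_self _))
      omega
    have hMb : M ≤ 2 ^ (b - 1 + 1) := by
      have : M < 2 ^ b := Nat.size_le.1 le_rfl
      have e1 : b - 1 + 1 = b := by omega
      rw [e1]
      exact this.le
    have h2e : 2 * e * (n + 1) ≤ A' * (n + 1) := Nat.mul_le_mul_right _ hAe'
    have hWj : ∀ j, 2 * e * (n + 1) ≤ j → j ≤ b - 1 →
        (W.take (2 ^ (j / (2 * e)))).length = 2 ^ (j / (2 * e)) ∧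
        W.take (2 ^ (j / (2 * e))) ≠ tb L (j / (2 * e)) := by
      intro j hj1 hj2
      have hk1 : n + 1 ≤ j / (2 * e) := by
        rw [Nat.le_div_iff_mul_le (by omega), mul_comm]
        exact hj1
      have hk2 : j / (2 * e) ≤ C' * (n + 1) := (Nat.div_le_self _ _).trans (by omega)
      have hj3 : 2 ^ (j / (2 * e)) ≤ 2 ^ (C' * (n + 1)) := Nat.pow_le_pow_right (by norm_num) hk2
      refine ⟨by rw [List.length_take, hW, min_eq_left hj3], fun he => ?_⟩
      obtain ⟨i, hi, hne⟩ := hex'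
      have hij : i < 2 ^ (j / (2 * e)) :=
        lt_of_lt_of_le hi (Nat.pow_le_pow_right (by norm_num) hk1)
      apply hne
      have e1 : (W.take (2 ^ (j / (2 * e))))[i]? = W[i]? := List.getElem?_take_of_lt hij
      rw [← e1, he, ← tb_take L hk2, List.getElem?_take_of_lt hij]
    have h1 := t2_many ha L W (2 * e * (n + 1)) (b - 1) (by omega) hWj M hMb
      ((Nat.pow_le_pow_right (by norm_num) h2e).trans hM1)
    have h2 : (b - 1 + 1) * 2 ^ ((b - 1) / (2 * e)) ≤ b * 2 ^ (b / (2 * e)) := by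
      apply Nat.mul_le_mul (by omega)
      exact Nat.pow_le_pow_right (by norm_num) (Nat.div_le_div_right (by omega))
    have h3 : cg G S W (2 ^ (2 * e * (n + 1))) M ≤ t2 G L W (2 ^ (2 * e * (n + 1))) M +
        cn (S \ TL G L) M := cg_le_t2 (L := L) W _ _
    have h4 := hN₁ M (hn2.trans (hbig.trans hM1))
    have hl := hlow M b hb (by omega)
    set t : ℝ := (cn (TL G L) M : ℝ) with ht
    have ht0 : 0 ≤ t := Nat.cast_nonneg _
    -- `t ≤ E + 1`
    have hE : t ≤ (ez e a ha M : ℝ) + 1 := by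
      have h2 : cn (TL G L) M ≤ ez e a ha M + 1 := by
        rw [ez_eq, hG, cn_eq_cw]
        exact cw_le ha _ _ M
      rw [ht]
      exact_mod_cast h2
    have hE0 : (0 : ℝ) ≤ ez e a ha M := Nat.cast_nonneg _
    have hEγ : t ^ γ ≤ (ez e a ha M : ℝ) ^ γ + 1 := by
      refine (Real.rpow_le_rpow ht0 hE hγpos.le).trans ?_
      have := Real.rpow_add_le_add_rpow hE0 zero_le_one hγpos.le hγ1
      rwa [Real.one_rpow] at this
    -- a lower bound for `E`
    have hb8 : 8 ≤ b := by omega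
    have hElow : (2 : ℝ) ^ (((b : ℝ) - 7) / 2) ≤ ez e a ha M := by
      have h5 : (2 : ℝ) ^ (((b : ℝ) - 5) / 2) = 2 * (2 : ℝ) ^ (((b : ℝ) - 7) / 2) := by
        have : ((b : ℝ) - 5) / 2 = 1 + ((b : ℝ) - 7) / 2 := by ring
        rw [this, Real.rpow_add (by norm_num), Real.rpow_one]
      have h6 : (1 : ℝ) ≤ (2 : ℝ) ^ (((b : ℝ) - 7) / 2) := by
        apply Real.one_le_rpow (by norm_num)
        have : (8 : ℝ) ≤ b := by exact_mod_cast hb8
        linarith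
      linarith
    have h7 : (2 : ℝ) ^ (γ * ((b : ℝ) - 7) / 2) ≤ (ez e a ha M : ℝ) ^ γ := by
      have h8 := Real.rpow_le_rpow (by positivity) hElow hγpos.le
      rw [← Real.rpow_mul (by norm_num)] at h8
      have e1 : ((b : ℝ) - 7) / 2 * γ = γ * ((b : ℝ) - 7) / 2 := by ring
      rwa [e1] at h8
    have h8 : (2 : ℝ) ^ (γ * ((b : ℝ) - 7) / 2) = (2 : ℝ) ^ (-(7 * γ / 2)) *
        (2 : ℝ) ^ (γ / 4 * b) * (2 : ℝ) ^ (γ / 4 * b) := by
      rw [← Real.rpow_add (by norm_num), ← Real.rpow_add (by norm_num)]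
      congr 1
      ring
    rw [h8] at h7
    have h9 := hb₁ b (by omega)
    have h10 : (1 : ℝ) ≤ (2 : ℝ) ^ (γ / 4 * b) := Real.one_le_rpow (by norm_num) (by positivity)
    have hb0 : (0 : ℝ) ≤ b := Nat.cast_nonneg _
    have h6 : (2 : ℝ) ^ (b / (2 * e)) ≤ (2 : ℝ) ^ (γ / 4 * b) := by
      rw [← Real.rpow_natCast]
      apply Real.rpow_le_rpow_of_exponent_le (by norm_num)
      have h3 := Nat.cast_div_le (α := ℝ) (m := b) (n := 2 * e)
      push_cast at h3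
      have h4 : (b : ℝ) / (2 * e) = 1 / (2 * (e : ℝ)) * b := by ring
      have h5 : 1 / (2 * (e : ℝ)) * b ≤ γ / 4 * b := mul_le_mul_of_nonneg_right heγ hb0
      linarith
    have h11 : (t2 G L W (2 ^ (2 * e * (n + 1))) M : ℝ) ≤ b * 2 ^ (b / (2 * e)) := by
      exact_mod_cast h1.trans h2
    have h12 : (cg G S W (2 ^ (2 * e * (n + 1))) M : ℝ) ≤ t2 G L W (2 ^ (2 * e * (n + 1))) M +
        cn (S \ TL G L) M := by exact_mod_cast h3
    have h13 : (b : ℝ) * 2 ^ (b / (2 * e)) ≤ b * (2 : ℝ) ^ (γ / 4 * b) :=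
      mul_le_mul_of_nonneg_left h6 hb0
    have h14 : (b + β) * (2 : ℝ) ^ (γ / 4 * b) ≤
        ((ρ : ℝ) - β) * (2 : ℝ) ^ (-(7 * γ / 2)) * (2 : ℝ) ^ (γ / 4 * b) *
          (2 : ℝ) ^ (γ / 4 * b) := mul_le_mul_of_nonneg_right h9 (by linarith)
    have h15 : ((ρ : ℝ) - β) * ((2 : ℝ) ^ (-(7 * γ / 2)) * (2 : ℝ) ^ (γ / 4 * b) *
        (2 : ℝ) ^ (γ / 4 * b)) ≤ ((ρ : ℝ) - β) * (ez e a ha M : ℝ) ^ γ :=
      mul_le_mul_of_nonneg_left h7 (by linarith)
    have h16 : β * t ^ γ ≤ β * ((ez e a ha M : ℝ) ^ γ + 1) :=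
      mul_le_mul_of_nonneg_left hEγ hβ0
    have h17 : β * 1 ≤ β * (2 : ℝ) ^ (γ / 4 * b) := mul_le_mul_of_nonneg_left h10 hβ0
    linarith

end Pool.Agent.J4H65.WA
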