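import Pool.Agent.J4H65.WA.Code
import Pool.Agent.J4H65.WA.Cls
import Pool.Agent.H620R2.Gauge.U1
import Pool.Agent.H620R2.Gauge.S
import Pool.Agent.H620R2.Gauge.Event

/-!
# The tally language which encodes the tables of a language
-/

namespace Pool.Agent.J4H65.WA

open Pool.Agent.NPC Pool.Agent.H622R2 Pool.Agent.H620R2.Gauge Pool.Agent.H622R2.Exp

theorem exists_prime_ge (a : ℕ) : ∃ q, a ≤ q ∧ q.Prime := Nat.exists_infinite_primes a

/-- the least prime number which is at least `a` -/
def pr (a : ℕ) : ℕ := Nat.find (exists_prime_ge a)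

theorem pr_prime (a : ℕ) : (pr a).Prime := (Nat.find_spec (exists_prime_ge a)).2

theorem le_pr (a : ℕ) : a ≤ pr a := (Nat.find_spec (exists_prime_ge a)).1

theorem pr_le {a : ℕ} (ha : 0 < a) : pr a ≤ 2 * a := by
  obtain ⟨p, hp, h1, h2⟩ := Nat.exists_prime_lt_and_le_two_mul a ha.ne'
  exact (Nat.find_min' (exists_prime_ge a) ⟨h1.le, hp⟩).trans h2

/-- primality test for numbers which are at most `b` -/
def pt (b k : ℕ) : Bool :=
  decide (2 ≤ k) && (List.range (min k b)).all (fun d => decide (k % d ≠ 0) || decide (d = 1))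

theorem pt_iff {b k : ℕ} (h : k ≤ b) : pt b k = true ↔ k.Prime := by
  unfold pt
  rw [min_eq_left h, Bool.and_eq_true, decide_eq_true_iff, List.all_eq_true, Nat.prime_def_lt]
  refine and_congr_right fun hk => ?_
  constructor
  · intro h m hm hd
    have h1 := h m (List.mem_range.2 hm)
    rw [Bool.or_eq_true, decide_eq_true_iff, decide_eq_true_iff] at h1
    rcases h1 with h1 | h1
    · exact absurd (Nat.mod_eq_zero_of_dvd hd) h1
    · exact h1
  · intro h m hm
    rw [Bool.or_eq_true, decide_eq_true_iff, decide_eq_true_iff]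
    by_cases hd : m ∣ k
    · exact Or.inr (h m (List.mem_range.1 hm) hd)
    · exact Or.inl fun h0 => hd (Nat.dvd_of_mod_eq_zero h0)

/-- the least prime number which is at least `a`, searched for among the numbers at most `b` -/
def prz (a b : ℕ) : ℕ :=
  ((List.range (b + 1)).filter (fun k => decide (a ≤ k) && pt b k)).head?.getD 0

theorem prz_eq {a b : ℕ} (h : pr a ≤ b) : prz a b = pr a := by
  unfold prz
  rw [List.head?_filter]
  have h1 : (List.range (b + 1)).find? (fun k => decide (a ≤ k) && pt b k) = some (pr a) := by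
    rw [List.find?_range_eq_some]
    refine ⟨?_, List.mem_range.2 (by omega), ?_⟩
    · rw [Bool.and_eq_true, decide_eq_true_iff, pt_iff h]
      exact ⟨le_pr a, pr_prime a⟩
    · intro j hj
      rw [Bool.not_eq_true', Bool.and_eq_false_iff]
      by_cases h2 : a ≤ j
      · right
        rw [Bool.eq_false_iff]
        intro h3
        rw [pt_iff (by omega)] at h3
        exact Nat.find_min (exists_prime_ge a) hj ⟨h2, h3⟩
      · left
        simpa using h2
  rw [h1]
  rfl

section

variable {α : Type} [TEnc α]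

theorem poly_prz {a b : α → ℕ} (ha : NPC.Poly a) (hb : UPoly b) :
    NPC.Poly (fun x => prz (a x) (b x)) := by
  unfold prz
  refine Poly.optGetD (Poly.head? (Poly.filter (p := fun x k => decide (a x ≤ k) && pt (b x) k)
    (UPoly.range (UPoly.add hb (UPoly.const 1))) ?_)) (NPC.Poly.const 0)
  refine Poly.and (Poly.decide_le (ha.comp (NPC.Poly.fst NPC.Poly.id)) (NPC.Poly.snd NPC.Poly.id)) ?_
  unfold pt
  refine Poly.and (Poly.decide_le (NPC.Poly.const 2) (NPC.Poly.snd NPC.Poly.id)) ?_
  have hb' : UPoly (fun x : α × ℕ => b x.1) := UPoly.comp hb (NPC.Poly.fst NPC.Poly.id)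
  refine Poly.all (p := fun (x : α × ℕ) d => decide (x.2 % d ≠ 0) || decide (d = 1))
    (UPoly.range (UPoly.of_le (Poly.min (NPC.Poly.snd NPC.Poly.id) hb'.toPoly) hb'
      (fun a => min_le_right _ _))) ?_
  refine Poly.or (Poly.decide_not (Poly.decide_eq (Poly.mod
    (NPC.Poly.snd (NPC.Poly.fst NPC.Poly.id)) (NPC.Poly.snd NPC.Poly.id)) (NPC.Poly.const 0)))
    (Poly.decide_eq (NPC.Poly.snd NPC.Poly.id) (NPC.Poly.const 1))

theorem hr_le {q : ℕ} (hq : 0 < q) (u : ℕ) (W : List Bool) : hr q u W ≤ q := by
  cases W with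
  | nil => exact Nat.zero_le _
  | cons w W => exact (Nat.mod_lt _ hq).le

theorem poly_hr {q u : α → ℕ} {W : α → List Bool} (hq : NPC.Poly q) (hu : NPC.Poly u)
    (hW : NPC.Poly W) : NPC.Poly (fun a => hr (max (q a) 1) (u a) (W a)) := by
  have h0 : NPC.Poly (fun a => max (q a) 1) := Poly.max hq (NPC.Poly.const 1)
  obtain ⟨r, hr'⟩ := h0.sz_le
  unfold hr
  refine Poly.foldr (F := fun a w acc => (acc * u a + w.toNat) % max (q a) 1) hW
    (NPC.Poly.const 0) ?_ (Polynomial.C 2 * r) ?_
  · refine Poly.mod (Poly.add (Poly.mul (NPC.Poly.snd (NPC.Poly.snd NPC.Poly.id))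
      (hu.comp (NPC.Poly.fst NPC.Poly.id))) ?_) (h0.comp (NPC.Poly.fst NPC.Poly.id))
    have h1 : NPC.Poly (fun p : α × Bool × ℕ => if p.2.1 = true then 1 else 0) :=
      Poly.ite (Poly.decide_bool (NPC.Poly.fst (NPC.Poly.snd NPC.Poly.id))) (NPC.Poly.const 1)
        (NPC.Poly.const 0)
    exact h1.congr fun p => by cases p.2.1 <;> rfl
  · intro a k _
    have h1 : hr (max (q a) 1) (u a) ((W a).drop k) ≤ max (q a) 1 :=
      hr_le (lt_of_lt_of_le Nat.one_pos (le_max_right _ _)) _ _
    have h2 : sz (hr (max (q a) 1) (u a) ((W a).drop k)) ≤ 2 * sz (max (q a) 1) :=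
      sz_nat_mono_le h1
    have h3 : sz (max (q a) 1) ≤ r.eval (sz a) := hr' a
    rw [Polynomial.eval_mul, Polynomial.eval_C]
    exact h2.trans (Nat.mul_le_mul_left 2 h3)

theorem poly_bt (m : ℕ) {q N : α → ℕ} {W : α → List Bool} (hq : NPC.Poly q) (hN : NPC.Poly N)
    (hW : NPC.Poly W) : NPC.Poly (fun a => bt (max (q a) 1) m (W a) (N a)) := by
  have h0 : NPC.Poly (fun a => max (q a) 1) := Poly.max hq (NPC.Poly.const 1)
  have hd : NPC.Poly (fun a => N a / max (q a) 1) := Poly.div hN h0
  unfold bt
  refine Poly.decide_lt (Poly.mul (Poly.mod (Poly.add (Poly.mul (Poly.mod hd h0) ?_)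
    (Poly.mod (Poly.div hd h0) h0)) h0) (NPC.Poly.const m)) h0
  exact poly_hr hq (Poly.mod hN h0) hW

end

/-- the number of the block which contains `N` -/
def nn (c N : ℕ) : ℕ := ((Nat.bits N).length - 1) / c - 1

theorem bits_len (N : ℕ) : (Nat.bits N).length = N.size := (Nat.size_eq_bits_len N)

theorem div_of_block {c n N : ℕ} (_hc : 0 < c) (h1 : 2 ^ (c * (n + 1)) ≤ N)
    (h2 : N < 2 ^ (c * (n + 2))) : ((Nat.bits N).length - 1) / c = n + 1 := by
  rw [bits_len]
  have h3 := Nat.lt_size.2 h1
  have h4 := Nat.size_le.2 h2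
  have e : c * (n + 2) = c * (n + 1) + c := by ring
  rw [e] at h4
  apply Nat.div_eq_of_lt_le
  · rw [mul_comm]; omega
  · rw [Nat.succ_mul, mul_comm (n + 1) c]; omega

theorem block_of_div {c N : ℕ} (hc : 0 < c) (h : 1 ≤ ((Nat.bits N).length - 1) / c) :
    2 ^ (c * (nn c N + 1)) ≤ N ∧ N < 2 ^ (c * (nn c N + 2)) := by
  unfold nn
  generalize hk : ((Nat.bits N).length - 1) / c = k at *
  rw [bits_len] at hk
  have h1 : k - 1 + 1 = k := by omega
  have h2 : k - 1 + 2 = k + 1 := by omega
  rw [h1, h2]
  have h3 : k * c ≤ N.size - 1 := by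
    rw [← hk]; exact Nat.div_mul_le_self _ _
  have h4 : N.size - 1 < k * c + c := by
    rw [← hk]; exact Nat.lt_div_mul_add hc
  have h5 : c ≤ k * c := Nat.le_mul_of_pos_left c h
  have e : c * (k + 1) = k * c + c := by ring
  constructor
  · apply Nat.lt_size.1
    rw [mul_comm]
    omega
  · apply Nat.size_le.1
    rw [e]
    omega

open Classical in
/-- the table of the language for the strings of length `n` -/
noncomputable def tab (L : Set (List Bool)) (n : ℕ) : List Bool :=
  (List.range (2 ^ n)).map fun i => decide (bitsOf n i ∈ L)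

theorem length_tab (L : Set (List Bool)) (n : ℕ) : (tab L n).length = 2 ^ n := by
  simp [tab]

theorem len_bitsOf' (n j : ℕ) : (bitsOf n j).length = n := by
  induction n generalizing j with
  | zero => rfl
  | succ n ih => simp [bitsOf, ih]

theorem valB_bitsOf : ∀ (n j : ℕ), j < 2 ^ n → valB (bitsOf n j) = j
  | 0, j, h => by
    have : j = 0 := by simpa using h
    subst this
    rfl
  | n + 1, j, h => by
    have h1 : j / 2 < 2 ^ n := by
      rw [pow_succ] at h
      omega
    rw [bitsOf, valB_cons, valB_bitsOf n _ h1]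
    rcases Nat.mod_two_eq_zero_or_one j with h2 | h2
    · simp [h2]; omega
    · simp [h2]; omega

theorem bitsOf_valB (y : List Bool) : bitsOf y.length (valB y) = y := by
  obtain ⟨j, hj, h⟩ := exists_bitsOf y
  have h1 := valB_bitsOf y.length j hj
  rw [h] at h1
  rw [h1]
  exact h

open Classical in
theorem tab_get (L : Set (List Bool)) {n : ℕ} {x : List Bool} (hx : x.length = n) :
    (tab L n)[valB x]? = some (decide (x ∈ L)) := by
  have h1 : valB x < 2 ^ n := by rw [← hx]; exact valB_lt x
  unfold tab
  rw [List.getElem?_map, List.getElem?_range h1]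
  simp only [Option.map_some]
  rw [← hx, bitsOf_valB]

open Classical in
theorem tab_iff (L : Set (List Bool)) (n : ℕ) (W : List Bool) : W = tab L n ↔
    W.length = 2 ^ n ∧ ∀ x : List Bool, x.length = n → W[valB x]? = some (decide (x ∈ L)) := by
  constructor
  · rintro rfl
    exact ⟨length_tab L n, fun x hx => tab_get L hx⟩
  · rintro ⟨h1, h2⟩
    apply List.ext_getElem?
    intro i
    rcases Nat.lt_or_ge i (2 ^ n) with hi | hi
    · have h3 := valB_bitsOf n i hi
      have h4 := h2 (bitsOf n i) (len_bitsOf' n i)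
      have h5 := tab_get L (len_bitsOf' n i)
      rw [h3] at h4 h5
      rw [h4, h5]
    · rw [List.getElem?_eq_none (by omega), List.getElem?_eq_none (by rw [length_tab]; omega)]

/-- the tally language which encodes the tables of `L` -/
def TT (c m : ℕ) (L : Set (List Bool)) : Set (List Bool) :=
  {z | ∃ n N : ℕ, 2 ^ (c * (n + 1)) ≤ N ∧ N < 2 ^ (c * (n + 2)) ∧ z = List.replicate N true ∧
    bt (pr (4 ^ n)) m (tab L n) N = true}

theorem isPSPACE_TT {A : Oracle} {L : Set (List Bool)} {c₀ : ℕ}
    (hL : IsPSPACE A {y | 2 ^ (c₀ * ((unpair y).1.length + 1)) ≤ (unpair y).2.length ∧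
      (unpair y).1 ∈ L}) {c : ℕ} (hc : c₀ ≤ c) (hc2 : 2 ≤ c) (m : ℕ) :
    IsPSPACE A (TT c m L) := by
  classical
  have h1 : Poly (fun z : List Bool => (unpair z).1) := Poly.fst poly_unpair
  have h2 : Poly (fun z : List Bool => (unpair z).2) := Poly.snd poly_unpair
  have h22 : Poly (fun z : List Bool => (unpair (unpair z).2).2) := h2.comp h2
  have hg : Poly (fun s : List Bool => pairBits (unpair s).1 (unpair (unpair s).2).2) :=
    poly_pairBits h1 h22
  have hnn : UPoly (fun z : List Bool => nn c z.length) := by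
    have e1 : UPoly (fun z : List Bool => (Nat.bits z.length).length) :=
      UPoly.length (NPC.Poly.natBits (Poly.length Poly.id))
    refine UPoly.of_le ?_ e1 (fun z => ?_)
    · unfold nn
      exact Poly.sub (Poly.div (Poly.sub e1.toPoly (NPC.Poly.const 1)) (NPC.Poly.const c))
        (NPC.Poly.const 1)
    · unfold nn
      exact (Nat.sub_le _ _).trans ((Nat.div_le_self _ _).trans (Nat.sub_le _ _))
  have hnn2 : UPoly (fun z : List Bool => nn c (unpair z).2.length) := UPoly.comp (n := fun z : List Bool => nn c z.length) hnn h2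
  have hnn22 : UPoly (fun z : List Bool => nn c (unpair (unpair z).2).2.length) :=
    UPoly.comp (n := fun z : List Bool => nn c z.length) hnn h22
  -- the wrong entries
  have hφ3 : Poly (fun p : List Bool × Bool =>
      decide ((unpair p.1).1.length = nn c (unpair (unpair p.1).2).2.length) &&
        decide ((unpair (unpair p.1).2).1[valB (unpair p.1).1]? ≠ some p.2)) := by
    have f1 : Poly (fun p : List Bool × Bool => p.1) := Poly.fst Poly.id
    refine Poly.and (Poly.decide_eq (Poly.length (h1.comp f1)) (hnn22.toPoly.comp f1)) ?_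
    refine Poly.decide_not (Poly.decide_eq (Poly.getElem? ((h1.comp h2).comp f1)
      (Poly.valBits (h1.comp f1))) (Poly.some (Poly.snd Poly.id)))
  have hL3 := spPost (hL.precomp hg) (φ := fun s b =>
      decide ((unpair s).1.length = nn c (unpair (unpair s).2).2.length) &&
        decide ((unpair (unpair s).2).1[valB (unpair s).1]? ≠ some b)) hφ3
  have hL4 := hL3.exists_short (UPoly.length (Poly.id (α := List Bool)))
  have hψ : Poly (fun v : List Bool => decide ((unpair v).2.all (fun b => b) = true) &&
      (decide (1 ≤ ((Nat.bits (unpair v).2.length).length - 1) / c) &&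
      (decide ((unpair v).1.length = 2 ^ nn c (unpair v).2.length) &&
      bt (max (prz (2 ^ (2 * nn c (unpair v).2.length)) (unpair v).2.length) 1) m (unpair v).1
        (unpair v).2.length))) := by
    refine Poly.and (Poly.decide_bool (Poly.all (p := fun _ b => b) h2 (Poly.snd Poly.id)))
      (Poly.and (Poly.decide_le (NPC.Poly.const 1) (Poly.div (Poly.sub (Poly.length
        (NPC.Poly.natBits (Poly.length h2))) (NPC.Poly.const 1)) (NPC.Poly.const c)))
      (Poly.and (Poly.decide_eq (Poly.length h1) (A4.poly_two_pow hnn2)) ?_))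
    exact poly_bt m (poly_prz (A4.poly_two_pow (UPoly.mul (UPoly.const 2) hnn2))
      (UPoly.length h2)) (Poly.length h2) h1
  have hφ5 : Poly (fun p : List Bool × Bool => !p.2 && (decide ((unpair p.1).2.all
      (fun b => b) = true) &&
      (decide (1 ≤ ((Nat.bits (unpair p.1).2.length).length - 1) / c) &&
      (decide ((unpair p.1).1.length = 2 ^ nn c (unpair p.1).2.length) &&
      bt (max (prz (2 ^ (2 * nn c (unpair p.1).2.length)) (unpair p.1).2.length) 1) m
        (unpair p.1).1 (unpair p.1).2.length)))) :=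
    Poly.and (Poly.not (Poly.snd Poly.id)) (hψ.comp (Poly.fst Poly.id))
  have hL5 := spPost hL4 (φ := fun v b => !b && (decide ((unpair v).2.all (fun b => b) = true) &&
      (decide (1 ≤ ((Nat.bits (unpair v).2.length).length - 1) / c) &&
      (decide ((unpair v).1.length = 2 ^ nn c (unpair v).2.length) &&
      bt (max (prz (2 ^ (2 * nn c (unpair v).2.length)) (unpair v).2.length) 1) m (unpair v).1
        (unpair v).2.length)))) hφ5
  have hL6 := hL5.exists_short (UPoly.length (Poly.id (α := List Bool)))
  have hc0 : 0 < c := by omega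
  have hpr : ∀ n N : ℕ, 2 ^ (c * (n + 1)) ≤ N → pr (4 ^ n) ≤ N := by
    intro n N hN
    refine (pr_le (by positivity)).trans (le_trans ?_ hN)
    have e : 2 * 4 ^ n = 2 ^ (2 * n + 1) := by
      rw [pow_succ, pow_mul]
      norm_num [mul_comm]
    rw [e]
    apply Nat.pow_le_pow_right (by norm_num)
    nlinarith
  convert hL6 using 1
  ext z
  simp only [Set.mem_ofPred_eq, Bool.and_eq_true, Bool.not_eq_true', decide_eq_true_iff,
    decide_eq_false_iff_not, unpair_pairBits, TT]
  have hall : z = List.replicate z.length true ↔ z.all (fun b => b) = true := by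
    rw [List.eq_replicate_iff, List.all_eq_true]
    simp
  constructor
  · rintro ⟨n, N, hN1, hN2, rfl, hb⟩
    have hN : (List.replicate N true).length = N := List.length_replicate
    have hd := div_of_block hc0 hN1 hN2
    have hn : nn c N = n := by unfold nn; rw [hd]; rfl
    refine ⟨tab L n, ?_, ?_, ?_, ?_, ?_, ?_⟩
    · rw [length_tab, hN]
      refine le_trans (Nat.pow_le_pow_right (by norm_num) ?_) hN1
      nlinarith
    · rintro ⟨x, _, hx1, hx2⟩
      rw [hN, hn] at hx1
      apply hx2
      rw [tab_get L hx1]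
      congr 1
      rw [decide_eq_decide]
      constructor
      · intro h
        refine ⟨?_, h⟩
        rw [hN, hx1]
        exact le_trans (Nat.pow_le_pow_right (by norm_num) (Nat.mul_le_mul_right _ hc)) hN1
      · exact fun h => h.2
    · simp
    · rw [hN, hd]; omega
    · rw [hN, hn, length_tab]
    · rw [hN, hn]
      have e4 : 2 ^ (2 * n) = 4 ^ n := by rw [pow_mul]; norm_num
      rw [e4, prz_eq (hpr n N hN1), max_eq_left (pr_prime _).one_lt.le]
      exact hb
  · rintro ⟨W, _, h3, hz, hd, hlen, hb⟩
    obtain ⟨hN1, hN2⟩ := block_of_div hc0 hd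
    refine ⟨nn c z.length, z.length, hN1, hN2, hall.2 hz, ?_⟩
    have hW : W = tab L (nn c z.length) := by
      rw [tab_iff]
      refine ⟨hlen, fun x hx => ?_⟩
      by_contra hne
      apply h3
      refine ⟨x, ?_, hx, ?_⟩
      · rw [Pool.Agent.H620R2.Gauge.A2.length_pairBits, hx]
        have e1 : nn c z.length ≤ (Nat.bits z.length).length := by
          unfold nn
          exact (Nat.sub_le _ _).trans ((Nat.div_le_self _ _).trans (Nat.sub_le _ _))
        rw [bits_len] at e1
        have e2 : z.length.size ≤ z.length := Nat.size_le.2 Nat.lt_two_pow_self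
        omega
      · intro h
        apply hne
        rw [h]
        congr 1
        rw [decide_eq_decide]
        constructor
        · exact fun h => h.2
        · intro h
          refine ⟨?_, h⟩
          rw [hx]
          exact le_trans (Nat.pow_le_pow_right (by norm_num) (Nat.mul_le_mul_right _ hc)) hN1
    have e4 : 2 ^ (2 * nn c z.length) = 4 ^ nn c z.length := by rw [pow_mul]; norm_num
    rw [e4, prz_eq (hpr _ _ hN1), max_eq_left (pr_prime _).one_lt.le] at hb
    rw [← hW]
    exact hb

end Pool.Agent.J4H65.WA
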